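import Pool.Agent.Q76.BK.Green

set_option autoImplicit false

/-! The Bellman function. -/

open Complex MeasureTheory Metric Set

namespace Pool.Agent.Q76.BK

lemma gr_self (w : ℂ) : gr w w = normSq w := by
  rw [gr_apply, normSq_apply]

/-- the constant in the lower bound -/
noncomputable def cB (b t : ℝ) : ℝ := min (min b (b ^ 2 / 2)) (min 1 (t - 1))

lemma cB_pos {b t : ℝ} (hb : 0 < b) (ht : 1 < t) : 0 < cB b t := by
  unfold cB
  refine lt_min (lt_min hb (by positivity)) (lt_min one_pos (by linarith))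

lemma cB_le1 (b t : ℝ) : cB b t ≤ b := (min_le_left _ _).trans (min_le_left _ _)
lemma cB_le2 (b t : ℝ) : cB b t ≤ b ^ 2 / 2 := (min_le_left _ _).trans (min_le_right _ _)
lemma cB_le3 (b t : ℝ) : cB b t ≤ 1 := (min_le_right _ _).trans (min_le_left _ _)
lemma cB_le4 (b t : ℝ) : cB b t ≤ t - 1 := (min_le_right _ _).trans (min_le_right _ _)

/-- the gradient of `E = n^b + G^2` -/
lemma ptA {b n G : ℝ} {p v : ℂ} (hn : 0 < n) :
    gr ((b * n ^ (b - 1)) • p + (G • v + G • v)) ((b * n ^ (b - 1)) • p + (G • v + G • v)) ≤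
      (n ^ b + G * G) * (b ^ 2 * n ^ (b - 2) * gr p p + 4 * gr v v) := by
  set x : ℝ := n ^ (b / 2) with hx
  have h1 : n ^ b = x ^ 2 := by
    rw [hx, ← Real.rpow_natCast, ← Real.rpow_mul hn.le]; congr 1; push_cast; ring
  have h2 : n ^ (b - 1) = x ^ 2 / n := by rw [← h1, Real.rpow_sub_one hn.ne']
  have h3 : n ^ (b - 2) = x ^ 2 / n ^ 2 := by
    rw [← h1, Real.rpow_sub hn]; norm_num
  rw [h1, h2, h3]
  simp only [gr_apply, Complex.add_re, Complex.add_im, Complex.real_smul, Complex.mul_re,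
    Complex.mul_im, Complex.ofReal_re, Complex.ofReal_im, zero_mul, sub_zero, add_zero]
  have key : ∀ P Q : ℝ, (b * (x ^ 2 / n) * P + (G * Q + G * Q)) * (b * (x ^ 2 / n) * P + (G * Q + G * Q)) =
      (x ^ 2 + G * G) * (b ^ 2 * (x ^ 2 / n ^ 2) * (P * P) + 4 * (Q * Q)) -
      (2 * x * Q - b * x * G * (P / n)) ^ 2 := by
    intro P Q; field_simp; ring
  rw [key, key]
  nlinarith [sq_nonneg (2 * x * v.re - b * x * G * (p.re / n)),
    sq_nonneg (2 * x * v.im - b * x * G * (p.im / n))]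

lemma ptB {b t n L G B : ℝ} {p v : ℂ} (hb : 0 < b) (ht : 1 < t) (hn : 0 < n)
    (hp : gr p p ≤ n * L) (hG : 0 < G) (hB0 : 0 ≤ B)
    (hB : B ≤ (n ^ b + G * G) * (b ^ 2 * n ^ (b - 2) * gr p p + 4 * gr v v)) :
    cB b t * ((n ^ b + G * G) * (n ^ (b - 1) * L + gr v v)) ≤
      (n ^ b + G * G) * ((b * n ^ (b - 1) * L + b * (b - 1) * n ^ (b - 2) * gr p p) +
        (G * 0 + G * 0 + 2 * gr v v)) - (1 - t / 2) * B := by
  set E := n ^ b + G * G with hE
  have hE0 : 0 < E := by positivity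
  have hr : 0 ≤ gr v v := by rw [gr_self]; exact normSq_nonneg _
  have hq : 0 ≤ gr p p := by rw [gr_self]; exact normSq_nonneg _
  set r := gr v v
  set q := gr p p
  -- `X = n^(b-1) L`, `Y = n^(b-2) q`
  set X := n ^ (b - 1) * L with hX
  set Y := n ^ (b - 2) * q with hY
  have hY0 : 0 ≤ Y := by positivity
  have hYX : Y ≤ X := by
    have e : n ^ (b - 1) = n ^ (b - 2) * n := by
      rw [← Real.rpow_add_one hn.ne']; congr 1; ring
    rw [hX, hY, e, mul_assoc]
    exact mul_le_mul_of_nonneg_left hp (by positivity)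
  have e1 : b * n ^ (b - 1) * L + b * (b - 1) * n ^ (b - 2) * q = b * X + b * (b - 1) * Y := by
    rw [hX, hY]; ring
  have e2 : b ^ 2 * n ^ (b - 2) * q = b ^ 2 * Y := by rw [hY]; ring
  rw [e1]
  rw [e2] at hB
  have c1 := cB_le1 b t
  have c2 := cB_le2 b t
  have c3 := cB_le3 b t
  have c4 := cB_le4 b t
  have c0 := cB_pos hb ht
  set c := cB b t
  have hXY : 0 ≤ X - Y := by linarith
  have k1 : c * (X - Y) ≤ b * (X - Y) := mul_le_mul_of_nonneg_right c1 hXY
  have k2 : c * Y ≤ b ^ 2 / 2 * Y := mul_le_mul_of_nonneg_right c2 hY0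
  have hb2 : 0 ≤ b ^ 2 * Y := by positivity
  rcases le_or_gt 2 t with h | h
  · have h1 : 0 ≤ -(1 - t / 2) * B := mul_nonneg (by linarith) hB0
    have h2 : c * (X + r) ≤ b * X + b * (b - 1) * Y + (G * 0 + G * 0 + 2 * r) := by
      nlinarith [mul_le_mul_of_nonneg_right c3 hr]
    have h3 := mul_le_mul_of_nonneg_left h2 hE0.le
    nlinarith
  · have h1 : (1 - t / 2) * B ≤ (1 - t / 2) * (E * (b ^ 2 * Y + 4 * r)) :=
      mul_le_mul_of_nonneg_left hB (by linarith)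
    have h2 : c * (X + r) ≤ b * X + b * (b - 1) * Y + (G * 0 + G * 0 + 2 * r) -
        (1 - t / 2) * (b ^ 2 * Y + 4 * r) := by
      have k3 : c * r ≤ (t - 1) * r := mul_le_mul_of_nonneg_right c4 hr
      have k4 : 0 ≤ (t - 1) * (b ^ 2 * Y) := by
        have : 0 < t - 1 := by linarith
        positivity
      have k5 : 0 ≤ (t - 1) * r := mul_nonneg (by linarith) hr
      nlinarith
    have h3 := mul_le_mul_of_nonneg_left h2 hE0.le
    nlinarith

lemma ptC {b t n L G B E lE : ℝ} {p v : ℂ} (hb : 0 < b) (ht : 1 < t) (hn : 0 < n)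
    (hp : gr p p ≤ n * L) (hG : 0 < G) (hB0 : 0 ≤ B) (hE : E = n ^ b + G * G)
    (hlE : lE = (b * n ^ (b - 1) * L + b * (b - 1) * n ^ (b - 2) * gr p p) +
        (G * 0 + G * 0 + 2 * gr v v))
    (hB : B ≤ (n ^ b + G * G) * (b ^ 2 * n ^ (b - 2) * gr p p + 4 * gr v v)) :
    t / 2 * cB b t * (E ^ (t / 2 - 1) * (n ^ (b - 1) * L + gr v v)) ≤
      t / 2 * E ^ (t / 2 - 1) * lE + t / 2 * (t / 2 - 1) * E ^ (t / 2 - 2) * B := by
  have hE0 : 0 < E := by rw [hE]; positivity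
  have h := ptB hb ht hn hp hG hB0 hB
  rw [← hE, ← hlE] at h
  have e : E ^ (t / 2 - 1) = E ^ (t / 2 - 2) * E := by
    rw [← Real.rpow_add_one hE0.ne']; congr 1; ring
  have h2 : 0 ≤ t / 2 * E ^ (t / 2 - 2) := by positivity
  have h3 := mul_le_mul_of_nonneg_left h h2
  rw [e]
  calc _ = t / 2 * E ^ (t / 2 - 2) * (cB b t * (E * (n ^ (b - 1) * L + gr v v))) := by ring
    _ ≤ _ := h3
    _ = _ := by ring

lemma ptE {b t n G φ ν E : ℝ} (ht : 2 ≤ t) (hn : 0 < n) (hφ : 0 ≤ φ) (hν : 0 ≤ ν)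
    (hE : E = n ^ b + G * G) :
    4 * (n ^ ((b * (t - 1) - 1) / 2) * (φ * ν)) ≤
      E ^ (t / 2 - 1) * (n ^ (b - 1) * (4 * φ ^ 2) + ν ^ 2) := by
  have hnb : 0 < n ^ b := by positivity
  have hEn : n ^ b ≤ E := by rw [hE]; nlinarith [mul_self_nonneg G]
  have hE0 : 0 < E := lt_of_lt_of_le hnb hEn
  have h1 : (n ^ b) ^ (t / 2 - 1) ≤ E ^ (t / 2 - 1) := Real.rpow_le_rpow hnb.le hEn (by linarith)
  have h2 : 4 * (n ^ ((b - 1) / 2) * (φ * ν)) ≤ n ^ (b - 1) * (4 * φ ^ 2) + ν ^ 2 := by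
    have e : n ^ (b - 1) = (n ^ ((b - 1) / 2)) ^ 2 := by
      rw [← Real.rpow_natCast, ← Real.rpow_mul hn.le]; congr 1; push_cast; ring
    rw [e]
    nlinarith [sq_nonneg (2 * n ^ ((b - 1) / 2) * φ - ν)]
  have e3 : n ^ ((b * (t - 1) - 1) / 2) = (n ^ b) ^ (t / 2 - 1) * n ^ ((b - 1) / 2) := by
    rw [← Real.rpow_mul hn.le, ← Real.rpow_add hn]; congr 1; ring
  rw [e3]
  calc _ = (n ^ b) ^ (t / 2 - 1) * (4 * (n ^ ((b - 1) / 2) * (φ * ν))) := by ring
    _ ≤ E ^ (t / 2 - 1) * (n ^ (b - 1) * (4 * φ ^ 2) + ν ^ 2) :=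
        mul_le_mul h1 h2 (by positivity) (by positivity)

lemma gr_cross (p q : ℂ) {μ : ℝ} (hμ : 0 < μ) : -(μ * gr p p + gr q q / μ) ≤ 2 * gr p q := by
  have h : 0 ≤ (μ * p.re + q.re) ^ 2 + (μ * p.im + q.im) ^ 2 := by positivity
  have h2 : 0 ≤ ((μ * p.re + q.re) ^ 2 + (μ * p.im + q.im) ^ 2) / μ := div_nonneg h hμ.le
  have e : ((μ * p.re + q.re) ^ 2 + (μ * p.im + q.im) ^ 2) / μ = μ * gr p p + gr q q / μ + 2 * gr p q := by
    simp only [gr_apply]; field_simp; ring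
  linarith

/-- constants for the case `t < 2` -/
noncomputable def kap (b : ℝ) : ℝ := max (b ^ 2) 4
noncomputable def mm (α : ℝ) : ℝ := min α (α ^ 2)
noncomputable def KK (b α β : ℝ) : ℝ := kap b * (β * (1 - β) + 2 * α ^ 2 * β ^ 2 / mm α)

lemma mm_pos {α : ℝ} (h : 0 < α) : 0 < mm α := lt_min h (by positivity)

lemma ptF {b t n L G B E lE α β : ℝ} {p v q : ℂ} (hb : 0 < b) (ht : 1 < t) (ht2 : t < 2) (hn : 0 < n)
    (hL : 0 ≤ L) (hp : gr p p ≤ n * L) (hE : E = n ^ b + G * G)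
    (hα : α = b * (t - 1)) (hβ : β = 1 - t / 2) (hlE : 0 ≤ lE) (hBq : B = gr q q)
    (hB : B ≤ E * (b ^ 2 * n ^ (b - 2) * gr p p + 4 * gr v v)) :
    mm α / 2 * (E ^ β * (n ^ (α - 1) * L)) - KK b α β * (E ^ (t / 2 - 1) * (n ^ (b - 1) * L + gr v v)) ≤
      n ^ α * (β * E ^ (β - 1) * lE + β * (β - 1) * E ^ (β - 2) * B) +
      E ^ β * (α * n ^ (α - 1) * L + α * (α - 1) * n ^ (α - 2) * gr p p) +
      2 * gr ((α * n ^ (α - 1)) • p) ((β * E ^ (β - 1)) • q) := by
  have hα0 : 0 < α := by rw [hα]; exact mul_pos hb (by linarith)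
  have hβ0 : 0 < β := by rw [hβ]; linarith
  have hβ1 : β < 1 := by rw [hβ]; linarith
  have hnb : 0 < n ^ b := by positivity
  have hE0 : 0 < E := by rw [hE]; nlinarith [mul_self_nonneg G]
  have hEn : n ^ b ≤ E := by rw [hE]; nlinarith [mul_self_nonneg G]
  have hr : 0 ≤ gr v v := by rw [gr_self]; exact normSq_nonneg _
  have hq : 0 ≤ gr p p := by rw [gr_self]; exact normSq_nonneg _
  have hB0 : 0 ≤ B := by rw [hBq, gr_self]; exact normSq_nonneg _
  have hm := mm_pos hα0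
  have hm1 : mm α ≤ α := min_le_left _ _
  have hm2 : mm α ≤ α ^ 2 := min_le_right _ _
  set m := mm α with hmdef
  have hk1 : b ^ 2 ≤ kap b := le_max_left _ _
  have hk2 : 4 ≤ kap b := le_max_right _ _
  set κ := kap b with hκ
  set r := gr v v with hrdef
  set Q := gr p p with hQ
  set X := n ^ (b - 1) * L with hX
  have hX0 : 0 ≤ X := by positivity
  have hQX : n ^ (b - 2) * Q ≤ X := by
    have e : n ^ (b - 1) = n ^ (b - 2) * n := by
      rw [← Real.rpow_add_one hn.ne']; congr 1; ring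
    rw [hX, e, mul_assoc]
    exact mul_le_mul_of_nonneg_left hp (by positivity)
  have hBk : B ≤ E * (κ * (X + r)) := by
    refine hB.trans (mul_le_mul_of_nonneg_left ?_ hE0.le)
    have h1 : b ^ 2 * n ^ (b - 2) * Q ≤ κ * X := by
      calc _ = b ^ 2 * (n ^ (b - 2) * Q) := by ring
        _ ≤ κ * X := mul_le_mul hk1 hQX (by positivity) (by positivity)
    have h2 : 4 * r ≤ κ * r := mul_le_mul_of_nonneg_right hk2 hr
    linarith
  -- n^α E^(β-2) B ≤ κ E^(t/2-1) (X + r)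
  have hnα : n ^ α ≤ E ^ (t - 1) := by
    rw [hα, Real.rpow_mul hn.le]
    exact Real.rpow_le_rpow hnb.le hEn (by linarith)
  have key : n ^ α * (E ^ (β - 2) * B) ≤ κ * (E ^ (t / 2 - 1) * (X + r)) := by
    have h1 : n ^ α * (E ^ (β - 2) * B) ≤ E ^ (t - 1) * (E ^ (β - 2) * (E * (κ * (X + r)))) := by
      refine mul_le_mul hnα (mul_le_mul_of_nonneg_left hBk (by positivity)) (by positivity) (by positivity)
    have e : E ^ (t / 2 - 1) = E ^ (t - 1) * (E ^ (β - 2) * E) := by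
      rw [← Real.rpow_add_one hE0.ne', ← Real.rpow_add hE0]; congr 1; rw [hβ]; ring
    rw [e]
    calc _ ≤ _ := h1
      _ = _ := by ring
  -- term 1
  have t1 : -(β * (1 - β)) * (κ * (E ^ (t / 2 - 1) * (X + r))) ≤
      n ^ α * (β * E ^ (β - 1) * lE + β * (β - 1) * E ^ (β - 2) * B) := by
    have h1 : 0 ≤ n ^ α * (β * E ^ (β - 1) * lE) := by positivity
    have h2 : β * (1 - β) * (n ^ α * (E ^ (β - 2) * B)) ≤
        β * (1 - β) * (κ * (E ^ (t / 2 - 1) * (X + r))) :=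
      mul_le_mul_of_nonneg_left key (mul_nonneg hβ0.le (by linarith))
    nlinarith
  -- term 2
  have hYX : n ^ (α - 2) * Q ≤ n ^ (α - 1) * L := by
    have e : n ^ (α - 1) = n ^ (α - 2) * n := by
      rw [← Real.rpow_add_one hn.ne']; congr 1; ring
    rw [e, mul_assoc]
    exact mul_le_mul_of_nonneg_left hp (by positivity)
  set Y := n ^ (α - 2) * Q with hY
  set Z := n ^ (α - 1) * L with hZ
  have hY0 : 0 ≤ Y := by positivity
  have t2 : m * (E ^ β * Z) ≤ E ^ β * (α * n ^ (α - 1) * L + α * (α - 1) * n ^ (α - 2) * Q) := by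
    have h1 : m * Z ≤ α * Z + α * (α - 1) * Y := by
      have h2 : m * (Z - Y) ≤ α * (Z - Y) := mul_le_mul_of_nonneg_right hm1 (by linarith)
      have h3 : m * Y ≤ α ^ 2 * Y := mul_le_mul_of_nonneg_right hm2 hY0
      nlinarith
    calc m * (E ^ β * Z) = E ^ β * (m * Z) := by ring
      _ ≤ E ^ β * (α * Z + α * (α - 1) * Y) := mul_le_mul_of_nonneg_left h1 (by positivity)
      _ = _ := by rw [hZ, hY]; ring
  -- term 3
  have t3 : -(m / 2 * (E ^ β * Z)) - 2 * α ^ 2 * β ^ 2 / m * (κ * (E ^ (t / 2 - 1) * (X + r))) ≤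
      2 * gr ((α * n ^ (α - 1)) • p) ((β * E ^ (β - 1)) • q) := by
    set μ : ℝ := m / (2 * (α * β)) * (E / n) with hμ
    have hμ0 : 0 < μ := by positivity
    have h1 := gr_cross p q hμ0
    rw [← hQ, ← hBq] at h1
    have e1 : 2 * gr ((α * n ^ (α - 1)) • p) ((β * E ^ (β - 1)) • q) =
        (α * β * (n ^ (α - 1) * E ^ (β - 1))) * (2 * gr p q) := by
      simp only [gr_apply, Complex.real_smul, Complex.mul_re,
        Complex.mul_im, Complex.ofReal_re, Complex.ofReal_im, zero_mul, sub_zero, add_zero]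
      ring
    rw [e1]
    have h2 := mul_le_mul_of_nonneg_left h1 (show 0 ≤ α * β * (n ^ (α - 1) * E ^ (β - 1)) by positivity)
    refine le_trans ?_ h2
    have e2 : n ^ (α - 1) = n ^ (α - 2) * n := by
      rw [← Real.rpow_add_one hn.ne']; congr 1; ring
    have e2' : n ^ α = n ^ (α - 2) * n ^ 2 := by
      rw [← Real.rpow_natCast, ← Real.rpow_add hn]; congr 1; push_cast; ring
    have e3 : E ^ (β - 1) = E ^ (β - 2) * E := by
      rw [← Real.rpow_add_one hE0.ne']; congr 1; ring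
    have e3' : E ^ β = E ^ (β - 2) * E ^ 2 := by
      rw [← Real.rpow_natCast, ← Real.rpow_add hE0]; congr 1; push_cast; ring
    have e4 : α * β * (n ^ (α - 1) * E ^ (β - 1)) * -(μ * Q + B / μ) =
        -(m / 2 * (E ^ β * Y)) - 2 * α ^ 2 * β ^ 2 / m * (n ^ α * (E ^ (β - 2) * B)) := by
      rw [hY, e2, e2', e3, e3', hμ]
      field_simp
      ring
    rw [e4]
    have h5 : m / 2 * (E ^ β * Y) ≤ m / 2 * (E ^ β * Z) :=
      mul_le_mul_of_nonneg_left (mul_le_mul_of_nonneg_left hYX (by positivity)) (by positivity)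
    have h6 : 2 * α ^ 2 * β ^ 2 / m * (n ^ α * (E ^ (β - 2) * B)) ≤
        2 * α ^ 2 * β ^ 2 / m * (κ * (E ^ (t / 2 - 1) * (X + r))) :=
      mul_le_mul_of_nonneg_left key (by positivity)
    linarith
  have e5 : KK b α β * (E ^ (t / 2 - 1) * (X + r)) = β * (1 - β) * (κ * (E ^ (t / 2 - 1) * (X + r))) +
      2 * α ^ 2 * β ^ 2 / m * (κ * (E ^ (t / 2 - 1) * (X + r))) := by
    unfold KK; ring
  rw [e5]
  linarith

lemma ptG {t n φ ν E α β m : ℝ} (hn : 0 < n) (hE : 0 < E) (hm : 0 < m)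
    (hβ : β = 1 - t / 2) :
    4 * min 1 (m / 2) * (n ^ ((α - 1) / 2) * (φ * ν)) ≤
      m / 2 * (E ^ β * (n ^ (α - 1) * (4 * φ ^ 2))) + E ^ (t / 2 - 1) * ν ^ 2 := by
  set w := min 1 (m / 2) with hw
  have hw0 : 0 < w := lt_min one_pos (by positivity)
  have h1 : w ≤ 1 := min_le_left _ _
  have h2 : w ≤ m / 2 := min_le_right _ _
  have e1 : n ^ (α - 1) = (n ^ ((α - 1) / 2)) ^ 2 := by
    rw [← Real.rpow_natCast, ← Real.rpow_mul hn.le]; congr 1; push_cast; ring
  have e2 : E ^ β = (E ^ (β / 2)) ^ 2 := by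
    rw [← Real.rpow_natCast, ← Real.rpow_mul hE.le]; congr 1; push_cast; ring
  have e3 : E ^ (t / 2 - 1) = (E ^ (-(β / 2))) ^ 2 := by
    rw [← Real.rpow_natCast, ← Real.rpow_mul hE.le]; congr 1; push_cast; rw [hβ]; ring
  have e4 : E ^ (β / 2) * E ^ (-(β / 2)) = 1 := by
    rw [← Real.rpow_add hE]; simp
  rw [e1, e2, e3]
  set A := E ^ (β / 2) with hA
  set A' := E ^ (-(β / 2)) with hA'
  set S := n ^ ((α - 1) / 2) with hS
  have hA0 : 0 < A := by positivity
  have hA0' : 0 < A' := by positivity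
  have hS0 : 0 < S := by positivity
  have h3 : w * (A ^ 2 * (S ^ 2 * (4 * φ ^ 2))) ≤ m / 2 * (A ^ 2 * (S ^ 2 * (4 * φ ^ 2))) :=
    mul_le_mul_of_nonneg_right h2 (by positivity)
  have h4 : w * (A' ^ 2 * ν ^ 2) ≤ 1 * (A' ^ 2 * ν ^ 2) := mul_le_mul_of_nonneg_right h1 (by positivity)
  have h5 : 4 * (S * (φ * ν)) ≤ A ^ 2 * (S ^ 2 * (4 * φ ^ 2)) + A' ^ 2 * ν ^ 2 := by
    have : S * (φ * ν) = (A * S * φ) * (A' * ν) := by
      calc S * (φ * ν) = (A * A') * (S * (φ * ν)) := by rw [e4]; ring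
        _ = _ := by ring
    rw [this]
    nlinarith [sq_nonneg (2 * (A * S * φ) - A' * ν)]
  have h6 := mul_le_mul_of_nonneg_left h5 hw0.le
  nlinarith

lemma E_le {n G b t : ℝ} (hn : 0 < n) (hG : 0 < G) (ht : 1 < t) :
    (n ^ b + G * G) ^ (t / 2) ≤ 2 ^ (t / 2) * (n ^ (b * t / 2) + G ^ t) := by
  have hnb : 0 < n ^ b := by positivity
  have e1 : (n ^ b) ^ (t / 2) = n ^ (b * t / 2) := by
    rw [← Real.rpow_mul hn.le]; congr 1; ring
  have e2 : (G * G) ^ (t / 2) = G ^ t := by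
    rw [← pow_two, ← Real.rpow_natCast, ← Real.rpow_mul hG.le]; congr 1; push_cast; ring
  have e3 : ∀ m : ℝ, 0 < m → (2 * m) ^ (t / 2) = 2 ^ (t / 2) * m ^ (t / 2) := fun m hm =>
    Real.mul_rpow (by norm_num) hm.le
  have h2 : (0:ℝ) < 2 ^ (t / 2) := by positivity
  have p1 : 0 < n ^ (b * t / 2) := by positivity
  have p2 : 0 < G ^ t := by positivity
  rcases le_total (n ^ b) (G * G) with h | h
  · calc (n ^ b + G * G) ^ (t / 2) ≤ (2 * (G * G)) ^ (t / 2) :=
          Real.rpow_le_rpow (by positivity) (by linarith) (by linarith)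
      _ = 2 ^ (t / 2) * G ^ t := by rw [e3 _ (by positivity), e2]
      _ ≤ _ := mul_le_mul_of_nonneg_left (by linarith) h2.le
  · calc (n ^ b + G * G) ^ (t / 2) ≤ (2 * n ^ b) ^ (t / 2) :=
          Real.rpow_le_rpow (by positivity) (by linarith) (by linarith)
      _ = 2 ^ (t / 2) * n ^ (b * t / 2) := by rw [e3 _ hnb, e1]
      _ ≤ _ := mul_le_mul_of_nonneg_left (by linarith) h2.le

theorem bell {b t : ℝ} (hb : 0 < b) (ht : 1 < t) : ∃ c C : ℝ, 0 < c ∧ 0 < C ∧
    ∀ (U : Set ℂ) (_ : IsOpen U) (F V : ℂ → ℂ) (_ : DifferentiableOn ℂ F U)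
      (_ : DifferentiableOn ℂ V U) (_ : ∀ z ∈ U, 0 < (V z).re) (ε : ℝ) (_ : 0 < ε),
      ∃ (Θ : ℂ → ℝ) (g : ℂ → ℂ) (l : ℂ → ℝ), Jet U Θ g l ∧
        (∀ z ∈ U, 0 ≤ Θ z ∧ Θ z ≤ C * ((normSq (F z) + ε) ^ (b * t / 2) + (V z).re ^ t)) ∧
        ∀ z ∈ U, c * ((normSq (F z) + ε) ^ ((b * (t - 1) - 1) / 2) *
          (‖deriv F z‖ * ‖deriv V z‖)) ≤ l z := by
  have hcB := cB_pos hb ht
  have common : ∀ (U : Set ℂ) (_ : IsOpen U) (F V : ℂ → ℂ) (_ : DifferentiableOn ℂ F U)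
      (_ : DifferentiableOn ℂ V U) (_ : ∀ z ∈ U, 0 < (V z).re) (ε : ℝ) (_ : 0 < ε),
      ∃ (gE : ℂ → ℂ) (lE : ℂ → ℝ),
        Jet U (fun z => (normSq (F z) + ε) ^ b + (V z).re * (V z).re) gE lE ∧
        (∀ z ∈ U, 0 < normSq (F z) + ε) ∧
        (∀ z ∈ U, 0 < (normSq (F z) + ε) ^ b + (V z).re * (V z).re) ∧
        (∀ z ∈ U, gr (2 * F z * (starRingEnd ℂ) (deriv F z)) (2 * F z * (starRingEnd ℂ) (deriv F z)) ≤
          (normSq (F z) + ε) * (4 * normSq (deriv F z))) ∧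
        (∀ z ∈ U, 0 ≤ lE z) ∧
        (∀ z ∈ U, gr (gE z) (gE z) ≤ ((normSq (F z) + ε) ^ b + (V z).re * (V z).re) *
          (b ^ 2 * (normSq (F z) + ε) ^ (b - 2) *
            gr (2 * F z * (starRingEnd ℂ) (deriv F z)) (2 * F z * (starRingEnd ℂ) (deriv F z)) +
            4 * gr ((starRingEnd ℂ) (deriv V z)) ((starRingEnd ℂ) (deriv V z)))) ∧
        (∀ z ∈ U, lE z = (b * (normSq (F z) + ε) ^ (b - 1) * (4 * normSq (deriv F z)) +
          b * (b - 1) * (normSq (F z) + ε) ^ (b - 2) *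
            gr (2 * F z * (starRingEnd ℂ) (deriv F z)) (2 * F z * (starRingEnd ℂ) (deriv F z))) +
          ((V z).re * 0 + (V z).re * 0 + 2 * gr ((starRingEnd ℂ) (deriv V z))
            ((starRingEnd ℂ) (deriv V z)))) := by
    intro U hU F V hF hV hV0 ε hε
    have hN0 : ∀ z ∈ U, 0 < normSq (F z) + ε := fun z _ => by
      have := normSq_nonneg (F z); linarith
    have JN := jet_normSq hU hF ε
    have JG := jet_re hU hV
    have JE := (JN.rpow hN0 b).add (JG.mul JG)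
    have hgp : ∀ z ∈ U, gr (2 * F z * (starRingEnd ℂ) (deriv F z)) (2 * F z * (starRingEnd ℂ) (deriv F z)) ≤
          (normSq (F z) + ε) * (4 * normSq (deriv F z)) := by
      intro z _
      rw [gr_self]
      have e : normSq (2 * F z * (starRingEnd ℂ) (deriv F z)) = normSq (F z) * (4 * normSq (deriv F z)) := by
        rw [map_mul, map_mul, Complex.normSq_conj]; norm_num [Complex.normSq_apply]; ring
      rw [e]
      have := normSq_nonneg (deriv F z)
      nlinarith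
    refine ⟨_, _, JE, hN0, fun z hz => ?_, hgp, fun z hz => ?_, fun z hz => ?_, fun z hz => rfl⟩
    · have := hN0 z hz; have := hV0 z hz; positivity
    · have hn := hN0 z hz
      have hG := hV0 z hz
      set n := normSq (F z) + ε
      set p := 2 * F z * (starRingEnd ℂ) (deriv F z)
      set v := (starRingEnd ℂ) (deriv V z)
      have h1 := ptB (t := t) hb ht hn (hgp z hz) hG le_rfl (v := v) (by
        have : 0 ≤ gr v v := by rw [gr_self]; exact normSq_nonneg _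
        have : 0 ≤ gr p p := by rw [gr_self]; exact normSq_nonneg _
        positivity)
      simp only [mul_zero, sub_zero] at h1 ⊢
      have hr : 0 ≤ gr v v := by rw [gr_self]; exact normSq_nonneg _
      have h2 : 0 ≤ cB b t * ((n ^ b + (V z).re * (V z).re) * (n ^ (b - 1) * (4 * normSq (deriv F z)) + gr v v)) := by
        have := normSq_nonneg (deriv F z)
        positivity
      have h3 : 0 < n ^ b + (V z).re * (V z).re := by positivity
      exact nonneg_of_mul_nonneg_right (h2.trans h1) h3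
    · exact ptA (hN0 z hz)
  rcases le_or_gt 2 t with h | h
  · -- the case `t ≥ 2`
    refine ⟨t / 2 * cB b t * 4, 2 ^ (t / 2), by positivity, by positivity, ?_⟩
    intro U hU F V hF hV hV0 ε hε
    obtain ⟨gE, lE, JE, hN0, hE0, hgp, hlE0, hgE, hlE⟩ := common U hU F V hF hV hV0 ε hε
    refine ⟨_, _, _, JE.rpow hE0 (t / 2), fun z hz => ⟨?_, E_le (hN0 z hz) (hV0 z hz) ht⟩, fun z hz => ?_⟩
    · have := hE0 z hz; positivity
    · have hgg : 0 ≤ gr (gE z) (gE z) := by rw [gr_self]; exact normSq_nonneg _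
      have h1 := ptC (t := t) hb ht (hN0 z hz) (hgp z hz) (hV0 z hz) hgg rfl (hlE z hz) (hgE z hz)
      refine le_trans ?_ h1
      have h2 := ptE (b := b) (G := (V z).re) h (hN0 z hz) (norm_nonneg (deriv F z))
        (norm_nonneg (deriv V z)) rfl
      have e1 : gr ((starRingEnd ℂ) (deriv V z)) ((starRingEnd ℂ) (deriv V z)) = ‖deriv V z‖ ^ 2 := by
        rw [gr_self, Complex.normSq_conj, Complex.normSq_eq_norm_sq]
      rw [e1, Complex.normSq_eq_norm_sq (deriv F z)]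
      calc _ = t / 2 * cB b t * (4 * ((normSq (F z) + ε) ^ ((b * (t - 1) - 1) / 2) *
            (‖deriv F z‖ * ‖deriv V z‖))) := by ring
        _ ≤ _ := mul_le_mul_of_nonneg_left h2 (by positivity)
  · -- the case `t < 2`
    set α := b * (t - 1) with hα
    set β := 1 - t / 2 with hβ
    have hα0 : 0 < α := mul_pos hb (by linarith)
    have hm := mm_pos hα0
    set C₁ := (KK b α β + 1) / (t / 2 * cB b t) with hC₁
    have hKK : 0 ≤ KK b α β := by
      unfold KK kap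
      have h1 : 0 < β := by rw [hβ]; linarith
      have h2 : 0 < 1 - β := by rw [hβ]; linarith
      positivity
    have hC₁0 : 0 < C₁ := by positivity
    refine ⟨4 * min 1 (mm α / 2), (C₁ + 1) * 2 ^ (t / 2), by positivity, by positivity, ?_⟩
    intro U hU F V hF hV hV0 ε hε
    obtain ⟨gE, lE, JE, hN0, hE0, hgp, hlE0, hgE, hlE⟩ := common U hU F V hF hV hV0 ε hε
    have J1 := (JE.rpow hE0 (t / 2)).const_mul C₁
    have J2 := ((jet_normSq hU hF ε).rpow hN0 α).mul (JE.rpow hE0 β)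
    refine ⟨_, _, _, J1.add J2, fun z hz => ⟨?_, ?_⟩, fun z hz => ?_⟩
    · have := hE0 z hz; have := hN0 z hz; positivity
    · have hn := hN0 z hz
      have hE := hE0 z hz
      have hG := hV0 z hz
      set n := normSq (F z) + ε
      set E := n ^ b + (V z).re * (V z).re with hEd
      have h1 : n ^ α ≤ E ^ (t - 1) := by
        rw [hα, Real.rpow_mul hn.le]
        refine Real.rpow_le_rpow (by positivity) ?_ (by linarith)
        rw [hEd]; nlinarith
      have h2 : n ^ α * E ^ β ≤ E ^ (t / 2) := by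
        calc n ^ α * E ^ β ≤ E ^ (t - 1) * E ^ β := mul_le_mul_of_nonneg_right h1 (by positivity)
          _ = E ^ (t / 2) := by rw [← Real.rpow_add hE]; congr 1; rw [hβ]; ring
      have h3 : C₁ * E ^ (t / 2) + n ^ α * E ^ β ≤ (C₁ + 1) * E ^ (t / 2) := by linarith
      refine h3.trans ?_
      rw [mul_assoc]
      exact mul_le_mul_of_nonneg_left (E_le hn hG ht) (by positivity)
    · have hgg : 0 ≤ gr (gE z) (gE z) := by rw [gr_self]; exact normSq_nonneg _
      have h1 := ptC (t := t) hb ht (hN0 z hz) (hgp z hz) (hV0 z hz) hgg rfl (hlE z hz) (hgE z hz)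
      have h2 := ptF (t := t) (G := (V z).re) hb ht h (hN0 z hz) (by have := normSq_nonneg (deriv F z); positivity)
        (hgp z hz) rfl hα hβ (hlE0 z hz) (rfl : gr (gE z) (gE z) = gr (gE z) (gE z)) (hgE z hz)
      have h3 := ptG (t := t) (n := normSq (F z) + ε) (φ := ‖deriv F z‖) (ν := ‖deriv V z‖) (α := α)
        (hN0 z hz) (hE0 z hz) hm hβ
      have e1 : gr ((starRingEnd ℂ) (deriv V z)) ((starRingEnd ℂ) (deriv V z)) = ‖deriv V z‖ ^ 2 := by
        rw [gr_self, Complex.normSq_conj, Complex.normSq_eq_norm_sq]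
      have e2 : 4 * normSq (deriv F z) = 4 * ‖deriv F z‖ ^ 2 := by
        rw [Complex.normSq_eq_norm_sq (deriv F z)]
      have hn := hN0 z hz
      have hE := hE0 z hz
      rw [e1, e2] at h1
      rw [e1, e2] at h2
      rw [e2]
      set n := normSq (F z) + ε
      set E := n ^ b + (V z).re * (V z).re with hEd
      set W := E ^ (t / 2 - 1) * (n ^ (b - 1) * (4 * ‖deriv F z‖ ^ 2) + ‖deriv V z‖ ^ 2) with hW
      have h4 : C₁ * (t / 2 * cB b t * W) = KK b α β * W + W := by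
        rw [hC₁]; field_simp
      have h5 := mul_le_mul_of_nonneg_left h1 hC₁0.le
      have h6 : E ^ (t / 2 - 1) * ‖deriv V z‖ ^ 2 ≤ W := by
        rw [hW]
        refine mul_le_mul_of_nonneg_left ?_ (by positivity)
        have : 0 ≤ n ^ (b - 1) * (4 * ‖deriv F z‖ ^ 2) := by positivity
        linarith
      linarith

end Pool.Agent.Q76.BK
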