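import Pool.Agent.Q76.BK.Herg

set_option autoImplicit false

/-! The kernel of the extremal problem and its means on circles, by duality. -/

open Complex MeasureTheory Metric Set Filter Topology

namespace Pool.Agent.Q76.BK

lemma ball_lim {E : Type*} [NormedAddCommGroup E] [NormedSpace ℝ E] {f : ℂ → E}
    (hf : IntegrableOn f (ball 0 1)) :
    Tendsto (fun n : ℕ => ∫ z in ball (0:ℂ) (1 - 1 / ((n:ℝ) + 2)), f z) atTop (𝓝 (∫ z in ball (0:ℂ) 1, f z)) := by
  have hU : (⋃ n : ℕ, ball (0:ℂ) (1 - 1 / ((n:ℝ) + 2))) = ball 0 1 := by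
    ext z
    simp only [mem_iUnion, mem_ball_zero_iff]
    constructor
    · rintro ⟨n, hn⟩
      have : 0 < 1 / ((n:ℝ) + 2) := by positivity
      linarith
    · intro hz
      obtain ⟨n, hn⟩ := exists_nat_gt (1 / (1 - ‖z‖))
      refine ⟨n, ?_⟩
      have h1 : 0 < 1 - ‖z‖ := by linarith
      have h2 : 1 / ((n:ℝ) + 2) < 1 - ‖z‖ := by
        rw [div_lt_iff₀ (by positivity)]
        rw [div_lt_iff₀ h1] at hn
        nlinarith
      linarith
  have h := tendsto_setIntegral_of_monotone (s := fun n : ℕ => ball (0:ℂ) (1 - 1 / ((n:ℝ) + 2)))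
    (fun i => measurableSet_ball) (fun m n hmn => by
      apply ball_subset_ball
      have : 1 / ((n:ℝ) + 2) ≤ 1 / ((m:ℝ) + 2) := by
        apply one_div_le_one_div_of_le (by positivity)
        have : (m:ℝ) ≤ n := by exact_mod_cast hmn
        linarith
      linarith) (by rw [hU]; exact hf)
  rw [hU] at h
  exact h

lemma prod_int {Φ : ℂ → ℂ} (hΦ : IntegrableOn Φ (ball 0 1)) {c d : ℝ} {K : ℂ → ℝ → ℂ} {M : ℝ}
    (hKm : ContinuousOn (Function.uncurry K) (ball 0 1 ×ˢ uIcc c d))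
    (hKb : ∀ z ∈ ball (0:ℂ) 1, ∀ θ ∈ uIcc c d, ‖K z θ‖ ≤ M) :
    Integrable (fun p : ℂ × ℝ => Φ p.1 * K p.1 p.2)
      ((volume.restrict (ball (0:ℂ) 1)).prod (volume.restrict (uIoc c d))) := by
  have : IsFiniteMeasure (volume.restrict (uIoc c d)) :=
    ⟨by rw [Measure.restrict_apply_univ]; exact measure_Ioc_lt_top⟩
  have h1 : Integrable (fun p : ℂ × ℝ => Φ p.1)
      ((volume.restrict (ball (0:ℂ) 1)).prod (volume.restrict (uIoc c d))) := by
    have := hΦ.integrable.mul_prod (ν := volume.restrict (uIoc c d)) (g := fun _ => (1:ℂ)) (integrable_const _)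
    simpa using this
  have hm : MeasurableSet (ball (0:ℂ) 1 ×ˢ uIoc c d) := measurableSet_ball.prod measurableSet_uIoc
  refine h1.mul_bdd (c := M) ?_ ?_
  · rw [Measure.prod_restrict, ← Measure.volume_eq_prod]
    exact (hKm.mono (Set.prod_mono subset_rfl uIoc_subset_uIcc)).aestronglyMeasurable hm
  · rw [Measure.prod_restrict]
    refine (ae_restrict_iff' hm).2 (ae_of_all _ fun p hp => ?_)
    exact hKb p.1 hp.1 p.2 (uIoc_subset_uIcc hp.2)

lemma swap_ball {Φ : ℂ → ℂ} (hΦ : IntegrableOn Φ (ball 0 1)) {c d : ℝ} {K : ℂ → ℝ → ℂ} {M : ℝ}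
    (hKm : ContinuousOn (Function.uncurry K) (ball 0 1 ×ˢ uIcc c d))
    (hKb : ∀ z ∈ ball (0:ℂ) 1, ∀ θ ∈ uIcc c d, ‖K z θ‖ ≤ M) :
    ∫ z in ball (0:ℂ) 1, Φ z * ∫ θ in c..d, K z θ = ∫ θ in c..d, ∫ z in ball (0:ℂ) 1, Φ z * K z θ := by
  have h := integral_integral_swap (f := fun z θ => Φ z * K z θ) (prod_int hΦ hKm hKb)
  simp only [intervalIntegral.intervalIntegral_eq_integral_uIoc]
  rw [← h, ← integral_smul]
  congr 1
  ext z
  rw [integral_const_mul, mul_smul_comm]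

/-- `κ(w) = ∫ Φ(z) z̄ w / (1 - z̄ w)²` -/
noncomputable def kp (Φ : ℂ → ℂ) (w : ℂ) : ℂ :=
  ∫ z in ball (0:ℂ) 1, Φ z * ((starRingEnd ℂ) z * w / (1 - (starRingEnd ℂ) z * w) ^ 2)

lemma one_sub_ge {z w : ℂ} {r : ℝ} (hz : z ∈ ball (0:ℂ) 1) (hw : ‖w‖ ≤ r) :
    1 - r ≤ ‖1 - (starRingEnd ℂ) z * w‖ := by
  rw [mem_ball_zero_iff] at hz
  have h1 : ‖(starRingEnd ℂ) z * w‖ ≤ r := by
    rw [norm_mul, RCLike.norm_conj]
    nlinarith [norm_nonneg z, norm_nonneg w]
  have h2 := norm_sub_norm_le (1:ℂ) ((starRingEnd ℂ) z * w)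
  rw [norm_one] at h2
  linarith

lemma one_sub_ne {z w : ℂ} (hz : z ∈ ball (0:ℂ) 1) (hw : ‖w‖ < 1) : 1 - (starRingEnd ℂ) z * w ≠ 0 := by
  have := one_sub_ge hz le_rfl (w := w)
  intro h
  rw [h, norm_zero] at this
  linarith

/-- bound for `x / (1-x)²` -/
lemma k1_bd {z w : ℂ} {r : ℝ} (hz : z ∈ ball (0:ℂ) 1) (hw : ‖w‖ ≤ r) (hr : r < 1) :
    ‖(starRingEnd ℂ) z * w / (1 - (starRingEnd ℂ) z * w) ^ 2‖ ≤ ‖w‖ * (1 - r)⁻¹ ^ 2 := by
  have h1 := one_sub_ge hz hw
  have hr' : 0 < 1 - r := by linarith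
  rw [mem_ball_zero_iff] at hz
  rw [norm_div, norm_pow, div_eq_mul_inv, ← inv_pow, norm_mul, RCLike.norm_conj]
  have h2 : ‖1 - (starRingEnd ℂ) z * w‖⁻¹ ≤ (1 - r)⁻¹ := inv_anti₀ hr' h1
  have h3 : ‖1 - (starRingEnd ℂ) z * w‖⁻¹ ^ 2 ≤ (1 - r)⁻¹ ^ 2 := by gcongr
  have h4 : ‖z‖ * ‖w‖ ≤ ‖w‖ := by nlinarith [norm_nonneg w, norm_nonneg z]
  exact mul_le_mul h4 h3 (by positivity) (norm_nonneg _)

lemma cont_k1 {r : ℝ} (hr : 0 ≤ r) (hr1 : r < 1) {c d : ℝ} : ContinuousOn (Function.uncurry fun (z : ℂ) (η : ℝ) =>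
    (starRingEnd ℂ) z * circleMap 0 r η / (1 - (starRingEnd ℂ) z * circleMap 0 r η) ^ 2)
    (ball 0 1 ×ˢ uIcc c d) := by
  have c1 : Continuous fun p : ℂ × ℝ => (starRingEnd ℂ) p.1 * circleMap 0 r p.2 :=
    (Complex.continuous_conj.comp continuous_fst).mul ((continuous_circleMap 0 r).comp continuous_snd)
  refine c1.continuousOn.div ((continuous_const.sub c1).pow 2).continuousOn ?_
  rintro ⟨z, η⟩ ⟨hz, -⟩
  exact pow_ne_zero _ (one_sub_ne hz (by simp [abs_of_nonneg hr, hr1]))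

lemma kp_cont {Φ : ℂ → ℂ} (hΦ : IntegrableOn Φ (ball 0 1)) : ContinuousOn (kp Φ) (ball 0 1) := by
  intro w₀ hw₀
  rw [mem_ball_zero_iff] at hw₀
  obtain ⟨r, h1, h2⟩ := exists_between hw₀
  have hr : 0 < 1 - r := by linarith
  apply ContinuousAt.continuousWithinAt
  unfold kp
  have hnh : ∀ᶠ w in 𝓝 w₀, ‖w‖ < r := by
    have : Tendsto (fun w : ℂ => ‖w‖) (𝓝 w₀) (𝓝 ‖w₀‖) := continuous_norm.continuousAt
    exact this.eventually (gt_mem_nhds h1)
  apply continuousAt_of_dominated (bound := fun z => ‖Φ z‖ * (1 * (1 - r)⁻¹ ^ 2))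
  · filter_upwards [hnh] with w hw
    refine hΦ.aestronglyMeasurable.mul ?_
    refine ContinuousOn.aestronglyMeasurable ?_ measurableSet_ball
    have c1 : Continuous fun z : ℂ => (starRingEnd ℂ) z * w := Complex.continuous_conj.mul continuous_const
    refine c1.continuousOn.div ((continuous_const.sub c1).pow 2).continuousOn ?_
    intro z hz
    exact pow_ne_zero _ (one_sub_ne hz (hw.trans h2))
  · filter_upwards [hnh] with w hw
    refine (ae_restrict_iff' measurableSet_ball).2 (ae_of_all _ fun z hz => ?_)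
    rw [norm_mul]
    refine mul_le_mul_of_nonneg_left ((k1_bd hz hw.le h2).trans ?_) (norm_nonneg _)
    exact mul_le_mul_of_nonneg_right (hw.le.trans h2.le) (by positivity)
  · exact hΦ.norm.mul_const _
  · refine (ae_restrict_iff' measurableSet_ball).2 (ae_of_all _ fun z hz => ?_)
    refine continuousAt_const.mul ?_
    have c1 : Continuous fun w : ℂ => (starRingEnd ℂ) z * w := continuous_const.mul continuous_id
    exact c1.continuousAt.div ((continuous_const.sub c1).pow 2).continuousAt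
      (pow_ne_zero _ (one_sub_ne hz hw₀))

/-- the derivative of `z ↦ H(r z)` -/
lemma Hz_deriv {g : ℂ → ℝ} (hg : ContinuousOn g (sphere 0 1)) {r : ℝ} (hr : 0 < r) {z : ℂ}
    (hz : r * ‖z‖ < 1) : HasDerivAt (fun z => Hz g (r * z))
      (r * Real.circleAverage (fun ζ ↦ (2 * ζ / (ζ - r * z) ^ 2) • (g ζ : ℂ)) 0 1) z := by
  have hw : (r:ℂ) * z ∈ ball (0:ℂ) 1 := by
    rw [mem_ball_zero_iff, norm_mul, Complex.norm_real, Real.norm_eq_abs, abs_of_pos hr]; exact hz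
  have h1 := hasDerivAt_circleAverage_herglotzRieszKernel_smul (circIntC hg) hw
  have h2 : HasDerivAt (fun z : ℂ => (r:ℂ) * z) (r:ℂ) z := by
    simpa using (hasDerivAt_id z).const_mul (r:ℂ)
  have h3 := h1.comp z h2
  rw [mul_comm] at h3
  exact h3

lemma dual_point {g : ℂ → ℝ} (hg : ContinuousOn g (sphere 0 1)) {r : ℝ} (hr : 0 < r) (hr1 : r < 1) {z : ℂ}
    (hz : z ∈ ball (0:ℂ) 1) :
    (starRingEnd ℂ) z * (starRingEnd ℂ) (deriv (fun z => Hz g (r * z)) z) =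
      ∫ η in (0:ℝ)..(2 * Real.pi), (((Real.pi⁻¹ * g (circleMap 0 1 η) : ℝ) : ℂ) *
        ((starRingEnd ℂ) z * circleMap 0 r η / (1 - (starRingEnd ℂ) z * circleMap 0 r η) ^ 2)) := by
  have hz' := hz
  rw [mem_ball_zero_iff] at hz'
  have hrz : r * ‖z‖ < 1 := by nlinarith [norm_nonneg z]
  rw [(Hz_deriv hg hr hrz).deriv, Real.circleAverage_def, map_mul, Complex.real_smul, map_mul,
    Complex.conj_ofReal, Complex.conj_ofReal]
  have hc : (starRingEnd ℂ) (∫ θ in (0:ℝ)..(2 * Real.pi),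
      (2 * circleMap 0 1 θ / (circleMap 0 1 θ - r * z) ^ 2) • (g (circleMap 0 1 θ) : ℂ)) =
      ∫ θ in (0:ℝ)..(2 * Real.pi), (starRingEnd ℂ)
        ((2 * circleMap 0 1 θ / (circleMap 0 1 θ - r * z) ^ 2) • (g (circleMap 0 1 θ) : ℂ)) := by
    simp only [intervalIntegral.integral_of_le (show (0:ℝ) ≤ 2 * Real.pi by positivity)]
    exact integral_conj.symm
  rw [hc, ← mul_assoc, ← mul_assoc, ← intervalIntegral.integral_const_mul]
  apply intervalIntegral.integral_congr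
  intro θ _
  simp only
  set ζ := circleMap 0 1 θ with hζ
  have hζn : ‖ζ‖ = 1 := by simp [hζ]
  have hζ1 : ζ * (starRingEnd ℂ) ζ = 1 := by
    rw [Complex.mul_conj, Complex.normSq_eq_norm_sq, hζn]; simp
  have e1 : circleMap 0 r θ = (r:ℂ) * ζ := circleMap_polar r θ
  have hne : 1 - (starRingEnd ℂ) z * (r * ζ) ≠ 0 := by
    have := one_sub_ne hz (w := circleMap 0 r θ) (by simp [abs_of_pos hr, hr1])
    rw [e1] at this; exact this
  have hζ0 : ζ ≠ 0 := by rw [← norm_pos_iff, hζn]; exact one_pos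
  have e2 : (starRingEnd ℂ) ζ = ζ⁻¹ := eq_inv_of_mul_eq_one_right hζ1
  have h2 : (starRingEnd ℂ) 2 = 2 := map_ofNat _ 2
  rw [e1, smul_eq_mul, map_mul, map_div₀, map_mul, map_pow, map_sub, map_mul, h2, Complex.conj_ofReal,
    Complex.conj_ofReal, e2]
  have hne2 : ζ⁻¹ - r * (starRingEnd ℂ) z ≠ 0 := by
    intro h
    apply hne
    have : ζ * (ζ⁻¹ - r * (starRingEnd ℂ) z) = 0 := by rw [h, mul_zero]
    rw [mul_sub, mul_inv_cancel₀ hζ0] at this
    rw [← this]; ring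
  have hpi : (Real.pi : ℂ) ≠ 0 := by exact_mod_cast Real.pi_ne_zero
  have e3 : (ζ⁻¹ - r * (starRingEnd ℂ) z) = (1 - (starRingEnd ℂ) z * (r * ζ)) / ζ := by
    field_simp
  rw [e3]
  push_cast
  field_simp

lemma dual_eq {Φ : ℂ → ℂ} (hΦ : IntegrableOn Φ (ball 0 1)) {g : ℂ → ℝ}
    (hg : ContinuousOn g (sphere 0 1)) {r : ℝ} (hr : 0 < r) (hr1 : r < 1) :
    ∫ z in ball (0:ℂ) 1, (starRingEnd ℂ) z * Φ z * (starRingEnd ℂ) (deriv (fun z => Hz g (r * z)) z) =
      ∫ η in (0:ℝ)..(2 * Real.pi), ((Real.pi⁻¹ * g (circleMap 0 1 η) : ℝ) : ℂ) * kp Φ (circleMap 0 r η) := by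
  have hcg : Continuous fun η : ℝ => ((Real.pi⁻¹ * g (circleMap 0 1 η) : ℝ) : ℂ) :=
    Complex.continuous_ofReal.comp (continuous_const.mul (contC hg))
  obtain ⟨M, hM⟩ : ∃ M : ℝ, ∀ η ∈ uIcc (0:ℝ) (2 * Real.pi), ‖((Real.pi⁻¹ * g (circleMap 0 1 η) : ℝ) : ℂ)‖ ≤ M :=
    isCompact_uIcc.exists_bound_of_continuousOn hcg.continuousOn
  have hK : ContinuousOn (Function.uncurry fun (z : ℂ) (η : ℝ) => ((Real.pi⁻¹ * g (circleMap 0 1 η) : ℝ) : ℂ) *
      ((starRingEnd ℂ) z * circleMap 0 r η / (1 - (starRingEnd ℂ) z * circleMap 0 r η) ^ 2))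
      (ball 0 1 ×ˢ uIcc 0 (2 * Real.pi)) :=
    ((hcg.comp (continuous_snd (X := ℂ) (Y := ℝ))).continuousOn.mul
      (cont_k1 hr.le hr1 (c := 0) (d := 2 * Real.pi))).congr (fun p _ => rfl)
  have h1 := swap_ball hΦ (c := 0) (d := 2 * Real.pi) (M := M * (1 * (1 - r)⁻¹ ^ 2))
    (K := fun z η => ((Real.pi⁻¹ * g (circleMap 0 1 η) : ℝ) : ℂ) *
      ((starRingEnd ℂ) z * circleMap 0 r η / (1 - (starRingEnd ℂ) z * circleMap 0 r η) ^ 2))
    hK (by
      intro z hz η hη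
      rw [norm_mul]
      have hcn : ‖circleMap 0 r η‖ = r := by simp [abs_of_pos hr]
      have h2 := k1_bd hz (w := circleMap 0 r η) (r := r) hcn.le hr1
      rw [hcn] at h2
      refine mul_le_mul (hM η hη) (h2.trans ?_) (norm_nonneg _) ((norm_nonneg _).trans (hM η hη))
      have : 0 < 1 - r := by linarith
      exact mul_le_mul_of_nonneg_right hr1.le (by positivity))
  calc _ = ∫ z in ball (0:ℂ) 1, Φ z * ∫ η in (0:ℝ)..(2 * Real.pi), ((Real.pi⁻¹ * g (circleMap 0 1 η) : ℝ) : ℂ) *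
      ((starRingEnd ℂ) z * circleMap 0 r η / (1 - (starRingEnd ℂ) z * circleMap 0 r η) ^ 2) := by
        apply setIntegral_congr_fun measurableSet_ball
        intro z hz
        simp only
        rw [← dual_point hg hr hr1 hz]
        ring
    _ = _ := h1
    _ = _ := by
        apply intervalIntegral.integral_congr
        intro η _
        simp only
        unfold kp
        rw [← integral_const_mul]
        congr 1
        ext z
        ring

/-- the duality estimate -/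
theorem dual {b t : ℝ} (hb : 0 < b) (ht : 1 < t) : ∃ C : ℝ, 0 < C ∧
    ∀ (F : ℂ → ℂ) (_ : DifferentiableOn ℂ F (ball 0 1)) (A : ℝ)
      (_ : ∀ R : ℝ, 0 < R → R < 1 → ∫ θ in (0:ℝ)..(2 * Real.pi), ‖F (circleMap 0 R θ)‖ ^ (b * t) ≤ A)
      (_ : IntegrableOn (Ph (b * (t - 1)) F) (ball 0 1))
      (r : ℝ) (_ : 0 < r) (_ : r < 1) (g : ℂ → ℝ) (_ : ContinuousOn g (sphere 0 1))
      (_ : ∀ ζ ∈ sphere (0:ℂ) 1, 0 < g ζ),
      ‖∫ η in (0:ℝ)..(2 * Real.pi), (g (circleMap 0 1 η) : ℂ) * kp (Ph (b * (t - 1)) F) (circleMap 0 r η)‖ ≤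
      C * (1 + A + ∫ η in (0:ℝ)..(2 * Real.pi), g (circleMap 0 1 η) ^ t) := by
  obtain ⟨C, hC, h1⟩ := star2 hb ht
  refine ⟨Real.pi * C, by positivity, ?_⟩
  intro F hF A hA hΦ r hr hr1 g hg hg0
  set Φ := Ph (b * (t - 1)) F with hΦd
  set W : ℂ → ℂ := fun z => Hz g (r * z) with hW
  set T := ∫ η in (0:ℝ)..(2 * Real.pi), g (circleMap 0 1 η) ^ t with hT
  -- analyticity on a larger ball
  have hWd : DifferentiableOn ℂ W (ball 0 (1 / r)) := by
    intro z hz
    rw [mem_ball_zero_iff, lt_div_iff₀ hr] at hz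
    exact (Hz_deriv hg hr (by linarith)).differentiableAt.differentiableWithinAt
  have hsub : closedBall (0:ℂ) 1 ⊆ ball 0 (1 / r) := by
    intro z hz
    rw [mem_closedBall_zero_iff] at hz
    rw [mem_ball_zero_iff, lt_div_iff₀ hr]
    nlinarith
  have hW' : ContinuousOn (deriv W) (closedBall 0 1) := (hWd.deriv isOpen_ball).continuousOn.mono hsub
  obtain ⟨M, hM⟩ := (isCompact_closedBall (0:ℂ) 1).exists_bound_of_continuousOn hW'
  have hint : IntegrableOn (fun z => (starRingEnd ℂ) z * Φ z * (starRingEnd ℂ) (deriv W z)) (ball 0 1) := by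
    have h2 : IntegrableOn (fun z => Φ z * ((starRingEnd ℂ) z * (starRingEnd ℂ) (deriv W z))) (ball 0 1) := by
      refine hΦ.integrable.mul_bdd (c := 1 * M) ?_ ?_
      · refine ContinuousOn.aestronglyMeasurable ?_ measurableSet_ball
        exact Complex.continuous_conj.continuousOn.mul
          (Complex.continuous_conj.comp_continuousOn (hW'.mono ball_subset_closedBall))
      · refine (ae_restrict_iff' measurableSet_ball).2 (ae_of_all _ fun z hz => ?_)
        rw [norm_mul, RCLike.norm_conj, RCLike.norm_conj]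
        have h3 := hM z (ball_subset_closedBall hz)
        rw [mem_ball_zero_iff] at hz
        exact mul_le_mul hz.le h3 (norm_nonneg _) zero_le_one
    refine h2.congr_fun (fun z _ => by ring) measurableSet_ball
  have hlim := ball_lim hint
  have hbd : ∀ n : ℕ, ‖∫ z in ball (0:ℂ) (1 - 1 / ((n:ℝ) + 2)),
      (starRingEnd ℂ) z * Φ z * (starRingEnd ℂ) (deriv W z)‖ ≤ C * (1 + A + T) := by
    intro n
    set R := 1 - 1 / ((n:ℝ) + 2) with hR
    have hn : 0 < 1 / ((n:ℝ) + 2) := by positivity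
    have hn2 : 1 / ((n:ℝ) + 2) ≤ 1 / 2 := by
      apply one_div_le_one_div_of_le (by norm_num)
      linarith [Nat.cast_nonneg (α := ℝ) n]
    have hR0 : 0 < R := by rw [hR]; linarith
    have hR1 : R < 1 := by rw [hR]; linarith
    have hRU : closedBall (0:ℂ) R ⊆ ball 0 1 := closedBall_subset_ball hR1
    have hmem : ∀ z ∈ ball (0:ℂ) 1, (r:ℂ) * z ∈ ball (0:ℂ) 1 := by
      intro z hz
      rw [mem_ball_zero_iff] at hz ⊢
      rw [norm_mul, Complex.norm_real, Real.norm_eq_abs, abs_of_pos hr]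
      nlinarith [norm_nonneg z]
    have h2 := h1 (ball 0 1) isOpen_ball F W hF (hWd.mono (ball_subset_closedBall.trans hsub))
      (fun z hz => Hz_re_pos hg hg0 (hmem z hz)) R hR0 hR1.le hRU
    refine h2.trans (mul_le_mul_of_nonneg_left ?_ hC.le)
    have h3 := hA R hR0 hR1
    have h4 : ∫ θ in (0:ℝ)..(2 * Real.pi), (W (circleMap 0 R θ)).re ^ t ≤ T := by
      have h5 := Hz_mean hg hg0 (ρ := r * R) (by positivity) (by nlinarith) ht
      refine le_trans (le_of_eq ?_) h5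
      apply intervalIntegral.integral_congr
      intro θ _
      simp only [hW]
      congr 3
      rw [circleMap_polar R θ, circleMap_polar (r * R) θ]
      push_cast; ring
    linarith
  have h6 := le_of_tendsto hlim.norm (Eventually.of_forall hbd)
  rw [dual_eq hΦ hg hr hr1] at h6
  have h7 : ∫ η in (0:ℝ)..(2 * Real.pi), ((Real.pi⁻¹ * g (circleMap 0 1 η) : ℝ) : ℂ) * kp Φ (circleMap 0 r η) =
      ((Real.pi⁻¹ : ℝ) : ℂ) * ∫ η in (0:ℝ)..(2 * Real.pi), (g (circleMap 0 1 η) : ℂ) * kp Φ (circleMap 0 r η) := by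
    rw [← intervalIntegral.integral_const_mul]
    apply intervalIntegral.integral_congr
    intro η _
    simp only
    push_cast
    ring
  rw [h7, norm_mul, Complex.norm_real, Real.norm_eq_abs, abs_of_pos (by positivity), inv_mul_eq_div,
    div_le_iff₀ Real.pi_pos] at h6
  linarith

end Pool.Agent.Q76.BK
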