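import Pool.Agent.Q76.BK.Var
import Pool.Agent.Helper563.Dom.Berg

set_option autoImplicit false

/-! The kernel in terms of the extremal function, and the final theorem. -/

open Complex MeasureTheory Metric Set Filter Topology Pool.Agent.H563Dom

namespace Pool.Agent.Q76.BK

lemma pair_one {b : ℕ → ℂ} {k : ℂ → ℂ} (h : IsPS b k) (hk : IntegrableOn k (ball 0 1)) (n : ℕ) :
    ∫ z in ball (0:ℂ) 1, z ^ n * (starRingEnd ℂ) (k z) = (starRingEnd ℂ) (b n) * ((Real.pi / (n + 1) : ℝ) : ℂ) := by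
  have hi : IntegrableOn (fun z : ℂ => z ^ n * (starRingEnd ℂ) (k z)) (ball 0 1) := by
    have h1 : IntegrableOn (fun z => (starRingEnd ℂ) (k z)) (ball 0 1) :=
      Integrable.mono' hk.norm (Complex.continuous_conj.comp_aestronglyMeasurable hk.aestronglyMeasurable)
        (ae_of_all _ fun z => by rw [RCLike.norm_conj])
    refine h1.integrable.bdd_mul (c := 1) (Continuous.aestronglyMeasurable (by fun_prop)) ?_
    refine (ae_restrict_iff' measurableSet_ball).2 (ae_of_all _ fun z hz => ?_)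
    rw [mem_ball_zero_iff] at hz
    rw [norm_pow]
    exact pow_le_one₀ (norm_nonneg z) hz.le
  have h1 := ball_lim hi
  have h2 : ∀ j : ℕ, ∫ z in ball (0:ℂ) (1 - 1 / ((j:ℝ) + 2)), z ^ n * (starRingEnd ℂ) (k z) =
      (starRingEnd ℂ) (b n) * ((Real.pi * (1 - 1 / ((j:ℝ) + 2)) ^ (2 * n + 2) / (n + 1) : ℝ) : ℂ) := by
    intro j
    have hj : 0 < 1 / ((j:ℝ) + 2) := by positivity
    have hj2 : 1 / ((j:ℝ) + 2) ≤ 1 / 2 := by
      apply one_div_le_one_div_of_le (by norm_num)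
      linarith [Nat.cast_nonneg (α := ℝ) j]
    exact h.pair_mono (by linarith) (by linarith) n
  simp only [h2] at h1
  have h3 : Tendsto (fun j : ℕ => 1 - 1 / ((j:ℝ) + 2)) atTop (𝓝 1) := by
    have h4 : Tendsto (fun j : ℕ => 1 / ((j:ℝ) + 2)) atTop (𝓝 0) := by
      have h5 := (tendsto_one_div_add_atTop_nhds_zero_nat (𝕜 := ℝ)).comp (tendsto_add_atTop_nat 1)
      refine h5.congr fun j => ?_
      simp only [Function.comp]
      push_cast
      congr 1
      ring
    simpa using (tendsto_const_nhds (x := (1:ℝ))).sub h4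
  have h6 : Tendsto (fun j : ℕ => (starRingEnd ℂ) (b n) *
      ((Real.pi * (1 - 1 / ((j:ℝ) + 2)) ^ (2 * n + 2) / (n + 1) : ℝ) : ℂ)) atTop
      (𝓝 ((starRingEnd ℂ) (b n) * ((Real.pi * 1 ^ (2 * n + 2) / (n + 1) : ℝ) : ℂ))) := by
    refine Tendsto.const_mul _ ((Complex.continuous_ofReal.tendsto _).comp ?_)
    exact ((h3.pow _).const_mul _).div_const _
  rw [one_pow, mul_one] at h6
  exact tendsto_nhds_unique h1 h6

/-- the kernel in terms of `Φ` -/
theorem repr {k Φ : ℂ → ℂ} (hkd : DifferentiableOn ℂ k (ball 0 1)) (hk : IntegrableOn k (ball 0 1))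
    (hΦ : IntegrableOn Φ (ball 0 1)) {M : ℝ}
    (h : ∀ n : ℕ, ∫ z in ball (0:ℂ) 1, z ^ n * (starRingEnd ℂ) (k z) =
      (M : ℂ) * ∫ z in ball (0:ℂ) 1, z ^ n * (starRingEnd ℂ) (Φ z)) {w : ℂ} (hw : ‖w‖ < 1) :
    k w = ((M / Real.pi : ℝ) : ℂ) * (Lf Φ w + kp Φ w) := by
  obtain ⟨b, hb⟩ := exists_isPS hkd
  have hpi : (Real.pi : ℂ) ≠ 0 := by exact_mod_cast Real.pi_ne_zero
  have h1 := hb w (by rw [mem_ball_zero_iff]; exact hw)
  -- the coefficients
  have hbn : ∀ n : ℕ, b n * w ^ n = ((M / Real.pi : ℝ) : ℂ) *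
      ∫ z in ball (0:ℂ) 1, Φ z * (((n:ℂ) + 1) * ((starRingEnd ℂ) z * w) ^ n) := by
    intro n
    have h2 := pair_one hb hk n
    rw [h n] at h2
    have h3 : ∫ z in ball (0:ℂ) 1, (starRingEnd ℂ) z ^ n * Φ z =
        (starRingEnd ℂ) (∫ z in ball (0:ℂ) 1, z ^ n * (starRingEnd ℂ) (Φ z)) := by
      rw [← integral_conj]
      congr 1
      ext z
      rw [map_mul, map_pow, Complex.conj_conj]
    have h4 := congrArg (starRingEnd ℂ) h2
    rw [map_mul, map_mul, Complex.conj_conj, Complex.conj_ofReal, Complex.conj_ofReal, ← h3] at h4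
    have hn : ((n:ℂ) + 1) ≠ 0 := by exact_mod_cast Nat.succ_ne_zero n
    have h5 : ∫ z in ball (0:ℂ) 1, Φ z * (((n:ℂ) + 1) * ((starRingEnd ℂ) z * w) ^ n) =
        (((n:ℂ) + 1) * w ^ n) * ∫ z in ball (0:ℂ) 1, (starRingEnd ℂ) z ^ n * Φ z := by
      rw [← integral_const_mul]
      congr 1
      ext z
      rw [mul_pow]; ring
    rw [h5]
    have h6 : b n = ((M / Real.pi : ℝ) : ℂ) * (((n:ℂ) + 1) * ∫ z in ball (0:ℂ) 1, (starRingEnd ℂ) z ^ n * Φ z) := by
      push_cast at h4 ⊢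
      field_simp
      field_simp at h4
      linear_combination -h4
    rw [h6]; ring
  -- the sum
  have hw0 := norm_nonneg w
  have s1 : Summable (fun n : ℕ => ((n:ℝ) + 1) * ‖w‖ ^ n) := by
    have a1 := (hasSum_coe_mul_geometric_of_norm_lt_one (𝕜 := ℝ) (r := ‖w‖) (by
      rw [Real.norm_eq_abs, abs_of_nonneg hw0]; exact hw)).summable
    have a2 := summable_geometric_of_lt_one hw0 hw
    refine (a1.add a2).congr fun n => ?_
    ring
  have h7 : HasSum (fun n : ℕ => ∫ z in ball (0:ℂ) 1, Φ z * (((n:ℂ) + 1) * ((starRingEnd ℂ) z * w) ^ n))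
      (∫ z in ball (0:ℂ) 1, Φ z * ((1 - (starRingEnd ℂ) z * w)⁻¹ +
        (starRingEnd ℂ) z * w / (1 - (starRingEnd ℂ) z * w) ^ 2)) := by
    apply hasSum_integral_of_dominated_convergence (fun (n : ℕ) z => ‖Φ z‖ * (((n:ℝ) + 1) * ‖w‖ ^ n))
    · intro n
      refine hΦ.aestronglyMeasurable.mul (Continuous.aestronglyMeasurable ?_)
      exact continuous_const.mul ((Complex.continuous_conj.mul continuous_const).pow n)
    · intro n
      refine (ae_restrict_iff' measurableSet_ball).2 (ae_of_all _ fun z hz => ?_)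
      rw [mem_ball_zero_iff] at hz
      rw [norm_mul]
      refine mul_le_mul_of_nonneg_left ?_ (norm_nonneg _)
      rw [norm_mul, norm_pow, norm_mul, RCLike.norm_conj]
      have e : ‖((n:ℂ) + 1)‖ = (n:ℝ) + 1 := by
        have : ((n:ℂ) + 1) = (((n:ℝ) + 1 : ℝ) : ℂ) := by push_cast; rfl
        rw [this, Complex.norm_real, Real.norm_eq_abs, abs_of_nonneg (by positivity)]
      rw [e]
      refine mul_le_mul_of_nonneg_left ?_ (by positivity)
      apply pow_le_pow_left₀ (by positivity)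
      nlinarith [norm_nonneg z]
    · exact ae_of_all _ fun z => s1.mul_left _
    · simp only [tsum_mul_left]
      exact hΦ.norm.mul_const _
    · refine (ae_restrict_iff' measurableSet_ball).2 (ae_of_all _ fun z hz => ?_)
      rw [mem_ball_zero_iff] at hz
      refine HasSum.mul_left _ ?_
      have hx : ‖(starRingEnd ℂ) z * w‖ < 1 := by
        rw [norm_mul, RCLike.norm_conj]
        nlinarith [norm_nonneg z]
      have a1 := hasSum_coe_mul_geometric_of_norm_lt_one hx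
      have a2 := hasSum_geometric_of_norm_lt_one hx
      have e : (fun n : ℕ => ((n:ℂ) + 1) * ((starRingEnd ℂ) z * w) ^ n) =
          fun n : ℕ => ((starRingEnd ℂ) z * w) ^ n + (n:ℂ) * ((starRingEnd ℂ) z * w) ^ n := by
        ext n; ring
      rw [e]
      exact a2.add a1
  have h8 := h7.mul_left (((M / Real.pi : ℝ) : ℂ))
  simp only [hbn] at h1
  rw [h1.unique h8]
  congr 1
  unfold Lf kp
  rw [← integral_add (int_L hΦ hw) (int_k hΦ hw)]
  congr 1
  ext z
  ring

/-- the mean of order `s` on the circle of radius `r` -/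
noncomputable def circleNorm (s : ℝ) (f : ℂ → ℂ) (r : ℝ) : ℝ :=
  ((2 * Real.pi)⁻¹ * ∫ θ in (0:ℝ)..(2 * Real.pi), ‖f (circleMap 0 r θ)‖ ^ s) ^ (1 / s)

/-- `f` is in the Hardy space `H^s` -/
def InHardy (s : ℝ) (f : ℂ → ℂ) : Prop :=
  DifferentiableOn ℂ f (ball 0 1) ∧ ∃ B : ℝ, ∀ r : ℝ, 0 < r → r < 1 → circleNorm s f r ≤ B

lemma circleNorm_le {s : ℝ} (hs : 0 < s) {f : ℂ → ℂ} {r B : ℝ} (h : circleNorm s f r ≤ B) :
    ∫ θ in (0:ℝ)..(2 * Real.pi), ‖f (circleMap 0 r θ)‖ ^ s ≤ 2 * Real.pi * |B| ^ s := by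
  set T := ∫ θ in (0:ℝ)..(2 * Real.pi), ‖f (circleMap 0 r θ)‖ ^ s with hT
  have hT0 : 0 ≤ T := intervalIntegral.integral_nonneg (by positivity) (fun θ _ => by positivity)
  unfold circleNorm at h
  rw [← hT] at h
  have hpi : 0 < 2 * Real.pi := by positivity
  have h0 : 0 ≤ (2 * Real.pi)⁻¹ * T := by positivity
  have h1 : ((2 * Real.pi)⁻¹ * T) ^ (1 / s) ≤ |B| := h.trans (le_abs_self B)
  have h2 := Real.rpow_le_rpow (by positivity) h1 hs.le
  rw [← Real.rpow_mul h0, one_div_mul_cancel hs.ne', Real.rpow_one, inv_mul_le_iff₀ hpi] at h2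
  exact h2

/-- **The kernel inherits the Hardy regularity of the extremal function.** -/
theorem main {p s : ℝ} (hp : 1 < p) (hs : 1 < s) {k F : ℂ → ℂ} (hk : InBergman (p / (p - 1)) k)
    (hF : IsExtremal p k F) (hH : InHardy ((p - 1) * s) F) : InHardy s k := by
  have hp1 : 0 < p - 1 := by linarith
  have hs1 : 0 < s - 1 := by linarith
  have hs0 : 0 < s := by linarith
  refine ⟨hk.1, ?_⟩
  obtain ⟨hFd, A₀, hA₀⟩ := hH
  set t := s / (s - 1) with ht
  have ht1 : 1 < t := by rw [ht, one_lt_div hs1]; linarith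
  have htt : t / (t - 1) = s := by rw [ht]; field_simp; ring
  set b := (p - 1) * (s - 1) with hb
  have hb0 : 0 < b := mul_pos hp1 hs1
  have e1 : b * (t - 1) = p - 1 := by rw [hb, ht]; field_simp; ring
  have e2 : b * t = (p - 1) * s := by rw [hb, ht]; field_simp
  have hA : ∀ R : ℝ, 0 < R → R < 1 → ∫ θ in (0:ℝ)..(2 * Real.pi), ‖F (circleMap 0 R θ)‖ ^ (b * t) ≤
      2 * Real.pi * |A₀| ^ ((p - 1) * s) := by
    intro R hR hR1
    rw [e2]
    exact circleNorm_le (by positivity) (hA₀ R hR hR1)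
  have hΦ := ph_int hp hF.1
  obtain ⟨B, hB⟩ := kp_mean hb0 ht1 hFd hA (by rw [e1]; exact hΦ)
  rw [e1, htt] at hB
  obtain ⟨B', hB'⟩ := kern_mean hΦ hs hB
  set M := (functional k F).re with hM
  have hq : 1 ≤ p / (p - 1) := by rw [one_le_div hp1]; linarith
  have hrep : ∀ w : ℂ, ‖w‖ < 1 → k w = ((M / Real.pi : ℝ) : ℂ) *
      (Lf (Ph (p - 1) F) w + kp (Ph (p - 1) F) w) := by
    intro w hw
    refine repr hk.1 (hk.int hq) hΦ (fun n => ?_) hw
    refine variation hp hk hF (m := fun z => z ^ n) (C := 1) (by fun_prop) (fun z hz => ?_)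
    rw [mem_ball_zero_iff] at hz
    rw [norm_pow]
    exact pow_le_one₀ (norm_nonneg z) hz.le
  refine ⟨((2 * Real.pi)⁻¹ * (|M / Real.pi| ^ s * B')) ^ (1 / s), ?_⟩
  intro r hr hr1
  unfold circleNorm
  have h1 := hB' r hr hr1 (fun η => Lf (Ph (p - 1) F) (circleMap 0 r η) + kp (Ph (p - 1) F) (circleMap 0 r η))
    (fun η => rfl)
  have h2 : ∫ θ in (0:ℝ)..(2 * Real.pi), ‖k (circleMap 0 r θ)‖ ^ s =
      |M / Real.pi| ^ s * ∫ η in (0:ℝ)..(2 * Real.pi),
        ‖Lf (Ph (p - 1) F) (circleMap 0 r η) + kp (Ph (p - 1) F) (circleMap 0 r η)‖ ^ s := by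
    rw [← intervalIntegral.integral_const_mul]
    apply intervalIntegral.integral_congr
    intro η _
    simp only
    rw [hrep _ (by simp [abs_of_pos hr, hr1]), norm_mul, Complex.norm_real, Real.norm_eq_abs,
      Real.mul_rpow (abs_nonneg _) (norm_nonneg _)]
  rw [h2]
  have hI : 0 ≤ ∫ η in (0:ℝ)..(2 * Real.pi),
        ‖Lf (Ph (p - 1) F) (circleMap 0 r η) + kp (Ph (p - 1) F) (circleMap 0 r η)‖ ^ s :=
    intervalIntegral.integral_nonneg (by positivity) (fun θ _ => by positivity)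
  refine Real.rpow_le_rpow (by positivity) ?_ (by positivity)
  refine mul_le_mul_of_nonneg_left ?_ (by positivity)
  exact mul_le_mul_of_nonneg_left h1 (by positivity)

end Pool.Agent.Q76.BK
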