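import Pool.Agent.Q76.BK.Polar

set_option autoImplicit false

open Complex MeasureTheory Metric Set

namespace Pool.Agent.Q76.BK

lemma inner_int {E : Type*} [NormedAddCommGroup E] [NormedSpace ℝ E]
    {G : ℝ → ℝ → E} {a b c d : ℝ} (hG : ContinuousOn (Function.uncurry G) (uIcc a b ×ˢ uIcc c d)) :
    IntervalIntegrable (fun x => ∫ y in c..d, G x y) volume a b := by
  have h1 : IntegrableOn (Function.uncurry G) (uIoc a b ×ˢ uIoc c d) (volume.prod volume) := by
    rw [← Measure.volume_eq_prod]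
    exact (hG.integrableOn_compact (isCompact_uIcc.prod isCompact_uIcc)).mono_set
      (Set.prod_mono uIoc_subset_uIcc uIoc_subset_uIcc)
  rw [IntegrableOn, ← Measure.prod_restrict] at h1
  have h2 := h1.integral_prod_left
  rw [intervalIntegrable_iff]
  simp only [intervalIntegral.intervalIntegral_eq_integral_uIoc]
  exact h2.smul _

lemma cont_int {E : Type*} [NormedAddCommGroup E] {h : ℂ → E} {R : ℝ}
    (hh : ContinuousOn h (closedBall 0 R)) : IntegrableOn h (ball 0 R) :=
  (hh.integrableOn_compact (isCompact_closedBall 0 R)).mono_set ball_subset_closedBall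

lemma stokes' {R : ℝ} (hR : 0 < R) {Λ : ℂ → ℂ} {A : ℂ → ℂ →L[ℝ] ℂ}
    (hd : ∀ z ∈ closedBall (0:ℂ) R, HasFDerivAt Λ (A z) z) (hA : ContinuousOn A (closedBall 0 R))
    (h0 : ∀ z ∈ sphere (0:ℂ) R, Λ z = 0) :
    ∫ z in ball (0:ℂ) R, (A z 1 - I * A z I) = 0 := by
  have hA1 : ContinuousOn (fun z => A z 1) (closedBall 0 R) :=
    ((ContinuousLinearMap.apply ℝ ℂ (1:ℂ)).continuous.comp_continuousOn hA)
  have hAI : ContinuousOn (fun z => A z I) (closedBall 0 R) :=
    ((ContinuousLinearMap.apply ℝ ℂ I).continuous.comp_continuousOn hA)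
  rw [polar_ball (fun z => A z 1 - I * A z I) hR (hA1.sub (continuousOn_const.mul hAI))]
  have h := stokes hR hd hA
  simp only [Complex.real_smul]
  rw [h]
  have : ∀ θ : ℝ, (R : ℂ) * (cexp (-(θ * I)) * Λ (circleMap 0 R θ)) = 0 := by
    intro θ
    rw [h0 _ (circleMap_mem_sphere 0 hR.le θ)]; simp
  simp [this]

lemma hasFDerivAt_normSq (z : ℂ) : HasFDerivAt (fun z => normSq z) ((2:ℝ) • gr z) z := by
  have h := (jet_normSq isOpen_univ (F := fun z => z) differentiable_id.differentiableOn 0).hf z (mem_univ _)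
  have e : (fun z => normSq z + 0) = fun z => normSq z := by ext z; simp
  rw [e] at h
  convert h using 1
  rw [← gr_smul]
  simp

lemma weight_smul {R : ℝ} {g : ℂ → ℂ} {g' : ℂ →L[ℝ] ℂ} {z : ℂ} (h : HasFDerivAt g g' z) :
    HasFDerivAt (fun z => (R ^ 2 - normSq z) • g z)
      ((R ^ 2 - normSq z) • g' + (-((2:ℝ) • gr z)).smulRight (g z)) z := by
  have h1 : HasFDerivAt (fun z : ℂ => R ^ 2 - normSq z) (-((2:ℝ) • gr z)) z :=
    (hasFDerivAt_normSq z).const_sub _
  exact h1.fun_smul h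

lemma cont_gr : Continuous (fun z : ℂ => gr z) := by
  unfold gr; exact (innerSL ℝ).continuous

lemma cont_smulRight {S : Set ℂ} {c : ℂ → ℂ →L[ℝ] ℝ} {f : ℂ → ℂ} (hc : ContinuousOn c S)
    (hf : ContinuousOn f S) : ContinuousOn (fun z => (c z).smulRight (f z)) S :=
  ((ContinuousLinearMap.smulRightL ℝ ℂ ℂ).continuous.comp_continuousOn hc).clm_apply hf

lemma cont_weight {R : ℝ} {S : Set ℂ} {g : ℂ → ℂ} {g' : ℂ → ℂ →L[ℝ] ℂ} (h : ContinuousOn g S)
    (h' : ContinuousOn g' S) : ContinuousOn (fun z => (R ^ 2 - normSq z) • g' z +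
      (-((2:ℝ) • gr z)).smulRight (g z)) S := by
  have cn : ContinuousOn (fun z : ℂ => normSq z) S := Complex.continuous_normSq.continuousOn
  exact ((continuousOn_const.sub cn).smul h').add
    (cont_smulRight ((cont_gr.const_smul (2:ℝ)).neg.continuousOn) h)

lemma Jet.contF {U : Set ℂ} {f : ℂ → ℝ} {g : ℂ → ℂ} {l : ℂ → ℝ} (h : Jet U f g l) {S : Set ℂ} (hS : S ⊆ U) :
    ContinuousOn f S := fun z hz => (h.cf z (hS hz)).continuousAt.continuousWithinAt

lemma Jet.contG {U : Set ℂ} {f : ℂ → ℝ} {g : ℂ → ℂ} {l : ℂ → ℝ} (h : Jet U f g l) {S : Set ℂ} (hS : S ⊆ U) :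
    ContinuousOn g S := fun z hz => (h.cg z (hS hz)).continuousAt.continuousWithinAt

lemma cont_fderiv {U : Set ℂ} (hU : IsOpen U) {E : Type*} [NormedAddCommGroup E] [NormedSpace ℝ E]
    {g : ℂ → E} (h : ∀ z ∈ U, ContDiffAt ℝ 1 g z) : ContinuousOn (fun z => fderiv ℝ g z) U := by
  have h1 : ContDiffOn ℝ 1 g U := fun z hz => (h z hz).contDiffWithinAt
  exact h1.continuousOn_fderiv_of_isOpen hU (by norm_num)

lemma Jet.contL {U : Set ℂ} (hU : IsOpen U) {f : ℂ → ℝ} {g : ℂ → ℂ} {l : ℂ → ℝ} (h : Jet U f g l) :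
    ContinuousOn l U := by
  have h1 := cont_fderiv hU h.cg
  have h2 : ContinuousOn (fun z => (fderiv ℝ g z 1).re + (fderiv ℝ g z I).im) U := by
    refine (continuous_re.comp_continuousOn ?_).add (continuous_im.comp_continuousOn ?_)
    · exact ((ContinuousLinearMap.apply ℝ ℂ (1:ℂ)).continuous.comp_continuousOn h1)
    · exact ((ContinuousLinearMap.apply ℝ ℂ I).continuous.comp_continuousOn h1)
  exact h2.congr h.hl

/-- Green's formula with weight `R^2 - |z|^2`, as an inequality for nonnegative functions -/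
theorem green {U : Set ℂ} (hU : IsOpen U) {Θ : ℂ → ℝ} {g : ℂ → ℂ} {l : ℂ → ℝ} (J : Jet U Θ g l)
    {R : ℝ} (hR : 0 < R) (hRU : closedBall (0:ℂ) R ⊆ U) (h0 : ∀ z ∈ closedBall (0:ℂ) R, 0 ≤ Θ z) :
    ∫ z in ball (0:ℂ) R, (R ^ 2 - normSq z) * l z ≤
      2 * (R ^ 2 * ∫ θ in (0:ℝ)..(2 * Real.pi), Θ (circleMap 0 R θ)) := by
  have cg := J.contG hRU
  have cf := J.contF hRU
  have cl := (J.contL hU).mono hRU
  have cfd := (cont_fderiv hU J.cg).mono hRU
  have cn : ContinuousOn (fun z : ℂ => normSq z) (closedBall 0 R) := Complex.continuous_normSq.continuousOn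
  -- the vector field
  set A : ℂ → ℂ →L[ℝ] ℂ := fun z => (R ^ 2 - normSq z) • fderiv ℝ g z + (-((2:ℝ) • gr z)).smulRight (g z)
    with hA
  have hAc : ContinuousOn A (closedBall 0 R) := cont_weight cg cfd
  have hd : ∀ z ∈ closedBall (0:ℂ) R, HasFDerivAt (fun z => (R ^ 2 - normSq z) • g z) (A z) z :=
    fun z hz => weight_smul (J.hg (hRU hz))
  have hs := stokes' hR hd hAc (by
    intro z hz
    have : normSq z = R ^ 2 := by
      rw [Complex.normSq_eq_norm_sq, mem_sphere_zero_iff_norm.1 hz]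
    simp only [this]; simp)
  have key : ∀ z ∈ closedBall (0:ℂ) R, (A z 1 - I * A z I).re =
      (R ^ 2 - normSq z) * l z - 2 * (z.re * (g z).re + z.im * (g z).im) := by
    intro z hz
    have q1 : ((R:ℂ) ^ 2).re = R ^ 2 := by rw [← Complex.ofReal_pow, Complex.ofReal_re]
    have q2 : ((R:ℂ) ^ 2).im = 0 := by rw [← Complex.ofReal_pow, Complex.ofReal_im]
    rw [J.hl z (hRU hz)]
    simp [hA, gr_apply, q1, q2]
    ring
  have hA1 : ContinuousOn (fun z => A z 1 - I * A z I) (closedBall 0 R) :=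
    ((ContinuousLinearMap.apply ℝ ℂ (1:ℂ)).continuous.comp_continuousOn hAc).sub
      (continuousOn_const.mul ((ContinuousLinearMap.apply ℝ ℂ I).continuous.comp_continuousOn hAc))
  have hre : ∫ z in ball (0:ℂ) R, (A z 1 - I * A z I).re = 0 := by
    have := Complex.reCLM.integral_comp_comm (cont_int hA1)
    simp only [Complex.reCLM_apply] at this
    rw [this, hs]; simp
  have c1 : ContinuousOn (fun z : ℂ => (R ^ 2 - normSq z) * l z) (closedBall 0 R) :=
    (continuousOn_const.sub cn).mul cl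
  have c2 : ContinuousOn (fun z : ℂ => z.re * (g z).re + z.im * (g z).im) (closedBall 0 R) :=
    (continuous_re.continuousOn.mul (continuous_re.comp_continuousOn cg)).add
      (continuous_im.continuousOn.mul (continuous_im.comp_continuousOn cg))
  have e1 : ∫ z in ball (0:ℂ) R, (R ^ 2 - normSq z) * l z =
      2 * ∫ z in ball (0:ℂ) R, (z.re * (g z).re + z.im * (g z).im) := by
    have h2 : ∫ z in ball (0:ℂ) R, ((R ^ 2 - normSq z) * l z - 2 * (z.re * (g z).re + z.im * (g z).im)) = 0 := by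
      rw [← hre]
      apply setIntegral_congr_fun measurableSet_ball
      intro z hz
      exact (key z (ball_subset_closedBall hz)).symm
    rw [integral_sub (cont_int c1) ((cont_int c2).const_mul 2), integral_const_mul] at h2
    linarith
  rw [e1]
  refine mul_le_mul_of_nonneg_left ?_ (by norm_num)
  rw [polar_ball _ hR c2, swap_cont, ← intervalIntegral.integral_const_mul]
  · have hder : ∀ θ : ℝ, ∀ ρ ∈ uIcc 0 R, HasDerivAt (fun ρ : ℝ => Θ (circleMap 0 ρ θ))
        ((g (circleMap 0 ρ θ)).re * Real.cos θ + (g (circleMap 0 ρ θ)).im * Real.sin θ) ρ := by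
      intro θ ρ hρ
      rw [uIcc_of_le hR.le] at hρ
      have h1 : HasDerivAt (fun ρ : ℝ => circleMap 0 ρ θ) (cexp (θ * I)) ρ := by
        unfold circleMap
        have := ((hasDerivAt_id (ρ : ℂ)).comp_ofReal.mul_const (cexp (θ * I))).const_add (0:ℂ)
        simpa using this
      have h2 := (J.hf _ (hRU (circle_mem hρ.1 hρ.2 θ))).comp_hasDerivAt ρ h1
      refine h2.congr_deriv ?_
      rw [gr_apply, Complex.exp_ofReal_mul_I_re, Complex.exp_ofReal_mul_I_im]
    have cpol := cont_polar cg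
    have cfpol := cont_polar cf
    apply intervalIntegral.integral_mono_on (by positivity)
    · apply ContinuousOn.intervalIntegrable
      have h1 : ContinuousOn (Function.uncurry fun (θ ρ : ℝ) => ρ • ((circleMap 0 ρ θ).re * (g (circleMap 0 ρ θ)).re +
          (circleMap 0 ρ θ).im * (g (circleMap 0 ρ θ)).im)) (univ ×ˢ Icc 0 R) := by
        have h2 := (continuousOn_fst (s := Icc 0 R ×ˢ (univ : Set ℝ))).smul (cont_polar c2)
        exact h2.comp (f := fun p : ℝ × ℝ => (p.2, p.1)) (by fun_prop) (fun p hp => ⟨hp.2, hp.1⟩)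
      have h3 : Continuous fun θ : ℝ => ∫ ρ in (0:ℝ)..R, (projIcc 0 R hR.le ρ : ℝ) •
          ((circleMap 0 (projIcc 0 R hR.le ρ : ℝ) θ).re * (g (circleMap 0 (projIcc 0 R hR.le ρ : ℝ) θ)).re +
          (circleMap 0 (projIcc 0 R hR.le ρ : ℝ) θ).im * (g (circleMap 0 (projIcc 0 R hR.le ρ : ℝ) θ)).im) := by
        apply intervalIntegral.continuous_parametric_intervalIntegral_of_continuous'
        have h4 : Continuous fun p : ℝ × ℝ => ((p.1 : ℝ), ((projIcc 0 R hR.le p.2 : Icc 0 R) : ℝ)) :=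
          continuous_fst.prodMk (continuous_subtype_val.comp (continuous_projIcc.comp continuous_snd))
        exact h1.comp_continuous h4 (fun p => ⟨mem_univ _, (projIcc 0 R hR.le p.2).2⟩)
      refine h3.continuousOn.congr ?_
      intro θ _
      apply intervalIntegral.integral_congr
      intro ρ hρ
      rw [uIcc_of_le hR.le] at hρ
      simp only [projIcc_of_mem hR.le hρ]
    · apply ContinuousOn.intervalIntegrable
      exact (continuousOn_const.mul (cfpol.comp (f := fun θ : ℝ => (R, θ)) (by fun_prop)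
        (fun θ _ => ⟨⟨hR.le, le_rfl⟩, mem_univ _⟩)))
    · intro θ _
      have hder2 : ∀ ρ ∈ uIcc 0 R, HasDerivAt (fun ρ : ℝ => ρ ^ 2 * Θ (circleMap 0 ρ θ))
          (2 * ρ * Θ (circleMap 0 ρ θ) + ρ • ((circleMap 0 ρ θ).re * (g (circleMap 0 ρ θ)).re +
          (circleMap 0 ρ θ).im * (g (circleMap 0 ρ θ)).im)) ρ := by
        intro ρ hρ
        have h1 := ((hasDerivAt_pow 2 ρ).mul (hder θ ρ hρ))
        refine h1.congr_deriv ?_
        have e1 : (circleMap 0 ρ θ).re = ρ * Real.cos θ := by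
          simp [circleMap, Complex.exp_ofReal_mul_I_re]
        have e2 : (circleMap 0 ρ θ).im = ρ * Real.sin θ := by
          simp [circleMap, Complex.exp_ofReal_mul_I_im]
        rw [e1, e2]
        simp only [smul_eq_mul]
        push_cast
        ring
      have cθ : ContinuousOn (fun ρ : ℝ => Θ (circleMap 0 ρ θ)) (uIcc 0 R) :=
        cfpol.comp (f := fun ρ : ℝ => (ρ, θ)) (by fun_prop)
          (fun ρ hρ => ⟨by rwa [uIcc_of_le hR.le] at hρ, mem_univ _⟩)
      have c2θ : ContinuousOn (fun ρ : ℝ => ρ • ((circleMap 0 ρ θ).re * (g (circleMap 0 ρ θ)).re +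
          (circleMap 0 ρ θ).im * (g (circleMap 0 ρ θ)).im)) (uIcc 0 R) :=
        (continuousOn_id).smul ((cont_polar c2).comp (f := fun ρ : ℝ => (ρ, θ)) (by fun_prop)
          (fun ρ hρ => ⟨by rwa [uIcc_of_le hR.le] at hρ, mem_univ _⟩))
      have i1 : IntervalIntegrable (fun ρ : ℝ => 2 * ρ * Θ (circleMap 0 ρ θ)) volume 0 R :=
        ((continuousOn_const.mul continuousOn_id).mul cθ).intervalIntegrable
      have h3 := intervalIntegral.integral_eq_sub_of_hasDerivAt hder2
        (i1.add c2θ.intervalIntegrable)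
      rw [intervalIntegral.integral_add i1 c2θ.intervalIntegrable] at h3
      have h4 : 0 ≤ ∫ ρ in (0:ℝ)..R, 2 * ρ * Θ (circleMap 0 ρ θ) := by
        apply intervalIntegral.integral_nonneg hR.le
        intro ρ hρ
        have := h0 _ (circle_mem hρ.1 hρ.2 θ)
        have := hρ.1
        positivity
      simp only [ne_eq, OfNat.ofNat_ne_zero, not_false_eq_true, zero_pow, zero_mul, sub_zero] at h3
      linarith
  · refine ((continuousOn_fst (s := Icc 0 R ×ˢ (univ : Set ℝ))).smul (cont_polar c2)).mono ?_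
    rw [uIcc_of_le hR.le]
    exact Set.prod_mono subset_rfl (subset_univ _)

/-- the pairing formula -/
theorem pairing {U : Set ℂ} (hU : IsOpen U) {Φ v : ℂ → ℂ} (cΦ : ∀ z ∈ U, ContDiffAt ℝ 1 Φ z)
    (hv : DifferentiableOn ℂ v U) {R : ℝ} (hR : 0 < R) (hRU : closedBall (0:ℂ) R ⊆ U) :
    ∫ z in ball (0:ℂ) R, 2 * (starRingEnd ℂ) z * Φ z * (starRingEnd ℂ) (v z) =
      ∫ z in ball (0:ℂ) R, ((R ^ 2 - normSq z : ℝ) : ℂ) *
        ((fderiv ℝ Φ z 1 - I * fderiv ℝ Φ z I) * (starRingEnd ℂ) (v z)) := by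
  have hv' : DifferentiableOn ℂ (deriv v) U := hv.deriv hU
  have cfd := (cont_fderiv hU cΦ).mono hRU
  have cΦ' : ContinuousOn Φ (closedBall 0 R) := fun z hz => (cΦ z (hRU hz)).continuousAt.continuousWithinAt
  have cv := hv.continuousOn.mono hRU
  have cv' := hv'.continuousOn.mono hRU
  have cn : ContinuousOn (fun z : ℂ => normSq z) (closedBall 0 R) := Complex.continuous_normSq.continuousOn
  have ccv : ContinuousOn (fun z => (starRingEnd ℂ) (v z)) (closedBall 0 R) :=
    Complex.continuous_conj.comp_continuousOn cv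
  -- derivative of conj v
  set B : ℂ → ℂ →L[ℝ] ℂ := fun z => (conjCLE : ℂ →L[ℝ] ℂ).comp
    ((ContinuousLinearMap.toSpanSingleton ℂ (deriv v z)).restrictScalars ℝ) with hB
  have hBd : ∀ z ∈ U, HasFDerivAt (fun z => (starRingEnd ℂ) (v z)) (B z) z := by
    intro z hz
    have h1 : HasDerivAt v (deriv v z) z := ((hv z hz).differentiableAt (hU.mem_nhds hz)).hasDerivAt
    exact (conjCLE.hasFDerivAt (x := v z)).comp z (h1.hasFDerivAt.restrictScalars ℝ)
  have hBc : ContinuousOn B (closedBall 0 R) := by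
    have h1 : Continuous (fun w : ℂ => (conjCLE : ℂ →L[ℝ] ℂ).comp
      ((ContinuousLinearMap.toSpanSingleton ℂ w).restrictScalars ℝ)) := by
      have e : (fun w : ℂ => (conjCLE : ℂ →L[ℝ] ℂ).comp
        ((ContinuousLinearMap.toSpanSingleton ℂ w).restrictScalars ℝ)) =
        fun w : ℂ => ((conjCLE : ℂ →L[ℝ] ℂ).comp ((ContinuousLinearMap.mul ℝ ℂ).flip w)) := by
        ext w e
        simp [mul_comm]
      rw [e]
      exact continuous_const.clm_comp ((ContinuousLinearMap.mul ℝ ℂ).flip.continuous)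
    exact h1.comp_continuousOn cv'
  set A : ℂ → ℂ →L[ℝ] ℂ := fun z => (R ^ 2 - normSq z) •
    (Φ z • B z + (starRingEnd ℂ) (v z) • fderiv ℝ Φ z) +
    (-((2:ℝ) • gr z)).smulRight (Φ z * (starRingEnd ℂ) (v z)) with hA
  have hAc : ContinuousOn A (closedBall 0 R) :=
    cont_weight (cΦ'.mul ccv) ((cΦ'.smul hBc).add (ccv.smul cfd))
  have hd : ∀ z ∈ closedBall (0:ℂ) R, HasFDerivAt
      (fun z => (R ^ 2 - normSq z) • (Φ z * (starRingEnd ℂ) (v z))) (A z) z := by
    intro z hz
    have h2 : HasFDerivAt Φ (fderiv ℝ Φ z) z :=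
      ((cΦ z (hRU hz)).differentiableAt (by norm_num)).hasFDerivAt
    exact weight_smul (h2.fun_mul (hBd z (hRU hz)))
  have hs := stokes' hR hd hAc (by
    intro z hz
    have : normSq z = R ^ 2 := by
      rw [Complex.normSq_eq_norm_sq, mem_sphere_zero_iff_norm.1 hz]
    simp only [this]; simp)
  have key : ∀ z : ℂ, A z 1 - I * A z I =
      ((R ^ 2 - normSq z : ℝ) : ℂ) * ((fderiv ℝ Φ z 1 - I * fderiv ℝ Φ z I) * (starRingEnd ℂ) (v z)) -
      2 * (starRingEnd ℂ) z * Φ z * (starRingEnd ℂ) (v z) := by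
    intro z
    have hz : (starRingEnd ℂ) z = z.re - I * z.im := by
      apply Complex.ext <;> simp
    simp only [hA, hB, add_apply, smul_apply,
      ContinuousLinearMap.smulRight_apply, neg_apply, gr_apply,
      ContinuousLinearMap.comp_apply, ContinuousLinearMap.coe_restrictScalars',
      ContinuousLinearMap.toSpanSingleton_apply, hz]
    simp
    ring_nf
    rw [Complex.I_sq]
    ring
  have c1 : ContinuousOn (fun z : ℂ => ((R ^ 2 - normSq z : ℝ) : ℂ) *
      ((fderiv ℝ Φ z 1 - I * fderiv ℝ Φ z I) * (starRingEnd ℂ) (v z))) (closedBall 0 R) := by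
    refine (continuous_ofReal.comp_continuousOn (continuousOn_const.sub cn)).mul (ContinuousOn.mul ?_ ccv)
    exact ((ContinuousLinearMap.apply ℝ ℂ (1:ℂ)).continuous.comp_continuousOn cfd).sub
      (continuousOn_const.mul ((ContinuousLinearMap.apply ℝ ℂ I).continuous.comp_continuousOn cfd))
  have c2 : ContinuousOn (fun z : ℂ => 2 * (starRingEnd ℂ) z * Φ z * (starRingEnd ℂ) (v z)) (closedBall 0 R) :=
    ((continuousOn_const.mul Complex.continuous_conj.continuousOn).mul cΦ').mul ccv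
  simp only [key] at hs
  rw [integral_sub (cont_int c1) (cont_int c2), sub_eq_zero] at hs
  exact hs.symm

end Pool.Agent.Q76.BK
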