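import Pool.Agent.Q76.BK.Star

set_option autoImplicit false

/-! Herglotz transforms of positive continuous functions. -/

open Complex MeasureTheory Metric Set Filter Topology

namespace Pool.Agent.Q76.BK

/-- the Herglotz transform -/
noncomputable def Hz (g : ℂ → ℝ) (w : ℂ) : ℂ :=
  Real.circleAverage (fun ζ ↦ herglotzRieszKernel 0 w ζ • (g ζ : ℂ)) 0 1

lemma circ1_mem (θ : ℝ) : circleMap 0 1 θ ∈ sphere (0:ℂ) 1 := circleMap_mem_sphere 0 zero_le_one θ

lemma contC {E : Type*} [TopologicalSpace E] {g : ℂ → E} (hg : ContinuousOn g (sphere 0 1)) :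
    Continuous fun θ : ℝ => g (circleMap 0 1 θ) :=
  hg.comp_continuous (continuous_circleMap 0 1) circ1_mem

lemma circInt {g : ℂ → ℝ} (hg : ContinuousOn g (sphere 0 1)) : CircleIntegrable g 0 1 :=
  (contC hg).intervalIntegrable _ _

lemma circIntC {g : ℂ → ℝ} (hg : ContinuousOn g (sphere 0 1)) :
    CircleIntegrable (fun ζ => (g ζ : ℂ)) 0 1 :=
  (Complex.continuous_ofReal.comp (contC hg)).intervalIntegrable _ _

/-- the Poisson kernel on the unit circle -/
noncomputable def Pk (w : ℂ) (θ : ℝ) : ℝ := (1 - ‖w‖ ^ 2) / ‖circleMap 0 1 θ - w‖ ^ 2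

lemma circ_ne {w : ℂ} (hw : w ∈ ball (0:ℂ) 1) (θ : ℝ) : circleMap 0 1 θ - w ≠ 0 := by
  intro h
  have h1 : ‖circleMap 0 1 θ‖ = ‖w‖ := by rw [sub_eq_zero.1 h]
  rw [mem_ball_zero_iff] at hw
  simp at h1
  linarith

lemma Pk_pos {w : ℂ} (hw : w ∈ ball (0:ℂ) 1) (θ : ℝ) : 0 < Pk w θ := by
  have h1 := norm_pos_iff.2 (circ_ne hw θ)
  rw [mem_ball_zero_iff] at hw
  unfold Pk
  have : 0 < 1 - ‖w‖ ^ 2 := by nlinarith [norm_nonneg w]
  positivity

lemma Pk_cont {w : ℂ} (hw : w ∈ ball (0:ℂ) 1) : Continuous (Pk w) := by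
  unfold Pk
  refine continuous_const.div ?_ (fun θ => pow_ne_zero _ (norm_ne_zero_iff.2 (circ_ne hw θ)))
  exact (((continuous_circleMap 0 1).sub continuous_const).norm).pow 2

lemma Pk_eq (w : ℂ) (θ : ℝ) : poissonKernel 0 w (circleMap 0 1 θ) = Pk w θ := by
  rw [poissonKernel_def, Pk]
  simp

/-- the real part -/
lemma Hz_re {g : ℂ → ℝ} (hg : ContinuousOn g (sphere 0 1)) {w : ℂ} (hw : w ∈ ball (0:ℂ) 1) :
    (Hz g w).re = (2 * Real.pi)⁻¹ * ∫ θ in (0:ℝ)..(2 * Real.pi), Pk w θ * g (circleMap 0 1 θ) := by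
  unfold Hz
  rw [re_circleAverage_herglotzRieszKernel_smul (circInt hg) hw, ← poissonKernel_eq_re_herglotzRieszKernel,
    Real.circleAverage_def, smul_eq_mul]
  congr 1
  apply intervalIntegral.integral_congr
  intro θ _
  simp only [Pi.smul_apply', smul_eq_mul, Pk_eq]

lemma Pk_int {w : ℂ} (hw : w ∈ ball (0:ℂ) 1) :
    (2 * Real.pi)⁻¹ * ∫ θ in (0:ℝ)..(2 * Real.pi), Pk w θ = 1 := by
  have h : DiffContOnCl ℂ (fun _ : ℂ => (1:ℂ)) (ball 0 1) := diffContOnCl_const
  have h1 := h.circleAverage_poissonKernel_smul hw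
  rw [Real.circleAverage_def] at h1
  have e : ∀ θ : ℝ, (poissonKernel 0 w • fun _ : ℂ => (1:ℂ)) (circleMap 0 1 θ) = ((Pk w θ : ℝ) : ℂ) := by
    intro θ
    rw [Pi.smul_apply', Pk_eq]; simp
  simp only [e] at h1
  rw [intervalIntegral.integral_ofReal, Complex.real_smul, ← Complex.ofReal_mul] at h1
  exact_mod_cast h1

lemma Hz_re_pos {g : ℂ → ℝ} (hg : ContinuousOn g (sphere 0 1)) (hg0 : ∀ ζ ∈ sphere (0:ℂ) 1, 0 < g ζ)
    {w : ℂ} (hw : w ∈ ball (0:ℂ) 1) : 0 < (Hz g w).re := by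
  rw [Hz_re hg hw]
  have h2 : 0 < ∫ θ in (0:ℝ)..(2 * Real.pi), Pk w θ * g (circleMap 0 1 θ) := by
    apply intervalIntegral.intervalIntegral_pos_of_pos_on
    · exact ((Pk_cont hw).mul (contC hg)).intervalIntegrable _ _
    · intro θ _
      exact mul_pos (Pk_pos hw θ) (hg0 _ (circ1_mem θ))
    · positivity
  positivity

/-- Jensen's inequality -/
lemma Hz_jensen {g : ℂ → ℝ} (hg : ContinuousOn g (sphere 0 1)) (hg0 : ∀ ζ ∈ sphere (0:ℂ) 1, 0 < g ζ)
    {w : ℂ} (hw : w ∈ ball (0:ℂ) 1) {t : ℝ} (ht : 1 < t) :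
    (Hz g w).re ^ t ≤ (2 * Real.pi)⁻¹ * ∫ θ in (0:ℝ)..(2 * Real.pi), Pk w θ * g (circleMap 0 1 θ) ^ t := by
  have hm := Hz_re_pos hg hg0 hw
  have hmr := Hz_re hg hw
  set m := (Hz g w).re with hmd
  have cP := Pk_cont hw
  have cg := contC hg
  have cgt : Continuous fun θ : ℝ => g (circleMap 0 1 θ) ^ t :=
    cg.rpow_const (fun θ => Or.inl (hg0 _ (circ1_mem θ)).ne')
  have h1 : ∫ θ in (0:ℝ)..(2 * Real.pi), Pk w θ * (m ^ t + t * m ^ (t - 1) * (g (circleMap 0 1 θ) - m)) ≤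
      ∫ θ in (0:ℝ)..(2 * Real.pi), Pk w θ * g (circleMap 0 1 θ) ^ t := by
    apply intervalIntegral.integral_mono_on (by positivity)
    · exact (cP.mul (continuous_const.add (continuous_const.mul (cg.sub continuous_const)))).intervalIntegrable _ _
    · exact (cP.mul cgt).intervalIntegrable _ _
    · intro θ _
      refine mul_le_mul_of_nonneg_left ?_ (Pk_pos hw θ).le
      -- tangent line
      have hx := hg0 _ (circ1_mem θ)
      set x := g (circleMap 0 1 θ)
      have h2 := one_add_mul_self_le_rpow_one_add (s := x / m - 1) (by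
        have : 0 < x / m := by positivity
        linarith) ht.le
      have e1 : 1 + (x / m - 1) = x / m := by ring
      rw [e1, Real.div_rpow hx.le hm.le] at h2
      have hmt : 0 < m ^ t := by positivity
      rw [le_div_iff₀ hmt] at h2
      have e2 : m ^ (t - 1) = m ^ t / m := by rw [Real.rpow_sub_one hm.ne']
      rw [e2]
      calc m ^ t + t * (m ^ t / m) * (x - m) = (1 + t * (x / m - 1)) * m ^ t := by
            field_simp
        _ ≤ x ^ t := h2
  have h3 : ∫ θ in (0:ℝ)..(2 * Real.pi), Pk w θ * (m ^ t + t * m ^ (t - 1) * (g (circleMap 0 1 θ) - m)) =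
      (m ^ t - t * m ^ (t - 1) * m) * (∫ θ in (0:ℝ)..(2 * Real.pi), Pk w θ) +
      t * m ^ (t - 1) * ∫ θ in (0:ℝ)..(2 * Real.pi), Pk w θ * g (circleMap 0 1 θ) := by
    rw [← intervalIntegral.integral_const_mul, ← intervalIntegral.integral_const_mul,
      ← intervalIntegral.integral_add]
    · apply intervalIntegral.integral_congr
      intro θ _
      simp only
      ring
    · exact (continuous_const.mul cP).intervalIntegrable _ _
    · exact (continuous_const.mul (cP.mul cg)).intervalIntegrable _ _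
  have hP := Pk_int hw
  have hpi : (0:ℝ) < 2 * Real.pi := by positivity
  have hP' : ∫ θ in (0:ℝ)..(2 * Real.pi), Pk w θ = 2 * Real.pi := by
    field_simp at hP; linarith
  have hM' : ∫ θ in (0:ℝ)..(2 * Real.pi), Pk w θ * g (circleMap 0 1 θ) = 2 * Real.pi * m := by
    rw [hmr]; field_simp
  rw [h3, hP', hM'] at h1
  rw [inv_mul_eq_div, le_div_iff₀ hpi]
  linarith

lemma circleMap_polar (ρ θ : ℝ) : circleMap 0 ρ θ = (ρ : ℂ) * circleMap 0 1 θ := by
  simp [circleMap]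

/-- symmetry of the Poisson kernel -/
lemma Pk_symm (ρ θ η : ℝ) : Pk (circleMap 0 ρ θ) η = Pk (circleMap 0 ρ η) θ := by
  unfold Pk
  have h1 : ‖circleMap 0 1 η - circleMap 0 ρ θ‖ = ‖circleMap 0 1 θ - circleMap 0 ρ η‖ := by
    rw [circleMap_polar ρ θ, circleMap_polar ρ η]
    set u := circleMap 0 1 η with hu
    set v := circleMap 0 1 θ with hv
    have hu1 : ‖u‖ = 1 := by simp [hu]
    have hv1 : ‖v‖ = 1 := by simp [hv]
    have e : ‖u - ρ * v‖ ^ 2 = ‖v - ρ * u‖ ^ 2 := by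
      rw [← Complex.normSq_eq_norm_sq, ← Complex.normSq_eq_norm_sq]
      have a1 : u.re * u.re + u.im * u.im = 1 := by
        rw [← Complex.normSq_apply, Complex.normSq_eq_norm_sq, hu1]; norm_num
      have a2 : v.re * v.re + v.im * v.im = 1 := by
        rw [← Complex.normSq_apply, Complex.normSq_eq_norm_sq, hv1]; norm_num
      simp only [Complex.normSq_apply, Complex.sub_re, Complex.sub_im, Complex.mul_re, Complex.mul_im,
        Complex.ofReal_re, Complex.ofReal_im, zero_mul, sub_zero, add_zero]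
      linear_combination (1 - ρ ^ 2) * a1 - (1 - ρ ^ 2) * a2
    exact (sq_eq_sq₀ (norm_nonneg _) (norm_nonneg _)).1 e
  have h2 : ‖circleMap 0 ρ θ‖ = ‖circleMap 0 ρ η‖ := by simp
  rw [h1, h2]

lemma Pk_cont2 {ρ : ℝ} (h0 : 0 ≤ ρ) (h1 : ρ < 1) :
    Continuous fun p : ℝ × ℝ => Pk (circleMap 0 ρ p.1) p.2 := by
  unfold Pk
  have c1 : Continuous fun p : ℝ × ℝ => circleMap 0 ρ p.1 := (continuous_circleMap 0 ρ).comp continuous_fst
  have c2 : Continuous fun p : ℝ × ℝ => circleMap 0 1 p.2 := (continuous_circleMap 0 1).comp continuous_snd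
  refine (continuous_const.sub (c1.norm.pow 2)).div ((c2.sub c1).norm.pow 2) (fun p => ?_)
  refine pow_ne_zero _ (norm_ne_zero_iff.2 (circ_ne ?_ _))
  simp [abs_of_nonneg h0, h1]

/-- the means of `(Re H)^t` on circles -/
lemma Hz_mean {g : ℂ → ℝ} (hg : ContinuousOn g (sphere 0 1)) (hg0 : ∀ ζ ∈ sphere (0:ℂ) 1, 0 < g ζ)
    {ρ : ℝ} (h0 : 0 ≤ ρ) (h1 : ρ < 1) {t : ℝ} (ht : 1 < t) :
    ∫ θ in (0:ℝ)..(2 * Real.pi), (Hz g (circleMap 0 ρ θ)).re ^ t ≤
      ∫ η in (0:ℝ)..(2 * Real.pi), g (circleMap 0 1 η) ^ t := by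
  have hmem : ∀ θ : ℝ, circleMap 0 ρ θ ∈ ball (0:ℂ) 1 := fun θ => by simp [abs_of_nonneg h0, h1]
  have cg := contC hg
  have cgt : Continuous fun θ : ℝ => g (circleMap 0 1 θ) ^ t :=
    cg.rpow_const (fun θ => Or.inl (hg0 _ (circ1_mem θ)).ne')
  have cP2 := Pk_cont2 h0 h1
  have cH : Continuous fun θ : ℝ => (Hz g (circleMap 0 ρ θ)).re ^ t := by
    have hd := differentiableOn_circleAverage_herglotzRieszKernel_smul (circIntC hg)
    have h3 : Continuous fun θ : ℝ => Hz g (circleMap 0 ρ θ) :=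
      hd.continuousOn.comp_continuous (continuous_circleMap 0 ρ) hmem
    exact (Complex.continuous_re.comp h3).rpow_const (fun θ => Or.inl (Hz_re_pos hg hg0 (hmem θ)).ne')
  have cI : Continuous fun θ : ℝ => (2 * Real.pi)⁻¹ *
      ∫ η in (0:ℝ)..(2 * Real.pi), Pk (circleMap 0 ρ θ) η * g (circleMap 0 1 η) ^ t := by
    refine continuous_const.mul ?_
    apply intervalIntegral.continuous_parametric_intervalIntegral_of_continuous'
    exact cP2.mul (cgt.comp continuous_snd)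
  calc ∫ θ in (0:ℝ)..(2 * Real.pi), (Hz g (circleMap 0 ρ θ)).re ^ t ≤
      ∫ θ in (0:ℝ)..(2 * Real.pi), (2 * Real.pi)⁻¹ *
        ∫ η in (0:ℝ)..(2 * Real.pi), Pk (circleMap 0 ρ θ) η * g (circleMap 0 1 η) ^ t := by
        apply intervalIntegral.integral_mono_on (by positivity) (cH.intervalIntegrable _ _)
          (cI.intervalIntegrable _ _)
        intro θ _
        exact Hz_jensen hg hg0 (hmem θ) ht
    _ = (2 * Real.pi)⁻¹ * ∫ η in (0:ℝ)..(2 * Real.pi), ∫ θ in (0:ℝ)..(2 * Real.pi),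
        Pk (circleMap 0 ρ θ) η * g (circleMap 0 1 η) ^ t := by
        rw [intervalIntegral.integral_const_mul, swap_cont]
        exact (cP2.mul (cgt.comp continuous_snd)).continuousOn
    _ = ∫ η in (0:ℝ)..(2 * Real.pi), g (circleMap 0 1 η) ^ t := by
        rw [← intervalIntegral.integral_const_mul]
        apply intervalIntegral.integral_congr
        intro η _
        simp only
        rw [intervalIntegral.integral_mul_const, ← mul_assoc]
        have : ∀ θ : ℝ, Pk (circleMap 0 ρ θ) η = Pk (circleMap 0 ρ η) θ := fun θ => Pk_symm ρ θ η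
        simp only [this]
        rw [Pk_int (hmem η), one_mul]

end Pool.Agent.Q76.BK
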