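import Mathlib

set_option autoImplicit false

/-!
Second order jets of real functions of a complex variable: gradient (as a complex number) and
Laplacian, with closure under sums, products and real powers.
-/

open Complex

namespace Pool.Agent.Q76.BK

/-- the real linear functional `e ↦ Re (conj w * e)` -/
noncomputable def gr (w : ℂ) : ℂ →L[ℝ] ℝ := innerSL ℝ w

lemma gr_apply (w e : ℂ) : gr w e = w.re * e.re + w.im * e.im := by
  simp only [gr, innerSL_apply_apply, Complex.inner, Complex.mul_re, Complex.conj_re, Complex.conj_im]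
  ring

/-- `f` is a real function, `C^2` on `U` with gradient `g` and Laplacian `l` -/
structure Jet (U : Set ℂ) (f : ℂ → ℝ) (g : ℂ → ℂ) (l : ℂ → ℝ) : Prop where
  hf : ∀ z ∈ U, HasFDerivAt f (gr (g z)) z
  cf : ∀ z ∈ U, ContDiffAt ℝ 1 f z
  cg : ∀ z ∈ U, ContDiffAt ℝ 1 g z
  hl : ∀ z ∈ U, l z = (fderiv ℝ g z 1).re + (fderiv ℝ g z I).im

variable {U : Set ℂ} {f f₁ f₂ : ℂ → ℝ} {g g₁ g₂ : ℂ → ℂ} {l l₁ l₂ : ℂ → ℝ}

lemma Jet.hg (h : Jet U f g l) {z : ℂ} (hz : z ∈ U) : HasFDerivAt g (fderiv ℝ g z) z :=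
  ((h.cg z hz).differentiableAt (by norm_num)).hasFDerivAt

lemma Jet.mk' (hf : ∀ z ∈ U, HasFDerivAt f (gr (g z)) z) (cf : ∀ z ∈ U, ContDiffAt ℝ 1 f z)
    (cg : ∀ z ∈ U, ContDiffAt ℝ 1 g z)
    (hl : ∀ z ∈ U, ∃ A : ℂ →L[ℝ] ℂ, HasFDerivAt g A z ∧ l z = (A 1).re + (A I).im) :
    Jet U f g l := by
  refine ⟨hf, cf, cg, fun z hz => ?_⟩
  obtain ⟨A, hA, h⟩ := hl z hz
  rw [hA.fderiv, h]

lemma gr_add (w₁ w₂ : ℂ) : gr (w₁ + w₂) = gr w₁ + gr w₂ := by
  ext e; simp [gr_apply]; ring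

lemma gr_smul (a : ℝ) (w : ℂ) : gr (a • w) = a • gr w := by
  ext e; simp [gr_apply]; ring

lemma Jet.add (h₁ : Jet U f₁ g₁ l₁) (h₂ : Jet U f₂ g₂ l₂) :
    Jet U (fun z => f₁ z + f₂ z) (fun z => g₁ z + g₂ z) (fun z => l₁ z + l₂ z) := by
  refine Jet.mk' (fun z hz => ?_) (fun z hz => (h₁.cf z hz).add (h₂.cf z hz))
    (fun z hz => (h₁.cg z hz).add (h₂.cg z hz)) (fun z hz => ?_)
  · rw [gr_add]; exact (h₁.hf z hz).add (h₂.hf z hz)
  · refine ⟨_, (h₁.hg hz).add (h₂.hg hz), ?_⟩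
    rw [h₁.hl z hz, h₂.hl z hz]; simp; ring

lemma Jet.const_mul (h : Jet U f g l) (c : ℝ) :
    Jet U (fun z => c * f z) (fun z => c • g z) (fun z => c * l z) := by
  refine Jet.mk' (fun z hz => ?_) (fun z hz => contDiffAt_const.mul (h.cf z hz))
    (fun z hz => (h.cg z hz).const_smul c) (fun z hz => ?_)
  · rw [gr_smul]; exact (h.hf z hz).const_mul c
  · refine ⟨_, (h.hg hz).const_smul c, ?_⟩
    rw [h.hl z hz]; simp; ring

/-- products -/
lemma Jet.mul (h₁ : Jet U f₁ g₁ l₁) (h₂ : Jet U f₂ g₂ l₂) :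
    Jet U (fun z => f₁ z * f₂ z) (fun z => f₁ z • g₂ z + f₂ z • g₁ z)
      (fun z => f₁ z * l₂ z + f₂ z * l₁ z + 2 * gr (g₁ z) (g₂ z)) := by
  refine Jet.mk' (fun z hz => ?_) (fun z hz => (h₁.cf z hz).mul (h₂.cf z hz))
    (fun z hz => ((h₁.cf z hz).smul (h₂.cg z hz)).add ((h₂.cf z hz).smul (h₁.cg z hz)))
    (fun z hz => ?_)
  · rw [gr_add, gr_smul, gr_smul]; exact (h₁.hf z hz).mul (h₂.hf z hz)
  · refine ⟨_, ((h₁.hf z hz).smul (h₂.hg hz)).add ((h₂.hf z hz).smul (h₁.hg hz)), ?_⟩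
    rw [h₁.hl z hz, h₂.hl z hz]
    simp [gr_apply]
    ring

/-- real powers of positive functions -/
lemma Jet.rpow (h : Jet U f g l) (hp : ∀ z ∈ U, 0 < f z) (α : ℝ) :
    Jet U (fun z => f z ^ α) (fun z => (α * f z ^ (α - 1)) • g z)
      (fun z => α * f z ^ (α - 1) * l z + α * (α - 1) * f z ^ (α - 2) * gr (g z) (g z)) := by
  have hd : ∀ (β : ℝ) (z : ℂ), z ∈ U → HasFDerivAt (fun z => f z ^ β) ((β * f z ^ (β - 1)) • gr (g z)) z :=
    fun β z hz => (h.hf z hz).rpow_const (Or.inl (hp z hz).ne')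
  have hc : ∀ (β : ℝ) (z : ℂ), z ∈ U → ContDiffAt ℝ 1 (fun z => f z ^ β) z :=
    fun β z hz => (h.cf z hz).rpow_const_of_ne (hp z hz).ne'
  refine Jet.mk' (fun z hz => ?_) (fun z hz => hc α z hz)
    (fun z hz => (contDiffAt_const.mul (hc (α - 1) z hz)).smul (h.cg z hz))
    (fun z hz => ?_)
  · rw [gr_smul]; exact hd α z hz
  · refine ⟨_, ((hd (α - 1) z hz).const_mul α).smul (h.hg hz), ?_⟩
    rw [h.hl z hz]
    have e : α - 1 - 1 = α - 2 := by ring
    simp [gr_apply, e]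
    ring

/-- the real part of a holomorphic function -/
lemma jet_re {V : ℂ → ℂ} (hU : IsOpen U) (hV : DifferentiableOn ℂ V U) :
    Jet U (fun z => (V z).re) (fun z => (starRingEnd ℂ) (deriv V z)) (fun _ => 0) := by
  have hV' : DifferentiableOn ℂ (deriv V) U := hV.deriv hU
  have hd : ∀ z ∈ U, HasDerivAt V (deriv V z) z := fun z hz =>
    ((hV z hz).differentiableAt (hU.mem_nhds hz)).hasDerivAt
  have hd' : ∀ z ∈ U, HasDerivAt (deriv V) (deriv (deriv V) z) z := fun z hz =>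
    ((hV' z hz).differentiableAt (hU.mem_nhds hz)).hasDerivAt
  have ca : ∀ {W : ℂ → ℂ}, DifferentiableOn ℂ W U → ∀ z ∈ U, ContDiffAt ℝ 1 W z := by
    intro W hW z hz
    exact ((hW.contDiffOn (n := 1) hU).contDiffAt (hU.mem_nhds hz)).restrict_scalars ℝ
  refine Jet.mk' (fun z hz => ?_) (fun z hz => ?_) (fun z hz => ?_) (fun z hz => ?_)
  · have h1 := (reCLM.hasFDerivAt (x := V z)).comp z ((hd z hz).hasFDerivAt.restrictScalars ℝ)
    refine h1.congr_fderiv ?_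
    ext e
    simp [gr_apply]
    ring
  · exact reCLM.contDiff.contDiffAt.comp z (ca hV z hz)
  · exact conjCLE.contDiff.contDiffAt.comp z (ca hV' z hz)
  · refine ⟨_, (conjCLE.hasFDerivAt (x := deriv V z)).comp z ((hd' z hz).hasFDerivAt.restrictScalars ℝ), ?_⟩
    simp

/-- `|F|^2 + ε` -/
lemma jet_normSq {F : ℂ → ℂ} (hU : IsOpen U) (hF : DifferentiableOn ℂ F U) (ε : ℝ) :
    Jet U (fun z => normSq (F z) + ε) (fun z => 2 * F z * (starRingEnd ℂ) (deriv F z))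
      (fun z => 4 * normSq (deriv F z)) := by
  have hF' : DifferentiableOn ℂ (deriv F) U := hF.deriv hU
  have hd : ∀ z ∈ U, HasDerivAt F (deriv F z) z := fun z hz =>
    ((hF z hz).differentiableAt (hU.mem_nhds hz)).hasDerivAt
  have hd' : ∀ z ∈ U, HasDerivAt (deriv F) (deriv (deriv F) z) z := fun z hz =>
    ((hF' z hz).differentiableAt (hU.mem_nhds hz)).hasDerivAt
  have ca : ∀ {W : ℂ → ℂ}, DifferentiableOn ℂ W U → ∀ z ∈ U, ContDiffAt ℝ 1 W z := by
    intro W hW z hz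
    exact ((hW.contDiffOn (n := 1) hU).contDiffAt (hU.mem_nhds hz)).restrict_scalars ℝ
  have e1 : (fun z => normSq (F z) + ε) = fun z => ((F z).re * (F z).re + (F z).im * (F z).im) + ε := by
    ext z; rw [normSq_apply]
  refine Jet.mk' (fun z hz => ?_) (fun z hz => ?_) (fun z hz => ?_) (fun z hz => ?_)
  · rw [e1]
    have h1 := (reCLM.hasFDerivAt (x := F z)).comp z ((hd z hz).hasFDerivAt.restrictScalars ℝ)
    have h2 := (imCLM.hasFDerivAt (x := F z)).comp z ((hd z hz).hasFDerivAt.restrictScalars ℝ)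
    refine (((h1.mul h1).add (h2.mul h2)).add_const ε).congr_fderiv ?_
    ext e
    simp [gr_apply]
    ring
  · rw [e1]
    have h1 : ContDiffAt ℝ 1 (fun z => (F z).re) z := reCLM.contDiff.contDiffAt.comp z (ca hF z hz)
    have h2 : ContDiffAt ℝ 1 (fun z => (F z).im) z := imCLM.contDiff.contDiffAt.comp z (ca hF z hz)
    exact ((h1.mul h1).add (h2.mul h2)).add contDiffAt_const
  · exact (contDiffAt_const.mul (ca hF z hz)).mul (conjCLE.contDiff.contDiffAt.comp z (ca hF' z hz))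
  · have h1 : HasFDerivAt (fun z => 2 * F z) _ z := ((hd z hz).hasFDerivAt.restrictScalars ℝ).const_mul 2
    have h2 := (conjCLE.hasFDerivAt (x := deriv F z)).comp z ((hd' z hz).hasFDerivAt.restrictScalars ℝ)
    refine ⟨_, h1.mul h2, ?_⟩
    simp [normSq_apply]
    ring

end Pool.Agent.Q76.BK
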