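import Pool.Agent.Q76.BK.Mean

set_option autoImplicit false

/-! The function `∫ Φ(z) (1 - z̄ w)⁻² dA(z)` is in the Hardy space. -/

open Complex MeasureTheory Metric Set Filter Topology

namespace Pool.Agent.Q76.BK

lemma tangent {x m p : ℝ} (hx : 0 ≤ x) (hm : 0 ≤ m) (hp : 1 < p) :
    m ^ p + p * m ^ (p - 1) * (x - m) ≤ x ^ p := by
  rcases eq_or_lt_of_le hm with h | h
  · rw [← h, Real.zero_rpow (by linarith), Real.zero_rpow (by linarith)]
    simp only [mul_zero, zero_mul, add_zero]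
    positivity
  · have h2 := one_add_mul_self_le_rpow_one_add (s := x / m - 1) (by
      have : 0 ≤ x / m := by positivity
      linarith) hp.le
    have e1 : 1 + (x / m - 1) = x / m := by ring
    rw [e1, Real.div_rpow hx h.le] at h2
    have hmt : 0 < m ^ p := by positivity
    rw [le_div_iff₀ hmt] at h2
    have e2 : m ^ (p - 1) = m ^ p / m := by rw [Real.rpow_sub_one h.ne']
    rw [e2]
    calc m ^ p + p * (m ^ p / m) * (x - m) = (1 + p * (x / m - 1)) * m ^ p := by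
          field_simp
      _ ≤ x ^ p := h2

/-- Jensen on `[1/2, 1]` -/
lemma jensen_half {f : ℝ → ℝ} (hf : ContinuousOn f (Icc (1/2) 1)) (h0 : ∀ x ∈ Icc (1/2:ℝ) 1, 0 ≤ f x)
    {s : ℝ} (hs : 1 < s) : (∫ x in (1/2:ℝ)..1, f x) ^ s ≤ ∫ x in (1/2:ℝ)..1, f x ^ s := by
  have h12 : (1/2:ℝ) ≤ 1 := by norm_num
  have hf' : ContinuousOn f (uIcc (1/2) 1) := by rwa [uIcc_of_le h12]
  set J := ∫ x in (1/2:ℝ)..1, f x with hJ
  have hJ0 : 0 ≤ J := intervalIntegral.integral_nonneg h12 h0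
  set m := 2 * J with hm
  have i1 : IntervalIntegrable f volume (1/2) 1 := hf'.intervalIntegrable
  have i2 : IntervalIntegrable (fun x => f x ^ s) volume (1/2) 1 :=
    (hf'.rpow_const (fun x _ => Or.inr (by linarith))).intervalIntegrable
  have h1 : ∫ x in (1/2:ℝ)..1, (m ^ s + s * m ^ (s - 1) * (f x - m)) ≤ ∫ x in (1/2:ℝ)..1, f x ^ s := by
    apply intervalIntegral.integral_mono_on h12 _ i2
    · intro x hx
      exact tangent (h0 x hx) (by positivity) hs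
    · exact intervalIntegrable_const.add ((i1.sub intervalIntegrable_const).const_mul _)
  have h2 : ∫ x in (1/2:ℝ)..1, (m ^ s + s * m ^ (s - 1) * (f x - m)) = m ^ s / 2 := by
    rw [intervalIntegral.integral_add intervalIntegrable_const
      ((i1.sub intervalIntegrable_const).const_mul _), intervalIntegral.integral_const_mul,
      intervalIntegral.integral_sub i1 intervalIntegrable_const, intervalIntegral.integral_const,
      intervalIntegral.integral_const, ← hJ, hm]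
    simp only [smul_eq_mul]
    ring
  rw [h2] at h1
  refine le_trans ?_ h1
  rw [hm, Real.mul_rpow (by norm_num) hJ0]
  have h3 : (2:ℝ) ≤ 2 ^ s := by
    calc (2:ℝ) = 2 ^ (1:ℝ) := (Real.rpow_one 2).symm
      _ ≤ 2 ^ s := Real.rpow_le_rpow_of_exponent_le (by norm_num) hs.le
  have h4 : 0 ≤ J ^ s := by positivity
  nlinarith

/-- `L(w) = ∫ Φ(z) / (1 - z̄ w)` -/
noncomputable def Lf (Φ : ℂ → ℂ) (w : ℂ) : ℂ :=
  ∫ z in ball (0:ℂ) 1, Φ z * (1 - (starRingEnd ℂ) z * w)⁻¹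

lemma cont_z (w : ℂ) (hw : ‖w‖ < 1) : ContinuousOn (fun z : ℂ => (1 - (starRingEnd ℂ) z * w)⁻¹) (ball 0 1) := by
  have c1 : Continuous fun z : ℂ => (starRingEnd ℂ) z * w := Complex.continuous_conj.mul continuous_const
  exact (continuous_const.sub c1).continuousOn.inv₀ (fun z hz => one_sub_ne hz hw)

lemma inv_bd {z w : ℂ} {r : ℝ} (hz : z ∈ ball (0:ℂ) 1) (hw : ‖w‖ ≤ r) (hr : r < 1) :
    ‖(1 - (starRingEnd ℂ) z * w)⁻¹‖ ≤ (1 - r)⁻¹ := by
  rw [norm_inv]
  exact inv_anti₀ (by linarith) (one_sub_ge hz hw)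

lemma int_L {Φ : ℂ → ℂ} (hΦ : IntegrableOn Φ (ball 0 1)) {w : ℂ} (hw : ‖w‖ < 1) :
    IntegrableOn (fun z => Φ z * (1 - (starRingEnd ℂ) z * w)⁻¹) (ball 0 1) := by
  refine hΦ.integrable.mul_bdd (c := (1 - ‖w‖)⁻¹) ((cont_z w hw).aestronglyMeasurable measurableSet_ball) ?_
  exact (ae_restrict_iff' measurableSet_ball).2 (ae_of_all _ fun z hz => inv_bd hz le_rfl hw)

lemma int_k {Φ : ℂ → ℂ} (hΦ : IntegrableOn Φ (ball 0 1)) {w : ℂ} (hw : ‖w‖ < 1) :
    IntegrableOn (fun z => Φ z * ((starRingEnd ℂ) z * w / (1 - (starRingEnd ℂ) z * w) ^ 2)) (ball 0 1) := by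
  refine hΦ.integrable.mul_bdd (c := ‖w‖ * (1 - ‖w‖)⁻¹ ^ 2) ?_ ?_
  · refine ContinuousOn.aestronglyMeasurable ?_ measurableSet_ball
    have c1 : Continuous fun z : ℂ => (starRingEnd ℂ) z * w := Complex.continuous_conj.mul continuous_const
    refine c1.continuousOn.div ((continuous_const.sub c1).pow 2).continuousOn ?_
    intro z hz
    exact pow_ne_zero _ (one_sub_ne hz hw)
  · exact (ae_restrict_iff' measurableSet_ball).2 (ae_of_all _ fun z hz => k1_bd hz le_rfl hw)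

lemma L_half {Φ : ℂ → ℂ} (hΦ : IntegrableOn Φ (ball 0 1)) {w : ℂ} (hw : ‖w‖ < 1) :
    ‖Lf Φ (w / 2)‖ ≤ 2 * ∫ z in ball (0:ℂ) 1, ‖Φ z‖ := by
  unfold Lf
  rw [← integral_const_mul]
  refine norm_integral_le_of_norm_le (hΦ.norm.const_mul 2) ?_
  refine (ae_restrict_iff' measurableSet_ball).2 (ae_of_all _ fun z hz => ?_)
  have hw2 : ‖w / 2‖ ≤ 1 / 2 := by
    rw [norm_div]; norm_num; linarith
  have h1 := inv_bd hz hw2 (by norm_num)
  rw [norm_mul]
  norm_num at h1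
  have := norm_nonneg (Φ z)
  rw [norm_inv]
  nlinarith

/-- `L(w) - L(w/2) = ∫_{1/2}^1 κ(ρ w)/ρ dρ` -/
lemma L_diff {Φ : ℂ → ℂ} (hΦ : IntegrableOn Φ (ball 0 1)) {w : ℂ} (hw : ‖w‖ < 1) :
    Lf Φ w - Lf Φ (w / 2) = ∫ ρ in (1/2:ℝ)..1, ((ρ⁻¹ : ℝ) : ℂ) * kp Φ (ρ * w) := by
  have hw2 : ‖w / 2‖ < 1 := by rw [norm_div]; norm_num; linarith
  have hI : Icc (1/2:ℝ) 1 = uIcc (1/2:ℝ) 1 := (uIcc_of_le (by norm_num)).symm
  have hne : ∀ z ∈ ball (0:ℂ) 1, ∀ ρ ∈ uIcc (1/2:ℝ) 1, 1 - (starRingEnd ℂ) z * (ρ * w) ≠ 0 := by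
    intro z hz ρ hρ
    rw [← hI] at hρ
    apply one_sub_ne hz
    rw [norm_mul, Complex.norm_real, Real.norm_eq_abs, abs_of_nonneg (by linarith [hρ.1])]
    nlinarith [hρ.1, hρ.2, norm_nonneg w]
  set K : ℂ → ℝ → ℂ := fun z ρ => (starRingEnd ℂ) z * w / (1 - (starRingEnd ℂ) z * (ρ * w)) ^ 2 with hK
  have hKc : ContinuousOn (Function.uncurry K) (ball 0 1 ×ˢ uIcc (1/2:ℝ) 1) := by
    have c0 : Continuous fun p : ℂ × ℝ => (starRingEnd ℂ) p.1 * w :=
      (Complex.continuous_conj.comp continuous_fst).mul continuous_const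
    have c1 : Continuous fun p : ℂ × ℝ => (starRingEnd ℂ) p.1 * ((p.2 : ℂ) * w) :=
      (Complex.continuous_conj.comp continuous_fst).mul
        ((Complex.continuous_ofReal.comp continuous_snd).mul continuous_const)
    have h1 : ContinuousOn (fun p : ℂ × ℝ => (starRingEnd ℂ) p.1 * w /
        (1 - (starRingEnd ℂ) p.1 * ((p.2 : ℂ) * w)) ^ 2) (ball 0 1 ×ˢ uIcc (1/2:ℝ) 1) := by
      refine c0.continuousOn.div ((continuous_const.sub c1).pow 2).continuousOn ?_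
      rintro ⟨z, ρ⟩ ⟨hz, hρ⟩
      exact pow_ne_zero _ (hne z hz ρ hρ)
    exact h1.congr (fun p _ => rfl)
  have hKb : ∀ z ∈ ball (0:ℂ) 1, ∀ ρ ∈ uIcc (1/2:ℝ) 1, ‖K z ρ‖ ≤ 1 * (1 - ‖w‖)⁻¹ ^ 2 := by
    intro z hz ρ hρ
    rw [← hI] at hρ
    simp only [hK]
    have hρw : ‖(ρ:ℂ) * w‖ ≤ ‖w‖ := by
      rw [norm_mul, Complex.norm_real, Real.norm_eq_abs, abs_of_nonneg (by linarith [hρ.1])]
      nlinarith [hρ.1, hρ.2, norm_nonneg w]
    rw [norm_div, norm_pow, div_eq_mul_inv, ← inv_pow, norm_mul, RCLike.norm_conj]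
    have h1 := one_sub_ge hz hρw
    have h2 : ‖1 - (starRingEnd ℂ) z * (ρ * w)‖⁻¹ ≤ (1 - ‖w‖)⁻¹ := inv_anti₀ (by linarith) h1
    rw [mem_ball_zero_iff] at hz
    have h3 : ‖z‖ * ‖w‖ ≤ 1 := by nlinarith [norm_nonneg w, norm_nonneg z]
    exact mul_le_mul h3 (by gcongr) (by positivity) zero_le_one
  have h1 := swap_ball hΦ hKc hKb
  have h2 : ∀ z ∈ ball (0:ℂ) 1, ∫ ρ in (1/2:ℝ)..1, K z ρ =
      (1 - (starRingEnd ℂ) z * w)⁻¹ - (1 - (starRingEnd ℂ) z * (w / 2))⁻¹ := by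
    intro z hz
    have hder : ∀ ρ ∈ uIcc (1/2:ℝ) 1, HasDerivAt (fun ρ : ℝ => (1 - (starRingEnd ℂ) z * (ρ * w))⁻¹) (K z ρ) ρ := by
      intro ρ hρ
      have h3 : HasDerivAt (fun ρ : ℝ => 1 - (starRingEnd ℂ) z * ((ρ:ℂ) * w)) (-((starRingEnd ℂ) z * w)) ρ := by
        have h4 : HasDerivAt (fun ρ : ℝ => (ρ:ℂ)) 1 ρ := Complex.ofRealCLM.hasDerivAt
        have h5 := ((h4.mul_const w).const_mul ((starRingEnd ℂ) z)).const_sub 1
        simpa using h5
      have h6 := h3.fun_inv (hne z hz ρ hρ)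
      simpa [hK] using h6
    rw [intervalIntegral.integral_eq_sub_of_hasDerivAt hder]
    · simp only [Complex.ofReal_one, one_mul]
      congr 3
      push_cast
      ring
    · apply ContinuousOn.intervalIntegrable
      exact hKc.comp (f := fun ρ : ℝ => (z, ρ)) (by fun_prop) (fun ρ hρ => ⟨hz, hρ⟩)
  unfold Lf
  rw [← integral_sub (int_L hΦ hw) (int_L hΦ hw2)]
  calc _ = ∫ z in ball (0:ℂ) 1, Φ z * ∫ ρ in (1/2:ℝ)..1, K z ρ := by
        apply setIntegral_congr_fun measurableSet_ball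
        intro z hz
        simp only
        rw [h2 z hz]; ring
    _ = _ := h1
    _ = _ := by
        apply intervalIntegral.integral_congr
        intro ρ hρ
        simp only
        rw [← hI] at hρ
        have hρ0 : (ρ:ℂ) ≠ 0 := by
          have : (0:ℝ) < ρ := by linarith [hρ.1]
          exact_mod_cast this.ne'
        unfold kp
        rw [← integral_const_mul]
        congr 1
        ext z
        simp only [hK]
        push_cast
        field_simp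

theorem kern_mean {Φ : ℂ → ℂ} (hΦ : IntegrableOn Φ (ball 0 1)) {s B : ℝ} (hs : 1 < s)
    (hB : ∀ (r : ℝ), 0 < r → r < 1 → ∫ η in (0:ℝ)..(2 * Real.pi), ‖kp Φ (circleMap 0 r η)‖ ^ s ≤ B) :
    ∃ B' : ℝ, ∀ (r : ℝ), 0 < r → r < 1 → ∀ f : ℝ → ℂ,
      (∀ η, f η = Lf Φ (circleMap 0 r η) + kp Φ (circleMap 0 r η)) →
      ∫ η in (0:ℝ)..(2 * Real.pi), ‖f η‖ ^ s ≤ B' := by
  set N := ∫ z in ball (0:ℂ) 1, ‖Φ z‖ with hN
  have hN0 : 0 ≤ N := integral_nonneg (fun z => norm_nonneg _)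
  refine ⟨2 ^ s * (B + 2 ^ s * ((2 * N) ^ s * (2 * Real.pi) + 2 ^ s * B)), ?_⟩
  intro r hr hr1 f hf
  have hmem : ∀ ρ ∈ Icc (0:ℝ) 1, ∀ η : ℝ, (ρ:ℂ) * circleMap 0 r η ∈ ball (0:ℂ) 1 := by
    intro ρ hρ η
    rw [mem_ball_zero_iff, norm_mul, Complex.norm_real, Real.norm_eq_abs, abs_of_nonneg hρ.1,
      norm_circleMap_zero, abs_of_pos hr]
    nlinarith [hρ.2]
  have hnorm : ∀ η : ℝ, ‖circleMap 0 r η‖ < 1 := fun η => by simp [abs_of_pos hr, hr1]
  have hB0 : 0 ≤ B := by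
    refine le_trans ?_ (hB r hr hr1)
    exact intervalIntegral.integral_nonneg (by positivity) (fun θ _ => by positivity)
  -- joint continuity
  have cj : ContinuousOn (fun p : ℝ × ℝ => ‖kp Φ ((p.1:ℂ) * circleMap 0 r p.2)‖) (Icc 0 1 ×ˢ univ) := by
    refine ((kp_cont hΦ).comp (f := fun p : ℝ × ℝ => (p.1:ℂ) * circleMap 0 r p.2) ?_ ?_).norm
    · exact ((Complex.continuous_ofReal.comp continuous_fst).mul
        ((continuous_circleMap 0 r).comp continuous_snd)).continuousOn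
    · rintro ⟨ρ, η⟩ ⟨hρ, -⟩
      exact hmem ρ hρ η
  have hI : Icc (1/2:ℝ) 1 = uIcc (1/2:ℝ) 1 := (uIcc_of_le (by norm_num)).symm
  have hsub : Icc (1/2:ℝ) 1 ⊆ Icc 0 1 := Icc_subset_Icc (by norm_num) le_rfl
  have cκ : Continuous fun η : ℝ => kp Φ (circleMap 0 r η) :=
    (kp_cont hΦ).comp_continuous (continuous_circleMap 0 r) (fun η => by
      rw [mem_ball_zero_iff]; exact hnorm η)
  set J : ℝ → ℝ := fun η => ∫ ρ in (1/2:ℝ)..1, ‖kp Φ ((ρ:ℂ) * circleMap 0 r η)‖ with hJ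
  set J2 : ℝ → ℝ := fun η => ∫ ρ in (1/2:ℝ)..1, ‖kp Φ ((ρ:ℂ) * circleMap 0 r η)‖ ^ s with hJ2
  have cρ : ∀ η : ℝ, ContinuousOn (fun ρ : ℝ => ‖kp Φ ((ρ:ℂ) * circleMap 0 r η)‖) (Icc (1/2) 1) := fun η =>
    cj.comp (f := fun ρ : ℝ => (ρ, η)) (by fun_prop) (fun ρ hρ => ⟨hsub hρ, mem_univ _⟩)
  have hJ0 : ∀ η, 0 ≤ J η := fun η => intervalIntegral.integral_nonneg (by norm_num) (fun _ _ => norm_nonneg _)
  -- the bound for `L`
  have hL : ∀ η : ℝ, ‖Lf Φ (circleMap 0 r η)‖ ≤ 2 * N + 2 * J η := by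
    intro η
    have h1 := L_half hΦ (hnorm η)
    have h2 := L_diff hΦ (hnorm η)
    have h3 : ‖Lf Φ (circleMap 0 r η) - Lf Φ (circleMap 0 r η / 2)‖ ≤ 2 * J η := by
      rw [h2, hJ]
      simp only
      rw [← intervalIntegral.integral_const_mul]
      refine intervalIntegral.norm_integral_le_of_norm_le (by norm_num) ?_ ?_
      · refine ae_of_all _ fun ρ hρ => ?_
        rw [norm_mul, Complex.norm_real, Real.norm_eq_abs]
        have hρ0 : 0 < ρ := by linarith [hρ.1]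
        rw [abs_of_pos (by positivity)]
        refine mul_le_mul_of_nonneg_right ?_ (norm_nonneg _)
        rw [inv_le_comm₀ hρ0 (by norm_num)]
        linarith [hρ.1]
      · have := cρ η
        rw [hI] at this
        exact (continuousOn_const.mul this).intervalIntegrable
    have h4 : Lf Φ (circleMap 0 r η) = Lf Φ (circleMap 0 r η / 2) +
        (Lf Φ (circleMap 0 r η) - Lf Φ (circleMap 0 r η / 2)) := by ring
    rw [h4]
    exact (norm_add_le _ _).trans (add_le_add h1 h3)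
  have hs0 : 0 < s := by linarith
  have hpt : ∀ η : ℝ, ‖f η‖ ^ s ≤ 2 ^ s * (‖kp Φ (circleMap 0 r η)‖ ^ s +
      2 ^ s * ((2 * N) ^ s + 2 ^ s * J2 η)) := by
    intro η
    have h1 : ‖f η‖ ≤ ‖kp Φ (circleMap 0 r η)‖ + (2 * N + 2 * J η) := by
      rw [hf, add_comm (Lf Φ _)]
      exact (norm_add_le _ _).trans (add_le_add le_rfl (hL η))
    have hJη := hJ0 η
    have h2 : (2 * J η) ^ s ≤ 2 ^ s * J2 η := by
      rw [Real.mul_rpow (by norm_num) hJη]
      exact mul_le_mul_of_nonneg_left (jensen_half (cρ η) (fun _ _ => norm_nonneg _) hs) (by positivity)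
    calc ‖f η‖ ^ s ≤ (‖kp Φ (circleMap 0 r η)‖ + (2 * N + 2 * J η)) ^ s :=
          Real.rpow_le_rpow (norm_nonneg _) h1 hs0.le
      _ ≤ 2 ^ s * (‖kp Φ (circleMap 0 r η)‖ ^ s + (2 * N + 2 * J η) ^ s) :=
          add_rpow_le2 (norm_nonneg _) (by positivity) hs0
      _ ≤ _ := by
          refine mul_le_mul_of_nonneg_left (add_le_add le_rfl ?_) (by positivity)
          refine (add_rpow_le2 (by positivity) (by positivity) hs0).trans ?_
          exact mul_le_mul_of_nonneg_left (add_le_add le_rfl h2) (by positivity)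
  -- continuity of `J2`
  have cJ2 : Continuous J2 := by
    have h4 : Continuous fun η : ℝ => ∫ ρ in (1/2:ℝ)..1,
        ‖kp Φ (((projIcc (1/2:ℝ) 1 (by norm_num) ρ : ℝ) : ℂ) * circleMap 0 r η)‖ ^ s := by
      apply intervalIntegral.continuous_parametric_intervalIntegral_of_continuous'
      have h5 : Continuous fun p : ℝ × ℝ => (((projIcc (1/2:ℝ) 1 (by norm_num) p.2 : Icc (1/2:ℝ) 1) : ℝ), p.1) :=
        (continuous_subtype_val.comp (continuous_projIcc.comp continuous_snd)).prodMk continuous_fst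
      have h6 := cj.comp_continuous h5 (fun p => ⟨hsub (projIcc (1/2:ℝ) 1 (by norm_num) p.2).2, mem_univ _⟩)
      exact h6.rpow_const (fun _ => Or.inr hs0.le)
    refine h4.congr ?_
    intro η
    apply intervalIntegral.integral_congr
    intro ρ hρ
    rw [← hI] at hρ
    simp only [projIcc_of_mem (by norm_num : (1/2:ℝ) ≤ 1) hρ]
  -- the mean of `J2`
  have hJ2m : ∫ η in (0:ℝ)..(2 * Real.pi), J2 η ≤ B := by
    have h1 : ∫ η in (0:ℝ)..(2 * Real.pi), J2 η = ∫ ρ in (1/2:ℝ)..1, ∫ η in (0:ℝ)..(2 * Real.pi),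
        ‖kp Φ ((ρ:ℂ) * circleMap 0 r η)‖ ^ s := by
      simp only [hJ2]
      apply swap_cont
      have h2 : ContinuousOn (fun p : ℝ × ℝ => ‖kp Φ ((p.1:ℂ) * circleMap 0 r p.2)‖ ^ s) (Icc 0 1 ×ˢ univ) :=
        cj.rpow_const (fun _ _ => Or.inr hs0.le)
      exact h2.comp (f := fun p : ℝ × ℝ => (p.2, p.1)) (by fun_prop)
        (fun p hp => ⟨hsub (by rw [hI]; exact hp.2), mem_univ _⟩)
    rw [h1]
    have h3 : ∀ ρ ∈ Icc (1/2:ℝ) 1, ∫ η in (0:ℝ)..(2 * Real.pi), ‖kp Φ ((ρ:ℂ) * circleMap 0 r η)‖ ^ s ≤ B := by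
      intro ρ hρ
      have e : ∀ η : ℝ, (ρ:ℂ) * circleMap 0 r η = circleMap 0 (ρ * r) η := by
        intro η
        rw [circleMap_polar r η, circleMap_polar (ρ * r) η]; push_cast; ring
      simp only [e]
      have hρ0 : 0 < ρ := by linarith [hρ.1]
      exact hB (ρ * r) (by positivity) (by nlinarith [hρ.2])
    have h4 : ∫ ρ in (1/2:ℝ)..1, ∫ η in (0:ℝ)..(2 * Real.pi), ‖kp Φ ((ρ:ℂ) * circleMap 0 r η)‖ ^ s ≤
        ∫ ρ in (1/2:ℝ)..1, B := by
      apply intervalIntegral.integral_mono_on (by norm_num)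
      · apply inner_int
        have h2 : ContinuousOn (fun p : ℝ × ℝ => ‖kp Φ ((p.1:ℂ) * circleMap 0 r p.2)‖ ^ s) (Icc 0 1 ×ˢ univ) :=
          cj.rpow_const (fun _ _ => Or.inr hs0.le)
        refine h2.mono (Set.prod_mono ?_ (subset_univ _))
        rw [← hI]; exact hsub
      · exact intervalIntegrable_const
      · exact h3
    refine h4.trans ?_
    rw [intervalIntegral.integral_const, smul_eq_mul]
    nlinarith
  have cf1 : Continuous fun η : ℝ => 2 ^ s * (‖kp Φ (circleMap 0 r η)‖ ^ s +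
      2 ^ s * ((2 * N) ^ s + 2 ^ s * J2 η)) := by
    refine continuous_const.mul ((cκ.norm.rpow_const (fun _ => Or.inr hs0.le)).add ?_)
    exact continuous_const.mul (continuous_const.add (continuous_const.mul cJ2))
  have hmain : ∫ η in (0:ℝ)..(2 * Real.pi), ‖f η‖ ^ s ≤ ∫ η in (0:ℝ)..(2 * Real.pi),
      2 ^ s * (‖kp Φ (circleMap 0 r η)‖ ^ s + 2 ^ s * ((2 * N) ^ s + 2 ^ s * J2 η)) := by
    by_cases hfi : IntervalIntegrable (fun η => ‖f η‖ ^ s) volume 0 (2 * Real.pi)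
    · exact intervalIntegral.integral_mono_on (by positivity) hfi (cf1.intervalIntegrable _ _)
        (fun η _ => hpt η)
    · rw [intervalIntegral.integral_undef hfi]
      apply intervalIntegral.integral_nonneg (by positivity)
      intro η _
      exact le_trans (by positivity) (hpt η)
  refine hmain.trans ?_
  have i1 : IntervalIntegrable (fun η : ℝ => ‖kp Φ (circleMap 0 r η)‖ ^ s) volume 0 (2 * Real.pi) :=
    (cκ.norm.rpow_const (fun _ => Or.inr hs0.le)).intervalIntegrable _ _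
  have i2 : IntervalIntegrable (fun η : ℝ => 2 ^ s * J2 η) volume 0 (2 * Real.pi) :=
    (continuous_const.mul cJ2).intervalIntegrable _ _
  rw [intervalIntegral.integral_const_mul, intervalIntegral.integral_add i1
    ((intervalIntegrable_const.add i2).const_mul _), intervalIntegral.integral_const_mul,
    intervalIntegral.integral_add intervalIntegrable_const i2, intervalIntegral.integral_const,
    intervalIntegral.integral_const_mul, smul_eq_mul, sub_zero]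
  refine mul_le_mul_of_nonneg_left (add_le_add (hB r hr hr1) ?_) (by positivity)
  refine mul_le_mul_of_nonneg_left ?_ (by positivity)
  rw [mul_comm (2 * Real.pi)]
  exact add_le_add le_rfl (mul_le_mul_of_nonneg_left hJ2m (by positivity))

end Pool.Agent.Q76.BK
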