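import Pool.Agent.Q76.BK.Dual

set_option autoImplicit false

/-! The means of the kernel on circles are bounded. -/

open Complex MeasureTheory Metric Set Filter Topology

namespace Pool.Agent.Q76.BK

lemma one_dir {b t : ℝ} (hb : 0 < b) (ht : 1 < t) {F : ℂ → ℂ} (hF : DifferentiableOn ℂ F (ball 0 1)) {A : ℝ}
    (hA : ∀ R : ℝ, 0 < R → R < 1 → ∫ θ in (0:ℝ)..(2 * Real.pi), ‖F (circleMap 0 R θ)‖ ^ (b * t) ≤ A)
    (hΦ : IntegrableOn (Ph (b * (t - 1)) F) (ball 0 1)) : ∃ B : ℝ, ∀ (r : ℝ), 0 < r → r < 1 →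
      ∀ ω : ℂ, ‖ω‖ = 1 → ∫ η in (0:ℝ)..(2 * Real.pi),
        (max (ω * kp (Ph (b * (t - 1)) F) (circleMap 0 r η)).re 0) ^ (t / (t - 1)) ≤ B := by
  obtain ⟨C, hC, h1⟩ := dual hb ht
  set Φ := Ph (b * (t - 1)) F with hΦd
  have ht1 : 0 < t - 1 := by linarith
  have hA0 : 0 ≤ A := by
    refine le_trans ?_ (hA (1/2) (by norm_num) (by norm_num))
    exact intervalIntegral.integral_nonneg (by positivity) (fun θ _ => by positivity)
  set s := t / (t - 1) with hs
  have hs1 : 1 < s := by rw [hs, one_lt_div ht1]; linarith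
  have hst : (s - 1) * t = s := by rw [hs]; field_simp; ring
  set τ : ℝ := (1 / (2 * C * 2 ^ t)) ^ (1 / (t - 1)) with hτ
  have hτ0 : 0 < τ := by positivity
  have hτ1 : τ ^ (t - 1) = 1 / (2 * C * 2 ^ t) := by
    rw [hτ, ← Real.rpow_mul (by positivity), one_div_mul_cancel ht1.ne', Real.rpow_one]
  have hτt : C * (τ ^ t * 2 ^ t) = τ / 2 := by
    have e : τ ^ t = τ ^ (t - 1) * τ := by rw [← Real.rpow_add_one hτ0.ne']; congr 1; ring
    rw [e, hτ1]
    field_simp
  refine ⟨2 / τ * (C * (1 + A) + Real.pi * τ + τ), ?_⟩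
  intro r hr hr1 ω hω
  have hmem : ∀ ζ ∈ sphere (0:ℂ) 1, (r:ℂ) * ζ ∈ ball (0:ℂ) 1 := by
    intro ζ hζ
    rw [mem_sphere_zero_iff_norm] at hζ
    rw [mem_ball_zero_iff, norm_mul, Complex.norm_real, Real.norm_eq_abs, abs_of_pos hr, hζ]
    linarith
  have hk : ContinuousOn (fun ζ : ℂ => kp Φ ((r:ℂ) * ζ)) (sphere 0 1) :=
    (kp_cont hΦ).comp (continuous_const.mul continuous_id).continuousOn hmem
  set h : ℂ → ℝ := fun ζ => max (ω * kp Φ ((r:ℂ) * ζ)).re 0 with hh
  have hhc : ContinuousOn h (sphere 0 1) := by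
    have h0 : ContinuousOn (fun ζ => (ω * kp Φ ((r:ℂ) * ζ)).re) (sphere 0 1) :=
      Complex.continuous_re.comp_continuousOn (continuousOn_const.mul hk)
    exact h0.sup continuousOn_const
  have hh0 : ∀ ζ, 0 ≤ h ζ := fun ζ => le_max_right _ _
  have hcirc : ∀ η : ℝ, circleMap 0 r η = (r:ℂ) * circleMap 0 1 η := circleMap_polar r
  have hsc : ∀ p : ℝ, 0 < p → ContinuousOn (fun ζ => h ζ ^ p) (sphere 0 1) := fun p hp =>
    hhc.rpow_const (fun ζ _ => Or.inr hp.le)
  set X := ∫ η in (0:ℝ)..(2 * Real.pi), (ω * kp Φ (circleMap 0 r η)).re with hX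
  set S := ∫ η in (0:ℝ)..(2 * Real.pi), h (circleMap 0 1 η) ^ s with hS
  have hS0 : 0 ≤ S := intervalIntegral.integral_nonneg (by positivity)
    (fun θ _ => Real.rpow_nonneg (hh0 _) _)
  have goal_eq : ∫ η in (0:ℝ)..(2 * Real.pi), (max (ω * kp Φ (circleMap 0 r η)).re 0) ^ s = S := by
    apply intervalIntegral.integral_congr
    intro η _
    simp only [hh, hcirc]
  rw [goal_eq]
  set δ : ℝ := 1 / (1 + |X|) with hδ
  have hδ0 : 0 < δ := by positivity
  have hδ1 : δ ≤ 1 := by
    rw [hδ, div_le_one (by positivity)]; linarith [abs_nonneg X]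
  have hδX : δ * |X| ≤ 1 := by
    rw [hδ, one_div_mul_eq_div, div_le_one (by positivity)]; linarith
  set g : ℂ → ℝ := fun ζ => τ * (h ζ ^ (s - 1) + δ) with hg
  have hgc : ContinuousOn g (sphere 0 1) :=
    continuousOn_const.mul ((hsc _ (by linarith)).add continuousOn_const)
  have hg0 : ∀ ζ ∈ sphere (0:ℂ) 1, 0 < g ζ := fun ζ _ => by
    have := Real.rpow_nonneg (hh0 ζ) (s - 1)
    simp only [hg]
    positivity
  have h2 := h1 F hF A hA hΦ r hr hr1 g hgc hg0
  -- the left hand side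
  have cκ : Continuous fun η : ℝ => kp Φ (circleMap 0 r η) := by
    simp only [hcirc]
    exact contC hk
  have lhs : τ * (S + δ * X) ≤ ‖∫ η in (0:ℝ)..(2 * Real.pi), (g (circleMap 0 1 η) : ℂ) *
      kp Φ (circleMap 0 r η)‖ := by
    have e1 : ∫ η in (0:ℝ)..(2 * Real.pi), (ω * ((g (circleMap 0 1 η) : ℂ) * kp Φ (circleMap 0 r η))).re =
        τ * (S + δ * X) := by
      rw [hS, hX, ← intervalIntegral.integral_const_mul, ← intervalIntegral.integral_add,
        ← intervalIntegral.integral_const_mul]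
      · apply intervalIntegral.integral_congr
        intro η _
        simp only [hg]
        have e2 : ω * (((τ * (h (circleMap 0 1 η) ^ (s - 1) + δ) : ℝ) : ℂ) * kp Φ (circleMap 0 r η)) =
            ((τ * (h (circleMap 0 1 η) ^ (s - 1) + δ) : ℝ) : ℂ) * (ω * kp Φ (circleMap 0 r η)) := by ring
        rw [e2, Complex.re_ofReal_mul]
        have e3 : h (circleMap 0 1 η) ^ (s - 1) * (ω * kp Φ (circleMap 0 r η)).re =
            h (circleMap 0 1 η) ^ s := by
          have e4 : h (circleMap 0 1 η) = max (ω * kp Φ (circleMap 0 r η)).re 0 := by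
            simp only [hh, hcirc]
          rw [e4]
          rcases le_or_gt (ω * kp Φ (circleMap 0 r η)).re 0 with h5 | h5
          · rw [max_eq_right h5, Real.zero_rpow (by linarith), Real.zero_rpow (by linarith), zero_mul]
          · rw [max_eq_left h5.le, ← Real.rpow_add_one h5.ne']
            congr 1; ring
        rw [mul_assoc, add_mul, e3]
      · exact (contC (hsc s (by linarith))).intervalIntegrable _ _
      · exact (continuous_const.mul (Complex.continuous_re.comp (continuous_const.mul cκ))).intervalIntegrable _ _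
    rw [← e1]
    have e5 : ∫ η in (0:ℝ)..(2 * Real.pi), (ω * ((g (circleMap 0 1 η) : ℂ) * kp Φ (circleMap 0 r η))).re =
        (∫ η in (0:ℝ)..(2 * Real.pi), ω * ((g (circleMap 0 1 η) : ℂ) * kp Φ (circleMap 0 r η))).re := by
      have hi : IntervalIntegrable (fun η : ℝ => ω * ((g (circleMap 0 1 η) : ℂ) * kp Φ (circleMap 0 r η)))
          volume 0 (2 * Real.pi) :=
        (continuous_const.mul ((Complex.continuous_ofReal.comp (contC hgc)).mul cκ)).intervalIntegrable _ _
      exact Complex.reCLM.intervalIntegral_comp_comm hi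
    rw [e5, intervalIntegral.integral_const_mul]
    refine (Complex.re_le_norm _).trans ?_
    rw [norm_mul, hω, one_mul]
  -- the right hand side
  have rhs : ∫ η in (0:ℝ)..(2 * Real.pi), g (circleMap 0 1 η) ^ t ≤ τ ^ t * 2 ^ t * (S + 2 * Real.pi) := by
    have e1 : τ ^ t * 2 ^ t * (S + 2 * Real.pi) =
        ∫ η in (0:ℝ)..(2 * Real.pi), τ ^ t * 2 ^ t * (h (circleMap 0 1 η) ^ s + 1) := by
      rw [intervalIntegral.integral_const_mul, intervalIntegral.integral_add,
        intervalIntegral.integral_const, ← hS, smul_eq_mul, sub_zero, mul_one]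
      · exact (contC (hsc s (by linarith))).intervalIntegrable _ _
      · exact intervalIntegrable_const
    rw [e1]
    apply intervalIntegral.integral_mono_on (by positivity)
    · exact ((contC hgc).rpow_const (fun θ => Or.inl (hg0 _ (circ1_mem θ)).ne')).intervalIntegrable _ _
    · exact (continuous_const.mul ((contC (hsc s (by linarith))).add continuous_const)).intervalIntegrable _ _
    · intro η _
      simp only [hg]
      have hx := Real.rpow_nonneg (hh0 (circleMap 0 1 η)) (s - 1)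
      rw [Real.mul_rpow hτ0.le (by positivity), mul_assoc]
      refine mul_le_mul_of_nonneg_left ?_ (by positivity)
      refine (add_rpow_le2 hx hδ0.le (by linarith)).trans ?_
      refine mul_le_mul_of_nonneg_left ?_ (by positivity)
      rw [← Real.rpow_mul (hh0 _), hst]
      have := Real.rpow_le_one hδ0.le hδ1 (by linarith : (0:ℝ) ≤ t)
      linarith
  have h3 : τ * (S + δ * X) ≤ C * (1 + A + τ ^ t * 2 ^ t * (S + 2 * Real.pi)) :=
    lhs.trans (h2.trans (mul_le_mul_of_nonneg_left (by linarith) hC.le))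
  have h4 : C * (1 + A + τ ^ t * 2 ^ t * (S + 2 * Real.pi)) = C * (1 + A) + τ / 2 * (S + 2 * Real.pi) := by
    rw [← hτt]; ring
  rw [h4] at h3
  have h5 : -(δ * X) ≤ 1 := by
    have := neg_abs_le X
    nlinarith
  have h6 : τ * (-(δ * X)) ≤ τ * 1 := mul_le_mul_of_nonneg_left h5 hτ0.le
  have h7 : τ / 2 * S ≤ C * (1 + A) + Real.pi * τ + τ := by nlinarith
  rw [div_mul_eq_mul_div, le_div_iff₀ hτ0]
  linarith

/-- the means of the kernel are bounded -/
theorem kp_mean {b t : ℝ} (hb : 0 < b) (ht : 1 < t) {F : ℂ → ℂ} (hF : DifferentiableOn ℂ F (ball 0 1)) {A : ℝ}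
    (hA : ∀ R : ℝ, 0 < R → R < 1 → ∫ θ in (0:ℝ)..(2 * Real.pi), ‖F (circleMap 0 R θ)‖ ^ (b * t) ≤ A)
    (hΦ : IntegrableOn (Ph (b * (t - 1)) F) (ball 0 1)) : ∃ B : ℝ, ∀ (r : ℝ), 0 < r → r < 1 →
      ∫ η in (0:ℝ)..(2 * Real.pi), ‖kp (Ph (b * (t - 1)) F) (circleMap 0 r η)‖ ^ (t / (t - 1)) ≤ B := by
  obtain ⟨B, hB⟩ := one_dir hb ht hF hA hΦ
  set Φ := Ph (b * (t - 1)) F with hΦd
  have ht1 : 0 < t - 1 := by linarith
  set s := t / (t - 1) with hs
  have hs1 : 1 < s := by rw [hs, one_lt_div ht1]; linarith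
  refine ⟨2 ^ s * (4 * B), ?_⟩
  intro r hr hr1
  have hmem : ∀ η : ℝ, circleMap 0 r η ∈ ball (0:ℂ) 1 := fun η => by simp [abs_of_pos hr, hr1]
  have cκ : Continuous fun η : ℝ => kp Φ (circleMap 0 r η) :=
    (kp_cont hΦ).comp_continuous (continuous_circleMap 0 r) hmem
  have cω : ∀ ω : ℂ, Continuous fun η : ℝ => (max (ω * kp Φ (circleMap 0 r η)).re 0) ^ s := fun ω =>
    ((Complex.continuous_re.comp (continuous_const.mul cκ)).max continuous_const).rpow_const
      (fun _ => Or.inr (by linarith))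
  have hm : ∀ x : ℝ, |x| ^ s ≤ (max x 0) ^ s + (max (-x) 0) ^ s := by
    intro x
    rcases le_total 0 x with h | h
    · rw [abs_of_nonneg h, max_eq_left h, max_eq_right (by linarith : -x ≤ 0),
        Real.zero_rpow (by linarith), add_zero]
    · rw [abs_of_nonpos h, max_eq_right h, max_eq_left (by linarith : 0 ≤ -x),
        Real.zero_rpow (by linarith), zero_add]
  have h1 : ∫ η in (0:ℝ)..(2 * Real.pi), ‖kp Φ (circleMap 0 r η)‖ ^ s ≤
      ∫ η in (0:ℝ)..(2 * Real.pi), 2 ^ s * (((max ((1:ℂ) * kp Φ (circleMap 0 r η)).re 0) ^ s +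
        (max ((-1:ℂ) * kp Φ (circleMap 0 r η)).re 0) ^ s) + ((max ((-I) * kp Φ (circleMap 0 r η)).re 0) ^ s +
        (max (I * kp Φ (circleMap 0 r η)).re 0) ^ s)) := by
    apply intervalIntegral.integral_mono_on (by positivity)
    · exact (cκ.norm.rpow_const (fun _ => Or.inr (by linarith))).intervalIntegrable _ _
    · exact (continuous_const.mul (((cω _).add (cω _)).add ((cω _).add (cω _)))).intervalIntegrable _ _
    · intro η _
      set w := kp Φ (circleMap 0 r η)
      have e1 : ((1:ℂ) * w).re = w.re := by simp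
      have e2 : ((-1:ℂ) * w).re = -w.re := by simp
      have e3 : ((-I) * w).re = w.im := by simp
      have e4 : (I * w).re = -w.im := by simp
      rw [e1, e2, e3, e4]
      calc ‖w‖ ^ s ≤ (|w.re| + |w.im|) ^ s :=
            Real.rpow_le_rpow (norm_nonneg _) (Complex.norm_le_abs_re_add_abs_im w) (by linarith)
        _ ≤ 2 ^ s * (|w.re| ^ s + |w.im| ^ s) := add_rpow_le2 (abs_nonneg _) (abs_nonneg _) (by linarith)
        _ ≤ _ := mul_le_mul_of_nonneg_left (add_le_add (hm _) (hm _)) (by positivity)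
  refine h1.trans ?_
  rw [intervalIntegral.integral_const_mul]
  refine mul_le_mul_of_nonneg_left ?_ (by positivity)
  rw [intervalIntegral.integral_add, intervalIntegral.integral_add, intervalIntegral.integral_add]
  · have b1 := hB r hr hr1 1 (by simp)
    have b2 := hB r hr hr1 (-1) (by simp)
    have b3 := hB r hr hr1 (-I) (by simp)
    have b4 := hB r hr hr1 I (by simp)
    linarith
  all_goals first
    | exact (cω _).intervalIntegrable _ _
    | exact ((cω _).add (cω _)).intervalIntegrable _ _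

end Pool.Agent.Q76.BK
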