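import Pool.Agent.Q76.BK.Jet

set_option autoImplicit false

/-!
Polar coordinates on discs, the Stokes formula for the operator `2 ∂/∂z`, and Green's formula with
the weight `R^2 - |z|^2`.
-/

open Complex MeasureTheory Metric Set

namespace Pool.Agent.Q76.BK

lemma continuous_circle2 : Continuous fun p : ℝ × ℝ => circleMap 0 p.1 p.2 := by
  unfold circleMap
  fun_prop

lemma circle_mem {R ρ : ℝ} (h0 : 0 ≤ ρ) (h1 : ρ ≤ R) (θ : ℝ) : circleMap 0 ρ θ ∈ closedBall (0:ℂ) R := by
  simp [abs_of_nonneg h0, h1]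

/-- a continuous function on the closed disc in polar coordinates -/
lemma cont_polar {E : Type*} [TopologicalSpace E] {h : ℂ → E} {R : ℝ}
    (hh : ContinuousOn h (closedBall 0 R)) :
    ContinuousOn (fun p : ℝ × ℝ => h (circleMap 0 p.1 p.2)) (Icc 0 R ×ˢ univ) := by
  apply hh.comp continuous_circle2.continuousOn
  rintro p ⟨hp1, -⟩
  exact circle_mem hp1.1 hp1.2 _

lemma polar_ball {E : Type*} [NormedAddCommGroup E] [NormedSpace ℝ E] [CompleteSpace E]
    (F : ℂ → E) {R : ℝ} (hR : 0 < R) (hF : ContinuousOn F (closedBall 0 R)) :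
    ∫ z in ball (0 : ℂ) R, F z =
      ∫ r in (0 : ℝ)..R, ∫ θ in (0 : ℝ)..(2 * Real.pi), r • F (circleMap 0 r θ) := by
  have hpi : -Real.pi ≤ Real.pi := by linarith [Real.pi_pos]
  set S : Set (ℝ × ℝ) := Set.Ioo 0 R ×ˢ Set.Ioo (-Real.pi) Real.pi with hS
  have hSm : MeasurableSet S := measurableSet_Ioo.prod measurableSet_Ioo
  have hint : IntegrableOn (fun p : ℝ × ℝ => p.1 • F (circleMap 0 p.1 p.2)) S
      (volume.prod volume) := by
    have hcont : ContinuousOn (fun p : ℝ × ℝ => p.1 • F (circleMap 0 p.1 p.2))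
        (Set.Icc 0 R ×ˢ Set.Icc (-Real.pi) Real.pi) := by
      apply continuousOn_fst.smul
      exact (cont_polar hF).mono (Set.prod_mono subset_rfl (subset_univ _))
    rw [← Measure.volume_eq_prod]
    apply (hcont.integrableOn_compact (isCompact_Icc.prod isCompact_Icc)).mono_set
    exact Set.prod_mono Set.Ioo_subset_Icc_self Set.Ioo_subset_Icc_self
  have h1 : ∫ z in ball (0 : ℂ) R, F z = ∫ p in S, p.1 • F (circleMap 0 p.1 p.2) := by
    rw [← integral_indicator measurableSet_ball, ← Complex.integral_comp_polarCoord_symm]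
    have h2 : ∀ p ∈ polarCoord.target, p.1 • (ball (0 : ℂ) R).indicator F
        (Complex.polarCoord.symm p) = S.indicator (fun p => p.1 • F (circleMap 0 p.1 p.2)) p := by
      intro p hp
      have hp1 : 0 < p.1 := hp.1
      have hp2 : p.2 ∈ Set.Ioo (-Real.pi) Real.pi := hp.2
      have e : Complex.polarCoord.symm p = circleMap 0 p.1 p.2 := by
        rw [Complex.polarCoord_symm_apply, circleMap, zero_add, Complex.exp_mul_I]
        push_cast
        rfl
      rw [e]
      by_cases h : p.1 < R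
      · have hb : circleMap 0 p.1 p.2 ∈ ball (0 : ℂ) R := by
          simp [abs_of_pos hp1, h]
        have hs : p ∈ S := ⟨⟨hp1, h⟩, hp2⟩
        rw [Set.indicator_of_mem hb, Set.indicator_of_mem hs]
      · have hb : circleMap 0 p.1 p.2 ∉ ball (0 : ℂ) R := by
          simp [abs_of_pos hp1] at h ⊢
          exact h
        have hs : p ∉ S := fun h' => h h'.1.2
        rw [Set.indicator_of_notMem hb, Set.indicator_of_notMem hs, smul_zero]
    rw [setIntegral_congr_fun polarCoord.open_target.measurableSet h2,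
      setIntegral_indicator hSm]
    congr 1
    congr 1
    apply Set.inter_eq_right.2
    rintro p ⟨hp1, hp2⟩
    exact ⟨hp1.1, hp2⟩
  rw [h1, hS, Measure.volume_eq_prod, setIntegral_prod _ hint,
    intervalIntegral.integral_of_le hR.le, integral_Ioc_eq_integral_Ioo]
  apply setIntegral_congr_fun measurableSet_Ioo
  intro r _
  simp only
  have hp : Function.Periodic (fun θ : ℝ => r • F (circleMap 0 r θ)) (2 * Real.pi) := by
    intro θ
    simp only [periodic_circleMap 0 r θ]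
  have h3 := hp.intervalIntegral_add_eq (-Real.pi) 0
  have e : -Real.pi + 2 * Real.pi = Real.pi := by ring
  rw [e, zero_add] at h3
  rw [← h3, intervalIntegral.integral_of_le hpi, integral_Ioc_eq_integral_Ioo]

/-- Fubini for continuous functions on a rectangle -/
lemma swap_cont {E : Type*} [NormedAddCommGroup E] [NormedSpace ℝ E]
    {G : ℝ → ℝ → E} {a b c d : ℝ} (hG : ContinuousOn (Function.uncurry G) (uIcc a b ×ˢ uIcc c d)) :
    ∫ x in a..b, ∫ y in c..d, G x y = ∫ y in c..d, ∫ x in a..b, G x y := by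
  apply intervalIntegral_intervalIntegral_swap
  exact (hG.integrableOn_compact (isCompact_uIcc.prod isCompact_uIcc)).mono_set
    (Set.prod_mono uIoc_subset_uIcc uIoc_subset_uIcc)

lemma real_lin (A : ℂ →L[ℝ] ℂ) (w : ℂ) : A w = (w.re : ℂ) * A 1 + (w.im : ℂ) * A I := by
  have h : w = w.re • (1:ℂ) + w.im • I := by
    apply Complex.ext <;> simp
  conv_lhs => rw [h, map_add, map_smul, map_smul]
  simp [Complex.real_smul]

lemma stokes {R : ℝ} (hR : 0 < R) {Λ : ℂ → ℂ} {A : ℂ → ℂ →L[ℝ] ℂ}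
    (hd : ∀ z ∈ closedBall (0:ℂ) R, HasFDerivAt Λ (A z) z) (hA : ContinuousOn A (closedBall 0 R)) :
    ∫ ρ in (0:ℝ)..R, ∫ θ in (0:ℝ)..(2 * Real.pi),
      (ρ : ℂ) * (A (circleMap 0 ρ θ) 1 - I * A (circleMap 0 ρ θ) I) =
    ∫ θ in (0:ℝ)..(2 * Real.pi), (R : ℂ) * (cexp (-(θ * I)) * Λ (circleMap 0 R θ)) := by
  have hpi := Real.pi_pos
  have hΛc : ContinuousOn Λ (closedBall 0 R) := fun z hz => (hd z hz).continuousAt.continuousWithinAt
  have hA1 : ContinuousOn (fun z => A z 1) (closedBall 0 R) :=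
    ((ContinuousLinearMap.apply ℝ ℂ (1:ℂ)).continuous.comp_continuousOn hA)
  have hAI : ContinuousOn (fun z => A z I) (closedBall 0 R) :=
    ((ContinuousLinearMap.apply ℝ ℂ I).continuous.comp_continuousOn hA)
  -- the two pieces
  set H : ℝ → ℝ → ℂ := fun ρ θ => cexp (-(θ * I)) * ((ρ : ℂ) * A (circleMap 0 ρ θ) (cexp (θ * I)) +
    Λ (circleMap 0 ρ θ)) with hH
  set K : ℝ → ℝ → ℂ := fun ρ θ => -I * cexp (-(θ * I)) * Λ (circleMap 0 ρ θ) +
    cexp (-(θ * I)) * A (circleMap 0 ρ θ) (circleMap 0 ρ θ * I) with hK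
  have cE1 : Continuous fun p : ℝ × ℝ => cexp (-(p.2 * I)) := by fun_prop
  have cE2 : Continuous fun p : ℝ × ℝ => cexp (p.2 * I) := by fun_prop
  have cΛ := cont_polar hΛc
  have cA1 := cont_polar hA1
  have cAI := cont_polar hAI
  have cρ : Continuous fun p : ℝ × ℝ => (p.1 : ℂ) := by fun_prop
  have cH : ContinuousOn (Function.uncurry H) (Icc 0 R ×ˢ univ) := by
    have e : Function.uncurry H = fun p : ℝ × ℝ => cexp (-(p.2 * I)) * ((p.1 : ℂ) *
        (((cexp (p.2 * I)).re : ℂ) * A (circleMap 0 p.1 p.2) 1 +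
          ((cexp (p.2 * I)).im : ℂ) * A (circleMap 0 p.1 p.2) I) + Λ (circleMap 0 p.1 p.2)) := by
      ext p; simp only [Function.uncurry, hH]; rw [real_lin (A (circleMap 0 p.1 p.2)) (cexp (p.2 * I))]
    rw [e]
    refine cE1.continuousOn.mul ((cρ.continuousOn.mul (ContinuousOn.add ?_ ?_)).add cΛ)
    · exact ((continuous_ofReal.comp (continuous_re.comp cE2)).continuousOn).mul cA1
    · exact ((continuous_ofReal.comp (continuous_im.comp cE2)).continuousOn).mul cAI
  have cK : ContinuousOn (Function.uncurry K) (Icc 0 R ×ˢ univ) := by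
    have e : Function.uncurry K = fun p : ℝ × ℝ => -I * cexp (-(p.2 * I)) * Λ (circleMap 0 p.1 p.2) +
        cexp (-(p.2 * I)) *
        (((circleMap 0 p.1 p.2 * I).re : ℂ) * A (circleMap 0 p.1 p.2) 1 +
          ((circleMap 0 p.1 p.2 * I).im : ℂ) * A (circleMap 0 p.1 p.2) I) := by
      ext p; simp only [Function.uncurry, hK]
      rw [real_lin (A (circleMap 0 p.1 p.2)) (circleMap 0 p.1 p.2 * I)]
    have cc : Continuous fun p : ℝ × ℝ => circleMap 0 p.1 p.2 * I := continuous_circle2.mul continuous_const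
    rw [e]
    refine ((continuous_const.mul cE1).continuousOn.mul cΛ).add
      (cE1.continuousOn.mul (ContinuousOn.add ?_ ?_))
    · exact ((continuous_ofReal.comp (continuous_re.comp cc)).continuousOn).mul cA1
    · exact ((continuous_ofReal.comp (continuous_im.comp cc)).continuousOn).mul cAI
  have hG : ∀ ρ θ : ℝ, (ρ : ℂ) * (A (circleMap 0 ρ θ) 1 - I * A (circleMap 0 ρ θ) I) =
      H ρ θ - I * K ρ θ := by
    intro ρ θ
    simp only [hH, hK]
    rw [real_lin (A (circleMap 0 ρ θ)) (cexp (θ * I)),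
      real_lin (A (circleMap 0 ρ θ)) (circleMap 0 ρ θ * I)]
    have e1 : (circleMap 0 ρ θ * I).re = -(ρ * Real.sin θ) := by
      simp [circleMap, Complex.exp_mul_I, ← Complex.ofReal_cos, ← Complex.ofReal_sin]
    have e2 : (circleMap 0 ρ θ * I).im = ρ * Real.cos θ := by
      simp [circleMap, Complex.exp_mul_I, ← Complex.ofReal_cos, ← Complex.ofReal_sin]
    have e3 : (cexp (θ * I)).re = Real.cos θ := by
      rw [Complex.exp_ofReal_mul_I_re]
    have e4 : (cexp (θ * I)).im = Real.sin θ := by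
      rw [Complex.exp_ofReal_mul_I_im]
    have e5 : cexp (-(θ * I)) * cexp (θ * I) = 1 := by
      rw [← Complex.exp_add]; simp
    have e6 : cexp (θ * I) = Real.cos θ + Real.sin θ * I := by
      rw [Complex.exp_mul_I, Complex.ofReal_cos, Complex.ofReal_sin]
    rw [e1, e2, e3, e4]
    push_cast
    push_cast at e6
    have e7 : cexp (-(θ * I)) * ((Complex.cos θ) + (Complex.sin θ) * I) = 1 := by
      rw [← e6]; exact e5
    have hI : I * I = -1 := Complex.I_mul_I
    linear_combination (-(ρ : ℂ) * (A (circleMap 0 ρ θ) 1) + I * ρ * (A (circleMap 0 ρ θ) I)) * e7 +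
      (-(cexp (-(θ * I)) * Λ (circleMap 0 ρ θ)) +
        -(ρ * cexp (-(θ * I)) * Complex.sin θ * A (circleMap 0 ρ θ) I)) * hI
  have sub0 : ∀ ρ ∈ Icc 0 R, ContinuousOn (fun θ : ℝ => H ρ θ) (uIcc 0 (2 * Real.pi)) := by
    intro ρ hρ
    exact cH.comp (f := fun θ : ℝ => (ρ, θ)) (by fun_prop) (fun θ _ => ⟨hρ, mem_univ _⟩)
  have sub1 : ∀ ρ ∈ Icc 0 R, ContinuousOn (fun θ : ℝ => K ρ θ) (uIcc 0 (2 * Real.pi)) := by
    intro ρ hρ
    exact cK.comp (f := fun θ : ℝ => (ρ, θ)) (by fun_prop) (fun θ _ => ⟨hρ, mem_univ _⟩)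
  have hK0 : ∀ ρ ∈ Icc 0 R, ∫ θ in (0:ℝ)..(2 * Real.pi), K ρ θ = 0 := by
    intro ρ hρ
    have hder : ∀ θ : ℝ, HasDerivAt (fun θ : ℝ => cexp (-(θ * I)) * Λ (circleMap 0 ρ θ)) (K ρ θ) θ := by
      intro θ
      have h1 : HasDerivAt (fun θ : ℝ => cexp (-(θ * I))) (-I * cexp (-(θ * I))) θ := by
        have h0 : HasDerivAt (fun θ : ℝ => -((θ : ℂ) * I)) (-I) θ := by
          have h := ((hasDerivAt_id (θ : ℂ)).comp_ofReal.mul_const I).neg
          simp only [id, one_mul] at h
          exact h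
        have h1 := h0.cexp
        convert h1 using 1
        ring
      have h2 := (hd _ (circle_mem hρ.1 hρ.2 θ)).comp_hasDerivAt θ (hasDerivAt_circleMap 0 ρ θ)
      exact h1.mul h2
    have := intervalIntegral.integral_eq_sub_of_hasDerivAt (fun θ _ => hder θ)
      ((sub1 ρ hρ).intervalIntegrable)
    rw [this]
    have e : circleMap 0 ρ (2 * Real.pi) = circleMap 0 ρ 0 := by
      have := periodic_circleMap 0 ρ 0
      simpa using this
    have e' : cexp (-(((2 * Real.pi : ℝ) : ℂ) * I)) = cexp (-(((0:ℝ) : ℂ) * I)) := by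
      push_cast
      rw [zero_mul, neg_zero, Complex.exp_zero, Complex.exp_neg, Complex.exp_two_pi_mul_I, inv_one]
    rw [e, e', sub_self]
  have hHint : ∀ θ : ℝ, ∫ ρ in (0:ℝ)..R, H ρ θ = (R : ℂ) * (cexp (-(θ * I)) * Λ (circleMap 0 R θ)) := by
    intro θ
    have hder : ∀ ρ ∈ uIcc 0 R, HasDerivAt (fun ρ : ℝ => cexp (-(θ * I)) * ((ρ : ℂ) * Λ (circleMap 0 ρ θ)))
        (H ρ θ) ρ := by
      intro ρ hρ
      rw [uIcc_of_le hR.le] at hρ
      have h1 : HasDerivAt (fun ρ : ℝ => circleMap 0 ρ θ) (cexp (θ * I)) ρ := by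
        unfold circleMap
        have := ((hasDerivAt_id (ρ : ℂ)).comp_ofReal.mul_const (cexp (θ * I))).const_add (0:ℂ)
        simpa using this
      have h2 := (hd _ (circle_mem hρ.1 hρ.2 θ)).comp_hasDerivAt ρ h1
      have h3 : HasDerivAt (fun ρ : ℝ => (ρ : ℂ)) 1 ρ := (hasDerivAt_id (ρ : ℂ)).comp_ofReal
      have h4 := (h3.mul h2).const_mul (cexp (-(θ * I)))
      refine h4.congr_deriv ?_
      simp only [hH, Function.comp_apply]
      ring
    have cont : ContinuousOn (fun ρ : ℝ => H ρ θ) (uIcc 0 R) := by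
      refine cH.comp (f := fun ρ : ℝ => (ρ, θ)) (by fun_prop) (fun ρ hρ => ⟨?_, mem_univ _⟩)
      rwa [uIcc_of_le hR.le] at hρ
    rw [intervalIntegral.integral_eq_sub_of_hasDerivAt hder cont.intervalIntegrable]
    simp; ring
  calc ∫ ρ in (0:ℝ)..R, ∫ θ in (0:ℝ)..(2 * Real.pi),
        (ρ : ℂ) * (A (circleMap 0 ρ θ) 1 - I * A (circleMap 0 ρ θ) I)
      = ∫ ρ in (0:ℝ)..R, ∫ θ in (0:ℝ)..(2 * Real.pi), H ρ θ := by
        apply intervalIntegral.integral_congr
        intro ρ hρ
        rw [uIcc_of_le hR.le] at hρ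
        simp only [hG]
        rw [intervalIntegral.integral_sub (sub0 ρ hρ).intervalIntegrable
          ((sub1 ρ hρ).intervalIntegrable.const_mul I), intervalIntegral.integral_const_mul, hK0 ρ hρ]
        simp
    _ = ∫ θ in (0:ℝ)..(2 * Real.pi), ∫ ρ in (0:ℝ)..R, H ρ θ := by
        apply swap_cont
        apply cH.mono
        rw [uIcc_of_le hR.le]
        exact Set.prod_mono subset_rfl (subset_univ _)
    _ = _ := by
        apply intervalIntegral.integral_congr
        intro θ _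
        exact hHint θ

end Pool.Agent.Q76.BK
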