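import Pool.Agent.Q76.BK.Bell

set_option autoImplicit false

/-! The basic estimate. -/

open Complex MeasureTheory Metric Set Filter Topology

namespace Pool.Agent.Q76.BK

lemma contDiffAt_of_diffOn {U : Set ℂ} (hU : IsOpen U) {W : ℂ → ℂ} (hW : DifferentiableOn ℂ W U) {z : ℂ}
    (hz : z ∈ U) : ContDiffAt ℝ 1 W z :=
  ((hW.contDiffOn (n := 1) hU).contDiffAt (hU.mem_nhds hz)).restrict_scalars ℝ

/-- `2 ∂/∂z` of `N^γ F` -/
lemma dz_bound {U : Set ℂ} (hU : IsOpen U) {F : ℂ → ℂ} (hF : DifferentiableOn ℂ F U) {ε : ℝ} (hε : 0 < ε)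
    (γ : ℝ) : (∀ z ∈ U, ContDiffAt ℝ 1 (fun z => (normSq (F z) + ε) ^ γ • F z) z) ∧
    ∀ z ∈ U, ‖fderiv ℝ (fun z => (normSq (F z) + ε) ^ γ • F z) z 1 -
      I * fderiv ℝ (fun z => (normSq (F z) + ε) ^ γ • F z) z I‖ ≤
      (2 + 2 * |γ|) * ((normSq (F z) + ε) ^ γ * ‖deriv F z‖) := by
  have hN0 : ∀ z ∈ U, 0 < normSq (F z) + ε := fun z _ => by
    have := normSq_nonneg (F z); linarith
  have J := (jet_normSq hU hF ε).rpow hN0 γ
  refine ⟨fun z hz => (J.cf z hz).smul (contDiffAt_of_diffOn hU hF hz), fun z hz => ?_⟩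
  have h1 := J.hf z hz
  have hFd : HasDerivAt F (deriv F z) z := ((hF z hz).differentiableAt (hU.mem_nhds hz)).hasDerivAt
  have h2 := h1.fun_smul (hFd.hasFDerivAt.restrictScalars ℝ)
  rw [h2.fderiv]
  have hn := hN0 z hz
  set n := normSq (F z) + ε with hnd
  have e : (n ^ γ • (ContinuousLinearMap.restrictScalars ℝ (ContinuousLinearMap.toSpanSingleton ℂ (deriv F z))) +
      (gr ((γ * n ^ (γ - 1)) • (2 * F z * (starRingEnd ℂ) (deriv F z)))).smulRight (F z)) 1 -
      I * (n ^ γ • (ContinuousLinearMap.restrictScalars ℝ (ContinuousLinearMap.toSpanSingleton ℂ (deriv F z))) +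
      (gr ((γ * n ^ (γ - 1)) • (2 * F z * (starRingEnd ℂ) (deriv F z)))).smulRight (F z)) I =
      ((n ^ γ : ℝ) : ℂ) * (2 * deriv F z) +
        ((γ * n ^ (γ - 1) : ℝ) : ℂ) * (2 * (F z * (starRingEnd ℂ) (F z)) * deriv F z) := by
    have hp : ∀ w : ℂ, ((w.re : ℝ) : ℂ) - I * ((w.im : ℝ) : ℂ) = (starRingEnd ℂ) w := by
      intro w; apply Complex.ext <;> simp
    have hw := hp (2 * F z * (starRingEnd ℂ) (deriv F z))
    have hc : (starRingEnd ℂ) (2 * F z * (starRingEnd ℂ) (deriv F z)) =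
        2 * (starRingEnd ℂ) (F z) * deriv F z := by
      have h2 : (starRingEnd ℂ) 2 = 2 := map_ofNat _ 2
      rw [map_mul, map_mul, h2, Complex.conj_conj]
    rw [hc] at hw
    set w := 2 * F z * (starRingEnd ℂ) (deriv F z)
    simp only [add_apply, smul_apply, ContinuousLinearMap.smulRight_apply,
      ContinuousLinearMap.coe_restrictScalars', ContinuousLinearMap.toSpanSingleton_apply, gr_apply,
      Complex.real_smul, Complex.one_re, Complex.one_im, Complex.I_re, Complex.I_im, smul_eq_mul,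
      Complex.mul_re, Complex.mul_im, Complex.ofReal_re, Complex.ofReal_im]
    push_cast
    have hI : I * I = -1 := Complex.I_mul_I
    linear_combination (((γ:ℂ) * ((n ^ (γ - 1) : ℝ) : ℂ)) * F z) * hw - ((n ^ γ : ℝ) : ℂ) * deriv F z * hI
  rw [e]
  have e2 : F z * (starRingEnd ℂ) (F z) = ((normSq (F z) : ℝ) : ℂ) := Complex.mul_conj _
  rw [e2]
  refine (norm_add_le _ _).trans ?_
  simp only [norm_mul, Complex.norm_real, Real.norm_eq_abs, Complex.norm_ofNat]
  rw [abs_of_pos (Real.rpow_pos_of_pos hn γ), abs_of_pos (Real.rpow_pos_of_pos hn (γ - 1)),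
    abs_of_nonneg (normSq_nonneg _)]
  have e3 : n ^ γ = n ^ (γ - 1) * n := by
    rw [← Real.rpow_add_one hn.ne']; congr 1; ring
  have h3 : normSq (F z) ≤ n := by rw [hnd]; linarith
  have h4 : 0 ≤ |γ| * n ^ (γ - 1) * (2 * ‖deriv F z‖) := by positivity
  have h5 := mul_le_mul_of_nonneg_left h3 h4
  rw [e3]
  nlinarith

lemma circle_int {h : ℂ → ℝ} {R : ℝ} (hR : 0 ≤ R) (hh : ContinuousOn h (closedBall 0 R)) :
    IntervalIntegrable (fun θ : ℝ => h (circleMap 0 R θ)) volume 0 (2 * Real.pi) := by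
  apply ContinuousOn.intervalIntegrable
  exact hh.comp (continuous_circleMap 0 R).continuousOn (fun θ _ => circle_mem hR le_rfl θ)

theorem star1 {b t : ℝ} (hb : 0 < b) (ht : 1 < t) : ∃ C : ℝ, 0 < C ∧
    ∀ (U : Set ℂ) (_ : IsOpen U) (F V : ℂ → ℂ) (_ : DifferentiableOn ℂ F U)
      (_ : DifferentiableOn ℂ V U) (_ : ∀ z ∈ U, 0 < (V z).re) (ε : ℝ) (_ : 0 < ε)
      (R : ℝ) (_ : 0 < R) (_ : R ≤ 1) (_ : closedBall (0:ℂ) R ⊆ U),
      ‖∫ z in ball (0:ℂ) R, 2 * (starRingEnd ℂ) z * ((normSq (F z) + ε) ^ ((b * (t - 1) - 1) / 2) • F z) *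
        (starRingEnd ℂ) (deriv V z)‖ ≤
      C * ∫ θ in (0:ℝ)..(2 * Real.pi), ((normSq (F (circleMap 0 R θ)) + ε) ^ (b * t / 2) +
        (V (circleMap 0 R θ)).re ^ t) := by
  obtain ⟨c, C, hc, hC, hbell⟩ := bell hb ht
  set γ := (b * (t - 1) - 1) / 2 with hγ
  refine ⟨(2 + 2 * |γ|) / c * (2 * C), by positivity, ?_⟩
  intro U hU F V hF hV hV0 ε hε R hR hR1 hRU
  obtain ⟨Θ, g, l, J, hΘ, hl⟩ := hbell U hU F V hF hV hV0 ε hε
  have hN0 : ∀ z, 0 < normSq (F z) + ε := fun z => by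
    have := normSq_nonneg (F z); linarith
  obtain ⟨hΦ, hdz⟩ := dz_bound hU hF hε γ
  have hV' : DifferentiableOn ℂ (deriv V) U := hV.deriv hU
  have hF' : DifferentiableOn ℂ (deriv F) U := hF.deriv hU
  rw [pairing hU hΦ hV' hR hRU]
  have cΦ := (cont_fderiv hU hΦ).mono hRU
  have cn : ContinuousOn (fun z : ℂ => normSq z) (closedBall 0 R) := Complex.continuous_normSq.continuousOn
  have cF := hF.continuousOn.mono hRU
  have cV := hV.continuousOn.mono hRU
  have cF' := hF'.continuousOn.mono hRU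
  have cV' := hV'.continuousOn.mono hRU
  have cN : ContinuousOn (fun z => normSq (F z) + ε) (closedBall 0 R) :=
    (Complex.continuous_normSq.comp_continuousOn cF).add continuousOn_const
  have cNp : ∀ p : ℝ, ContinuousOn (fun z => (normSq (F z) + ε) ^ p) (closedBall 0 R) := fun p =>
    cN.rpow_const (fun z _ => Or.inl (hN0 z).ne')
  have hw : ∀ z ∈ ball (0:ℂ) R, 0 ≤ R ^ 2 - normSq z := by
    intro z hz
    rw [mem_ball_zero_iff] at hz
    rw [Complex.normSq_eq_norm_sq]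
    nlinarith [norm_nonneg z]
  have step1 : ‖∫ z in ball (0:ℂ) R, ((R ^ 2 - normSq z : ℝ) : ℂ) *
        ((fderiv ℝ (fun z => (normSq (F z) + ε) ^ γ • F z) z 1 -
          I * fderiv ℝ (fun z => (normSq (F z) + ε) ^ γ • F z) z I) * (starRingEnd ℂ) (deriv V z))‖ ≤
      ∫ z in ball (0:ℂ) R, (2 + 2 * |γ|) / c * ((R ^ 2 - normSq z) * l z) := by
    refine norm_integral_le_of_norm_le ?_ ?_
    · exact (cont_int ((continuousOn_const.sub cn).mul ((J.contL hU).mono hRU))).const_mul _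
    · refine (ae_restrict_iff' measurableSet_ball).2 (ae_of_all _ fun z hz => ?_)
      have hzU := hRU (ball_subset_closedBall hz)
      rw [norm_mul, norm_mul, Complex.norm_real, Real.norm_eq_abs, abs_of_nonneg (hw z hz),
        RCLike.norm_conj]
      have h1 := mul_le_mul_of_nonneg_right (hdz z hzU) (norm_nonneg (deriv V z))
      have h2 := hl z hzU
      have h3 : (2 + 2 * |γ|) * ((normSq (F z) + ε) ^ γ * ‖deriv F z‖) * ‖deriv V z‖ ≤
          (2 + 2 * |γ|) / c * l z := by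
        calc _ = (2 + 2 * |γ|) / c * (c * ((normSq (F z) + ε) ^ γ * (‖deriv F z‖ * ‖deriv V z‖))) := by
              field_simp
          _ ≤ _ := mul_le_mul_of_nonneg_left h2 (by positivity)
      calc _ ≤ (R ^ 2 - normSq z) * ((2 + 2 * |γ|) / c * l z) :=
            mul_le_mul_of_nonneg_left (h1.trans h3) (hw z hz)
        _ = _ := by ring
  refine step1.trans ?_
  rw [integral_const_mul]
  have step2 := green hU J hR hRU (fun z hz => (hΘ z (hRU hz)).1)
  have step3 : ∫ θ in (0:ℝ)..(2 * Real.pi), Θ (circleMap 0 R θ) ≤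
      ∫ θ in (0:ℝ)..(2 * Real.pi), C * ((normSq (F (circleMap 0 R θ)) + ε) ^ (b * t / 2) +
        (V (circleMap 0 R θ)).re ^ t) := by
    apply intervalIntegral.integral_mono_on (by positivity)
    · exact circle_int hR.le (J.contF hRU)
    · have h1 : ContinuousOn (fun z => C * ((normSq (F z) + ε) ^ (b * t / 2) + (V z).re ^ t))
          (closedBall 0 R) := by
        refine continuousOn_const.mul ((cNp _).add ?_)
        exact (Complex.continuous_re.comp_continuousOn cV).rpow_const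
          (fun z hz => Or.inl (hV0 z (hRU hz)).ne')
      exact circle_int hR.le h1
    · intro θ _
      exact (hΘ _ (hRU (circle_mem hR.le le_rfl θ))).2
  rw [intervalIntegral.integral_const_mul] at step3
  set T := ∫ θ in (0:ℝ)..(2 * Real.pi), ((normSq (F (circleMap 0 R θ)) + ε) ^ (b * t / 2) +
        (V (circleMap 0 R θ)).re ^ t) with hT
  have hCT : 0 ≤ C * T := by
    refine le_trans ?_ step3
    apply intervalIntegral.integral_nonneg (by positivity)
    intro θ _
    exact (hΘ _ (hRU (circle_mem hR.le le_rfl θ))).1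
  have hR2 : R ^ 2 ≤ 1 := by nlinarith
  have h4 : R ^ 2 * ∫ θ in (0:ℝ)..(2 * Real.pi), Θ (circleMap 0 R θ) ≤ C * T := by
    calc _ ≤ R ^ 2 * (C * T) := mul_le_mul_of_nonneg_left step3 (by positivity)
      _ ≤ 1 * (C * T) := mul_le_mul_of_nonneg_right hR2 hCT
      _ = _ := one_mul _
  calc _ ≤ (2 + 2 * |γ|) / c * (2 * (C * T)) :=
        mul_le_mul_of_nonneg_left (step2.trans (mul_le_mul_of_nonneg_left h4 (by norm_num))) (by positivity)
    _ = _ := by ring

lemma add_rpow_le2 {x y p : ℝ} (hx : 0 ≤ x) (hy : 0 ≤ y) (hp : 0 < p) :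
    (x + y) ^ p ≤ 2 ^ p * (x ^ p + y ^ p) := by
  have hx' : 0 ≤ x ^ p := by positivity
  have hy' : 0 ≤ y ^ p := by positivity
  have h2 : (0:ℝ) < 2 ^ p := by positivity
  rcases le_total x y with h | h
  · calc (x + y) ^ p ≤ (2 * y) ^ p := Real.rpow_le_rpow (by positivity) (by linarith) hp.le
      _ = 2 ^ p * y ^ p := Real.mul_rpow (by norm_num) hy
      _ ≤ _ := mul_le_mul_of_nonneg_left (by linarith) h2.le
  · calc (x + y) ^ p ≤ (2 * x) ^ p := Real.rpow_le_rpow (by positivity) (by linarith) hp.le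
      _ = 2 ^ p * x ^ p := Real.mul_rpow (by norm_num) hx
      _ ≤ _ := mul_le_mul_of_nonneg_left (by linarith) h2.le

/-- `|F|^(a-1) F` -/
noncomputable def Ph (a : ℝ) (F : ℂ → ℂ) (z : ℂ) : ℂ := ‖F z‖ ^ (a - 1) • F z

lemma Ph_norm {a : ℝ} (ha : 0 < a) (F : ℂ → ℂ) (z : ℂ) : ‖Ph a F z‖ = ‖F z‖ ^ a := by
  unfold Ph
  rw [norm_smul, Real.norm_eq_abs, abs_of_nonneg (by positivity)]
  rcases eq_or_ne (F z) 0 with h | h
  · rw [h, norm_zero, mul_zero, Real.zero_rpow ha.ne']
  · rw [← Real.rpow_add_one (norm_ne_zero_iff.2 h)]; congr 1; ring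

theorem star2 {b t : ℝ} (hb : 0 < b) (ht : 1 < t) : ∃ C : ℝ, 0 < C ∧
    ∀ (U : Set ℂ) (_ : IsOpen U) (F V : ℂ → ℂ) (_ : DifferentiableOn ℂ F U)
      (_ : DifferentiableOn ℂ V U) (_ : ∀ z ∈ U, 0 < (V z).re)
      (R : ℝ) (_ : 0 < R) (_ : R ≤ 1) (_ : closedBall (0:ℂ) R ⊆ U),
      ‖∫ z in ball (0:ℂ) R, (starRingEnd ℂ) z * Ph (b * (t - 1)) F z * (starRingEnd ℂ) (deriv V z)‖ ≤
      C * (1 + (∫ θ in (0:ℝ)..(2 * Real.pi), ‖F (circleMap 0 R θ)‖ ^ (b * t)) +
        ∫ θ in (0:ℝ)..(2 * Real.pi), (V (circleMap 0 R θ)).re ^ t) := by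
  obtain ⟨C, hC, h1⟩ := star1 hb ht
  have hbt : 0 < b * t / 2 := by positivity
  refine ⟨C * (2 ^ (b * t / 2) * (2 * Real.pi)), by positivity, ?_⟩
  intro U hU F V hF hV hV0 R hR hR1 hRU
  set a := b * (t - 1) with ha
  have ha0 : 0 < a := mul_pos hb (by linarith)
  have hV' : DifferentiableOn ℂ (deriv V) U := hV.deriv hU
  have cF := hF.continuousOn.mono hRU
  have cV := hV.continuousOn.mono hRU
  have cV' := hV'.continuousOn.mono hRU
  have hN0 : ∀ ε : ℝ, 0 < ε → ∀ z, 0 < normSq (F z) + ε := fun ε hε z => by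
    have := normSq_nonneg (F z); linarith
  have cN : ∀ ε : ℝ, ContinuousOn (fun z => normSq (F z) + ε) (closedBall 0 R) := fun ε =>
    (Complex.continuous_normSq.comp_continuousOn cF).add continuousOn_const
  have cNp : ∀ ε : ℝ, 0 < ε → ∀ p : ℝ, ContinuousOn (fun z => (normSq (F z) + ε) ^ p) (closedBall 0 R) :=
    fun ε hε p => (cN ε).rpow_const (fun z _ => Or.inl (hN0 ε hε z).ne')
  have cconj : ContinuousOn (fun z : ℂ => (starRingEnd ℂ) z) (closedBall 0 R) :=
    Complex.continuous_conj.continuousOn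
  -- the right hand side
  set A := ∫ θ in (0:ℝ)..(2 * Real.pi), ‖F (circleMap 0 R θ)‖ ^ (b * t) with hA
  set G := ∫ θ in (0:ℝ)..(2 * Real.pi), (V (circleMap 0 R θ)).re ^ t with hG
  have iA : IntervalIntegrable (fun θ : ℝ => ‖F (circleMap 0 R θ)‖ ^ (b * t)) volume 0 (2 * Real.pi) := by
    refine circle_int hR.le (h := fun z => ‖F z‖ ^ (b * t)) ?_
    exact cF.norm.rpow_const (fun z _ => Or.inr (by positivity))
  have iG : IntervalIntegrable (fun θ : ℝ => (V (circleMap 0 R θ)).re ^ t) volume 0 (2 * Real.pi) := by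
    refine circle_int hR.le (h := fun z => (V z).re ^ t) ?_
    exact (Complex.continuous_re.comp_continuousOn cV).rpow_const
          (fun z hz => Or.inl (hV0 z (hRU hz)).ne')
  have hA0 : 0 ≤ A := intervalIntegral.integral_nonneg (by positivity) (fun θ _ => by positivity)
  have hG0 : 0 ≤ G := intervalIntegral.integral_nonneg (by positivity) (fun θ _ => by
    have := hV0 _ (hRU (circle_mem hR.le le_rfl θ)); positivity)
  have rhs : ∀ ε : ℝ, 0 < ε → ε ≤ 1 → ∫ θ in (0:ℝ)..(2 * Real.pi),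
      ((normSq (F (circleMap 0 R θ)) + ε) ^ (b * t / 2) + (V (circleMap 0 R θ)).re ^ t) ≤
      2 ^ (b * t / 2) * (2 * Real.pi) * (1 + A + G) := by
    intro ε hε hε1
    have h2 : ∫ θ in (0:ℝ)..(2 * Real.pi),
      ((normSq (F (circleMap 0 R θ)) + ε) ^ (b * t / 2) + (V (circleMap 0 R θ)).re ^ t) ≤
      ∫ θ in (0:ℝ)..(2 * Real.pi), ((2 ^ (b * t / 2) * ‖F (circleMap 0 R θ)‖ ^ (b * t) + 2 ^ (b * t / 2)) +
        (V (circleMap 0 R θ)).re ^ t) := by
      apply intervalIntegral.integral_mono_on (by positivity)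
      · exact (circle_int hR.le (h := fun z => (normSq (F z) + ε) ^ (b * t / 2)) (cNp ε hε _)).add iG
      · exact ((iA.const_mul _).add intervalIntegrable_const).add iG
      · intro θ _
        have h3 := add_rpow_le2 (normSq_nonneg (F (circleMap 0 R θ))) hε.le hbt
        have h4 : ε ^ (b * t / 2) ≤ 1 := Real.rpow_le_one hε.le hε1 hbt.le
        have h5 : (normSq (F (circleMap 0 R θ))) ^ (b * t / 2) = ‖F (circleMap 0 R θ)‖ ^ (b * t) := by
          rw [Complex.normSq_eq_norm_sq, ← Real.rpow_natCast, ← Real.rpow_mul (norm_nonneg _)]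
          congr 1; push_cast; ring
        rw [h5] at h3
        have h6 : (0:ℝ) < 2 ^ (b * t / 2) := by positivity
        nlinarith
    refine h2.trans ?_
    rw [intervalIntegral.integral_add ((iA.const_mul _).add intervalIntegrable_const) iG,
      intervalIntegral.integral_add (iA.const_mul _) intervalIntegrable_const,
      intervalIntegral.integral_const_mul, intervalIntegral.integral_const, smul_eq_mul, sub_zero]
    rw [← hA, ← hG]
    have hp : (1:ℝ) ≤ 2 ^ (b * t / 2) := Real.one_le_rpow (by norm_num) hbt.le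
    have hpi : (1:ℝ) ≤ 2 * Real.pi := by linarith [Real.pi_gt_three]
    have h7 : (1:ℝ) ≤ 2 ^ (b * t / 2) * (2 * Real.pi) := by nlinarith
    have h8 : 2 ^ (b * t / 2) * A ≤ 2 ^ (b * t / 2) * (2 * Real.pi) * A := by
      have : 0 ≤ 2 ^ (b * t / 2) * A := by positivity
      nlinarith
    nlinarith
  -- the limit
  set f : ℕ → ℂ → ℂ := fun n z => (starRingEnd ℂ) z *
    ((normSq (F z) + 1 / ((n:ℝ) + 1)) ^ ((a - 1) / 2) • F z) * (starRingEnd ℂ) (deriv V z) with hf
  have hε : ∀ n : ℕ, 0 < 1 / ((n:ℝ) + 1) := fun n => by positivity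
  have hε1 : ∀ n : ℕ, 1 / ((n:ℝ) + 1) ≤ 1 := fun n => by
    rw [div_le_one (by positivity)]; linarith [Nat.cast_nonneg (α := ℝ) n]
  have hbound : ∀ n, ‖∫ z in ball (0:ℂ) R, f n z‖ ≤ C * (2 ^ (b * t / 2) * (2 * Real.pi)) * (1 + A + G) := by
    intro n
    have h2 := h1 U hU F V hF hV hV0 _ (hε n) R hR hR1 hRU
    have h3 : ‖∫ z in ball (0:ℂ) R, f n z‖ ≤ ‖∫ z in ball (0:ℂ) R, 2 * (starRingEnd ℂ) z *
        ((normSq (F z) + 1 / ((n:ℝ) + 1)) ^ ((b * (t - 1) - 1) / 2) • F z) *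
        (starRingEnd ℂ) (deriv V z)‖ := by
      have e : ∫ z in ball (0:ℂ) R, 2 * (starRingEnd ℂ) z *
        ((normSq (F z) + 1 / ((n:ℝ) + 1)) ^ ((b * (t - 1) - 1) / 2) • F z) *
        (starRingEnd ℂ) (deriv V z) = 2 * ∫ z in ball (0:ℂ) R, f n z := by
        rw [← integral_const_mul]
        congr 1
        ext z
        simp only [hf, ha]
        ring
      rw [e, norm_mul]
      have : ‖(2:ℂ)‖ = 2 := by norm_num
      rw [this]
      have := norm_nonneg (∫ z in ball (0:ℂ) R, f n z)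
      linarith
    calc _ ≤ _ := h3
      _ ≤ _ := h2
      _ ≤ C * (2 ^ (b * t / 2) * (2 * Real.pi) * (1 + A + G)) :=
        mul_le_mul_of_nonneg_left (rhs _ (hε n) (hε1 n)) hC.le
      _ = _ := by ring
  have hlim : Tendsto (fun n => ∫ z in ball (0:ℂ) R, f n z) atTop
      (𝓝 (∫ z in ball (0:ℂ) R, (starRingEnd ℂ) z * Ph a F z * (starRingEnd ℂ) (deriv V z))) := by
    apply tendsto_integral_of_dominated_convergence
      (fun z => R * (normSq (F z) + 1) ^ (a / 2) * ‖deriv V z‖)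
    · intro n
      have : ContinuousOn (f n) (closedBall 0 R) :=
        (cconj.mul ((cNp _ (hε n) _).smul cF)).mul (Complex.continuous_conj.comp_continuousOn cV')
      exact (cont_int this).aestronglyMeasurable
    · have : ContinuousOn (fun z => R * (normSq (F z) + 1) ^ (a / 2) * ‖deriv V z‖) (closedBall 0 R) :=
        (continuousOn_const.mul (cNp 1 one_pos _)).mul cV'.norm
      exact cont_int this
    · intro n
      refine (ae_restrict_iff' measurableSet_ball).2 (ae_of_all _ fun z hz => ?_)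
      rw [mem_ball_zero_iff] at hz
      simp only [hf]
      rw [norm_mul, norm_mul, RCLike.norm_conj, RCLike.norm_conj, norm_smul, Real.norm_eq_abs,
        abs_of_pos (Real.rpow_pos_of_pos (hN0 _ (hε n) z) _)]
      have h2 : ‖F z‖ ≤ (normSq (F z) + 1 / ((n:ℝ) + 1)) ^ (1 / 2 : ℝ) := by
        rw [← Real.sqrt_eq_rpow, Complex.normSq_eq_norm_sq]
        exact Real.le_sqrt_of_sq_le (by linarith [hε n])
      have h3 : (normSq (F z) + 1 / ((n:ℝ) + 1)) ^ ((a - 1) / 2) * ‖F z‖ ≤ (normSq (F z) + 1) ^ (a / 2) := by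
        calc _ ≤ (normSq (F z) + 1 / ((n:ℝ) + 1)) ^ ((a - 1) / 2) *
              (normSq (F z) + 1 / ((n:ℝ) + 1)) ^ (1 / 2 : ℝ) :=
            mul_le_mul_of_nonneg_left h2 (Real.rpow_nonneg (hN0 _ (hε n) z).le _)
          _ = (normSq (F z) + 1 / ((n:ℝ) + 1)) ^ (a / 2) := by
            rw [← Real.rpow_add (hN0 _ (hε n) z)]; congr 1; ring
          _ ≤ _ := Real.rpow_le_rpow (hN0 _ (hε n) z).le (by linarith [hε1 n]) (by positivity)
      refine mul_le_mul_of_nonneg_right ?_ (norm_nonneg _)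
      exact mul_le_mul hz.le h3 (mul_nonneg (Real.rpow_nonneg (hN0 _ (hε n) z).le _) (norm_nonneg _)) hR.le
    · refine (ae_restrict_iff' measurableSet_ball).2 (ae_of_all _ fun z hz => ?_)
      simp only [hf]
      refine Tendsto.mul_const _ (Tendsto.const_mul _ ?_)
      rcases eq_or_ne (F z) 0 with h0 | h0
      · unfold Ph
        simp only [h0, smul_zero]
        exact tendsto_const_nhds
      · have hpos : 0 < normSq (F z) := Complex.normSq_pos.2 h0
        have e1 : Ph a F z = (normSq (F z) + 0) ^ ((a - 1) / 2) • F z := by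
          unfold Ph
          rw [add_zero, Complex.normSq_eq_norm_sq, ← Real.rpow_natCast, ← Real.rpow_mul (norm_nonneg _)]
          congr 2; push_cast; ring
        rw [e1]
        refine Tendsto.smul_const ?_ _
        have h2 : Tendsto (fun n : ℕ => normSq (F z) + 1 / ((n:ℝ) + 1)) atTop (𝓝 (normSq (F z) + 0)) :=
          tendsto_const_nhds.add tendsto_one_div_add_atTop_nhds_zero_nat
        exact h2.rpow_const (Or.inl (by rw [add_zero]; exact hpos.ne'))
  exact le_of_tendsto hlim.norm (Eventually.of_forall hbound)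

end Pool.Agent.Q76.BK
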