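import Pool.Agent.Q76.BK.Kern

set_option autoImplicit false

/-! The variational equation of the extremal function. -/

open Complex MeasureTheory Metric Set Filter Topology

namespace Pool.Agent.Q76.BK

/-- `f` is in the Bergman space `A^p` -/
def InBergman (p : ℝ) (f : ℂ → ℂ) : Prop :=
  DifferentiableOn ℂ f (ball 0 1) ∧ IntegrableOn (fun z => ‖f z‖ ^ p) (ball 0 1)

/-- the norm of `A^p`, the area measure is normalised -/
noncomputable def bergmanNorm (p : ℝ) (f : ℂ → ℂ) : ℝ :=
  (Real.pi⁻¹ * ∫ z in ball (0:ℂ) 1, ‖f z‖ ^ p) ^ (1 / p)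

/-- the functional with kernel `k` -/
noncomputable def functional (k g : ℂ → ℂ) : ℂ :=
  (Real.pi : ℂ)⁻¹ * ∫ z in ball (0:ℂ) 1, g z * (starRingEnd ℂ) (k z)

/-- `F` is an extremal function for the kernel `k` -/
def IsExtremal (p : ℝ) (k F : ℂ → ℂ) : Prop :=
  InBergman p F ∧ bergmanNorm p F = 1 ∧
    ∀ g, InBergman p g → bergmanNorm p g = 1 → (functional k g).re ≤ (functional k F).re

lemma InBergman.aesm {p : ℝ} {f : ℂ → ℂ} (h : InBergman p f) :
    AEStronglyMeasurable f (volume.restrict (ball 0 1)) :=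
  h.1.continuousOn.aestronglyMeasurable measurableSet_ball

instance finD : IsFiniteMeasure (volume.restrict (ball (0:ℂ) 1)) :=
  ⟨by rw [Measure.restrict_apply_univ]; exact measure_ball_lt_top⟩

lemma le_one_add_rpow {x p : ℝ} (hx : 0 ≤ x) {a : ℝ} (ha : 0 ≤ a) (hap : a ≤ p) : x ^ a ≤ 1 + x ^ p := by
  rcases le_total x 1 with h | h
  · have := Real.rpow_le_one hx h ha
    have : 0 ≤ x ^ p := Real.rpow_nonneg hx _
    linarith
  · have := Real.rpow_le_rpow_of_exponent_le h hap
    linarith

lemma InBergman.int_rpow {p : ℝ} {f : ℂ → ℂ} (h : InBergman p f) {a : ℝ} (ha : 0 ≤ a) (hap : a ≤ p) :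
    IntegrableOn (fun z => ‖f z‖ ^ a) (ball 0 1) := by
  refine Integrable.mono' ((integrable_const 1).add h.2) ?_ ?_
  · refine ContinuousOn.aestronglyMeasurable ?_ measurableSet_ball
    exact h.1.continuousOn.norm.rpow_const (fun _ _ => Or.inr ha)
  · refine ae_of_all _ fun z => ?_
    rw [Real.norm_eq_abs, abs_of_nonneg (by positivity)]
    exact le_one_add_rpow (norm_nonneg _) ha hap

lemma InBergman.int {p : ℝ} {f : ℂ → ℂ} (h : InBergman p f) (hp : 1 ≤ p) :
    IntegrableOn f (ball 0 1) := by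
  refine Integrable.mono' (h.int_rpow (zero_le_one) hp) h.aesm ?_
  refine ae_of_all _ fun z => ?_
  rw [Real.rpow_one]

lemma holder {p : ℝ} (hp : 1 < p) {g k : ℂ → ℂ} (hg : InBergman p g) (hk : InBergman (p / (p - 1)) k) :
    IntegrableOn (fun z => g z * (starRingEnd ℂ) (k z)) (ball 0 1) := by
  have hpq : p.HolderConjugate (p / (p - 1)) := by
    have := Real.HolderConjugate.conjExponent hp
    simpa [Real.conjExponent] using this
  refine Integrable.mono' ((hg.2.div_const p).add (hk.2.div_const (p / (p - 1)))) ?_ ?_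
  · exact hg.aesm.mul (Complex.continuous_conj.comp_aestronglyMeasurable hk.aesm)
  · refine ae_of_all _ fun z => ?_
    rw [norm_mul, RCLike.norm_conj]
    exact Real.young_inequality_of_nonneg (norm_nonneg _) (norm_nonneg _) hpq

lemma cont_ph {a : ℝ} (ha : 0 < a) : Continuous fun x : ℂ => ‖x‖ ^ (a - 1) • x := by
  rw [continuous_iff_continuousAt]
  intro x
  rcases eq_or_ne x 0 with h | h
  · subst h
    unfold ContinuousAt
    simp only [smul_zero]
    rw [tendsto_zero_iff_norm_tendsto_zero]
    have h1 : Tendsto (fun x : ℂ => ‖x‖ ^ a) (𝓝 0) (𝓝 0) := by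
      have h2 : Continuous fun x : ℂ => ‖x‖ ^ a := continuous_norm.rpow_const (fun _ => Or.inr ha.le)
      have h3 := h2.tendsto 0
      simpa [Real.zero_rpow ha.ne'] using h3
    refine h1.congr fun x => ?_
    exact (Ph_norm ha (fun x => x) x).symm
  · exact (continuous_norm.continuousAt.rpow_const (Or.inl (norm_ne_zero_iff.2 h))).smul continuousAt_id

lemma ph_aesm {a p : ℝ} (ha : 0 < a) {G : ℂ → ℂ} (hG : InBergman p G) :
    AEStronglyMeasurable (Ph a G) (volume.restrict (ball 0 1)) :=
  (cont_ph ha).comp_aestronglyMeasurable hG.aesm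

lemma ph_int {p : ℝ} (hp : 1 < p) {G : ℂ → ℂ} (hG : InBergman p G) :
    IntegrableOn (Ph (p - 1) G) (ball 0 1) := by
  refine Integrable.mono' (hG.int_rpow (a := p - 1) (by linarith) (by linarith)) (ph_aesm (by linarith) hG) ?_
  exact ae_of_all _ fun z => (Ph_norm (by linarith) G z).le

lemma bdd_bergman {p : ℝ} (hp : 1 < p) {m : ℂ → ℂ} (hm : DifferentiableOn ℂ m (ball 0 1)) {C : ℝ}
    (hC : ∀ z ∈ ball (0:ℂ) 1, ‖m z‖ ≤ C) : InBergman p m := by
  refine ⟨hm, ?_⟩
  refine Integrable.mono' (integrable_const (C ^ p)) ?_ ?_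
  · refine ContinuousOn.aestronglyMeasurable ?_ measurableSet_ball
    exact hm.continuousOn.norm.rpow_const (fun _ _ => Or.inr (by linarith))
  · refine (ae_restrict_iff' measurableSet_ball).2 (ae_of_all _ fun z hz => ?_)
    rw [Real.norm_eq_abs, abs_of_nonneg (by positivity)]
    exact Real.rpow_le_rpow (norm_nonneg _) (hC z hz) (by linarith)

lemma InBergman.add {p : ℝ} (hp : 1 < p) {f g : ℂ → ℂ} (hf : InBergman p f) (hg : InBergman p g) (c : ℂ) :
    InBergman p (fun z => f z + c * g z) := by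
  refine ⟨hf.1.add (hg.1.const_mul c), ?_⟩
  refine Integrable.mono' ((hf.2.add (hg.2.const_mul (‖c‖ ^ p))).const_mul (2 ^ p)) ?_ ?_
  · refine ContinuousOn.aestronglyMeasurable ?_ measurableSet_ball
    exact (hf.1.continuousOn.add (continuousOn_const.mul hg.1.continuousOn)).norm.rpow_const
      (fun _ _ => Or.inr (by linarith))
  · refine ae_of_all _ fun z => ?_
    rw [Real.norm_eq_abs, abs_of_nonneg (by positivity)]
    simp only [Pi.add_apply]
    calc ‖f z + c * g z‖ ^ p ≤ (‖f z‖ + ‖c‖ * ‖g z‖) ^ p :=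
          Real.rpow_le_rpow (norm_nonneg _) ((norm_add_le _ _).trans (by rw [norm_mul])) (by linarith)
      _ ≤ 2 ^ p * (‖f z‖ ^ p + (‖c‖ * ‖g z‖) ^ p) :=
          add_rpow_le2 (norm_nonneg _) (by positivity) (by linarith)
      _ = _ := by rw [Real.mul_rpow (norm_nonneg _) (norm_nonneg _)]

lemma InBergman.smul {p : ℝ} {f : ℂ → ℂ} (hf : InBergman p f) (c : ℂ) :
    InBergman p (fun z => c * f z) ∧
      ∫ z in ball (0:ℂ) 1, ‖c * f z‖ ^ p = ‖c‖ ^ p * ∫ z in ball (0:ℂ) 1, ‖f z‖ ^ p := by
  have e : (fun z => ‖c * f z‖ ^ p) = fun z => ‖c‖ ^ p * ‖f z‖ ^ p := by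
    ext z; rw [norm_mul, Real.mul_rpow (norm_nonneg _) (norm_nonneg _)]
  refine ⟨⟨hf.1.const_mul c, ?_⟩, ?_⟩
  · rw [e]; exact hf.2.const_mul _
  · rw [e, integral_const_mul]

lemma functional_smul (k g : ℂ → ℂ) (c : ℂ) : functional k (fun z => c * g z) = c * functional k g := by
  unfold functional
  have : ∀ z, c * g z * (starRingEnd ℂ) (k z) = c * (g z * (starRingEnd ℂ) (k z)) := fun z => by ring
  simp only [this]
  rw [integral_const_mul]; ring

/-- `Re φ(G) ≤ M ‖G‖` -/
lemma fun_le {p : ℝ} (hp : 1 < p) {k F : ℂ → ℂ} (hF : IsExtremal p k F) {G : ℂ → ℂ} (hG : InBergman p G) :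
    (functional k G).re ≤ (functional k F).re * bergmanNorm p G := by
  have hp0 : 0 < p := by linarith
  set T := Real.pi⁻¹ * ∫ z in ball (0:ℂ) 1, ‖G z‖ ^ p with hT
  have hi0 : 0 ≤ ∫ z in ball (0:ℂ) 1, ‖G z‖ ^ p := integral_nonneg (fun z => by positivity)
  have hT0 : 0 ≤ T := by have := Real.pi_pos; positivity
  rcases eq_or_lt_of_le hT0 with h | h
  · -- `G = 0`
    have h1 : ∫ z in ball (0:ℂ) 1, ‖G z‖ ^ p = 0 := by
      have : Real.pi⁻¹ ≠ 0 := by have := Real.pi_pos; positivity
      rw [hT] at h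
      rcases mul_eq_zero.1 h.symm with h2 | h2
      · exact absurd h2 this
      · exact h2
    have h2 := (integral_eq_zero_iff_of_nonneg_ae (ae_of_all _ fun z => by
      simp only [Pi.zero_apply]; positivity) hG.2.integrable).1 h1
    have h3 : functional k G = 0 := by
      unfold functional
      have : ∫ z in ball (0:ℂ) 1, G z * (starRingEnd ℂ) (k z) = 0 := by
        apply integral_eq_zero_of_ae
        filter_upwards [h2] with z hz
        simp only [Pi.zero_apply] at hz ⊢
        have : ‖G z‖ = 0 := by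
          rcases (Real.rpow_eq_zero_iff_of_nonneg (norm_nonneg _)).1 hz with ⟨h, -⟩
          exact h
        rw [norm_eq_zero.1 this, zero_mul]
      rw [this, mul_zero]
    have h4 : bergmanNorm p G = 0 := by
      unfold bergmanNorm
      rw [← hT, ← h, Real.zero_rpow (by positivity)]
    rw [h3, h4]; simp
  · have hN : 0 < bergmanNorm p G := by unfold bergmanNorm; rw [← hT]; positivity
    set N := bergmanNorm p G with hNd
    obtain ⟨h1, h2⟩ := hG.smul ((N⁻¹ : ℝ) : ℂ)
    have hNp : N ^ p = T := by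
      rw [hNd, bergmanNorm, ← hT, ← Real.rpow_mul hT0, one_div_mul_cancel hp0.ne', Real.rpow_one]
    have h3 : bergmanNorm p (fun z => ((N⁻¹ : ℝ) : ℂ) * G z) = 1 := by
      unfold bergmanNorm
      rw [h2, Complex.norm_real, Real.norm_eq_abs, abs_of_pos (by positivity)]
      have e : Real.pi⁻¹ * (N⁻¹ ^ p * ∫ z in ball (0:ℂ) 1, ‖G z‖ ^ p) = 1 := by
        calc _ = N⁻¹ ^ p * T := by rw [hT]; ring
          _ = 1 := by
            rw [← hNp, ← Real.mul_rpow (by positivity) (by positivity), inv_mul_cancel₀ hN.ne', Real.one_rpow]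
      rw [e, Real.one_rpow]
    have h4 := hF.2.2 _ h1 h3
    rw [functional_smul, Complex.re_ofReal_mul, inv_mul_le_iff₀ hN] at h4
    linarith

lemma fun_nonneg {p : ℝ} {k F : ℂ → ℂ} (hF : IsExtremal p k F) : 0 ≤ (functional k F).re := by
  obtain ⟨h1, h2⟩ := hF.1.smul (-1)
  have h3 : bergmanNorm p (fun z => (-1:ℂ) * F z) = 1 := by
    unfold bergmanNorm
    rw [h2, norm_neg, norm_one, Real.one_rpow, one_mul]
    exact hF.2.1
  have h4 := hF.2.2 _ h1 h3
  rw [functional_smul] at h4
  simp at h4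
  linarith

/-- convexity -/
lemma conv_pt {p : ℝ} (hp : 1 < p) (x y : ℂ) :
    ‖y‖ ^ p - ‖x‖ ^ p ≤ p * ((starRingEnd ℂ) (‖y‖ ^ (p - 1 - 1) • y) * (y - x)).re := by
  have h1 := tangent (norm_nonneg x) (norm_nonneg y) hp
  have h2 : ‖y‖ ^ (p - 1) * (‖y‖ - ‖x‖) ≤ ((starRingEnd ℂ) (‖y‖ ^ (p - 1 - 1) • y) * (y - x)).re := by
    have e : ((starRingEnd ℂ) (‖y‖ ^ (p - 1 - 1) • y) * (y - x)).re =
        ‖y‖ ^ (p - 1 - 1) * (‖y‖ ^ 2 - ((starRingEnd ℂ) y * x).re) := by
      rw [Complex.real_smul, map_mul, Complex.conj_ofReal, mul_assoc, Complex.re_ofReal_mul, mul_sub,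
        Complex.sub_re, Complex.conj_mul']
      norm_cast
    rw [e]
    have h3 : ((starRingEnd ℂ) y * x).re ≤ ‖y‖ * ‖x‖ := by
      refine (Complex.re_le_norm _).trans ?_
      rw [norm_mul, RCLike.norm_conj]
    rcases eq_or_ne y 0 with h | h
    · subst h
      simp only [norm_zero, map_zero, zero_mul, Complex.zero_re, zero_sub]
      rw [Real.zero_rpow (by linarith : p - 1 ≠ 0)]
      norm_num
    · have hy : 0 < ‖y‖ := norm_pos_iff.2 h
      have e2 : ‖y‖ ^ (p - 1) = ‖y‖ ^ (p - 1 - 1) * ‖y‖ := by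
        rw [← Real.rpow_add_one hy.ne']; congr 1; ring
      rw [e2, mul_assoc]
      refine mul_le_mul_of_nonneg_left ?_ (by positivity)
      nlinarith
  have hp0 : 0 < p := by linarith
  nlinarith

/-- the variational equation -/
theorem variation {p : ℝ} (hp : 1 < p) {k F : ℂ → ℂ} (hk : InBergman (p / (p - 1)) k)
    (hF : IsExtremal p k F) {m : ℂ → ℂ} (hm : DifferentiableOn ℂ m (ball 0 1)) {C : ℝ}
    (hC : ∀ z ∈ ball (0:ℂ) 1, ‖m z‖ ≤ C) :
    ∫ z in ball (0:ℂ) 1, m z * (starRingEnd ℂ) (k z) =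
      ((functional k F).re : ℂ) * ∫ z in ball (0:ℂ) 1, m z * (starRingEnd ℂ) (Ph (p - 1) F z) := by
  have hp0 : 0 < p := by linarith
  have hpi := Real.pi_pos
  have hmB := bdd_bergman hp hm hC
  have hC0 : 0 ≤ C := (norm_nonneg _).trans (hC 0 (by simp))
  set M := (functional k F).re with hM
  have hM0 : 0 ≤ M := fun_nonneg hF
  -- the functional at perturbations
  have step : ∀ c : ℂ, (c * functional k m).re ≤
      M * (c * functional (Ph (p - 1) (fun z => F z + c * m z)) m).re := by
    intro c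
    have hG := hF.1.add hp hmB c
    set G : ℂ → ℂ := fun z => F z + c * m z with hGd
    have h1 := fun_le hp hF hG
    have h2 : functional k G = functional k F + c * functional k m := by
      have i1 := holder hp hF.1 hk
      have i2 := holder hp hmB hk
      unfold functional
      have e : ∀ z, G z * (starRingEnd ℂ) (k z) = F z * (starRingEnd ℂ) (k z) +
          c * (m z * (starRingEnd ℂ) (k z)) := fun z => by simp only [hGd]; ring
      simp only [e]
      rw [integral_add i1 (i2.const_mul c), integral_const_mul]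
      ring
    rw [h2, Complex.add_re, ← hM] at h1
    set T := Real.pi⁻¹ * ∫ z in ball (0:ℂ) 1, ‖G z‖ ^ p with hT
    have hT0 : 0 ≤ T := by
      have : 0 ≤ ∫ z in ball (0:ℂ) 1, ‖G z‖ ^ p := integral_nonneg (fun z => by positivity)
      positivity
    have hFn : Real.pi⁻¹ * ∫ z in ball (0:ℂ) 1, ‖F z‖ ^ p = 1 := by
      have h3 := hF.2.1
      unfold bergmanNorm at h3
      have h4 : 0 ≤ Real.pi⁻¹ * ∫ z in ball (0:ℂ) 1, ‖F z‖ ^ p := by
        have : 0 ≤ ∫ z in ball (0:ℂ) 1, ‖F z‖ ^ p := integral_nonneg (fun z => by positivity)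
        positivity
      have h5 : (Real.pi⁻¹ * ∫ z in ball (0:ℂ) 1, ‖F z‖ ^ p) ^ (1 / p * p) = 1 := by
        rw [Real.rpow_mul h4, h3, Real.one_rpow]
      rwa [one_div_mul_cancel hp0.ne', Real.rpow_one] at h5
    have h5 : bergmanNorm p G ≤ 1 + (T - 1) / p := by
      have h6 := rpow_one_add_le_one_add_mul_self (s := T - 1) (by linarith) (p := 1 / p)
        (by positivity) (by rw [div_le_one hp0]; linarith)
      unfold bergmanNorm
      rw [← hT]
      calc T ^ (1 / p) = (1 + (T - 1)) ^ (1 / p) := by congr 1; ring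
        _ ≤ _ := h6
        _ = _ := by ring
    have h7 : T - 1 ≤ p * (c * functional (Ph (p - 1) G) m).re := by
      have i1 := hG.2
      have i2 := hF.1.2
      have i3 : IntegrableOn (fun z => (starRingEnd ℂ) (Ph (p - 1) G z) * (c * m z)) (ball 0 1) := by
        have h8 : IntegrableOn (fun z => (starRingEnd ℂ) (Ph (p - 1) G z)) (ball 0 1) :=
          Integrable.mono' (ph_int hp hG).norm
            (Complex.continuous_conj.comp_aestronglyMeasurable (ph_aesm (by linarith) hG))
            (ae_of_all _ fun z => by rw [RCLike.norm_conj])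
        refine h8.integrable.mul_bdd (c := ‖c‖ * C) ?_ ?_
        · exact (continuousOn_const.mul hm.continuousOn).aestronglyMeasurable measurableSet_ball
        · refine (ae_restrict_iff' measurableSet_ball).2 (ae_of_all _ fun z hz => ?_)
          rw [norm_mul]
          exact mul_le_mul_of_nonneg_left (hC z hz) (norm_nonneg _)
      have h9 : ∫ z in ball (0:ℂ) 1, (‖G z‖ ^ p - ‖F z‖ ^ p) ≤
          ∫ z in ball (0:ℂ) 1, p * ((starRingEnd ℂ) (Ph (p - 1) G z) * (c * m z)).re := by
        apply integral_mono (i1.sub i2) (i3.integrable.re.const_mul p)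
        intro z
        have h10 := conv_pt hp (F z) (G z)
        have e : G z - F z = c * m z := by simp only [hGd]; ring
        rw [e] at h10
        exact h10
      rw [integral_sub i1 i2, integral_const_mul] at h9
      have h11 : ∫ z in ball (0:ℂ) 1, ((starRingEnd ℂ) (Ph (p - 1) G z) * (c * m z)).re =
          (∫ z in ball (0:ℂ) 1, (starRingEnd ℂ) (Ph (p - 1) G z) * (c * m z)).re :=
        Complex.reCLM.integral_comp_comm i3
      have h12 : ∫ z in ball (0:ℂ) 1, (starRingEnd ℂ) (Ph (p - 1) G z) * (c * m z) =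
          c * ∫ z in ball (0:ℂ) 1, m z * (starRingEnd ℂ) (Ph (p - 1) G z) := by
        rw [← integral_const_mul]; congr 1; ext z; ring
      rw [h11, h12] at h9
      have h13 : (c * functional (Ph (p - 1) G) m).re =
          Real.pi⁻¹ * (c * ∫ z in ball (0:ℂ) 1, m z * (starRingEnd ℂ) (Ph (p - 1) G z)).re := by
        unfold functional
        rw [← Complex.re_ofReal_mul]
        congr 1
        push_cast
        ring
      rw [h13]
      have h14 := mul_le_mul_of_nonneg_left h9 (by positivity : 0 ≤ Real.pi⁻¹)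
      rw [mul_sub, hFn] at h14
      calc _ ≤ _ := h14
        _ = _ := by ring
    have h15 : M * bergmanNorm p G ≤ M * (1 + (c * functional (Ph (p - 1) G) m).re) := by
      refine mul_le_mul_of_nonneg_left (h5.trans ?_) hM0
      have : (T - 1) / p ≤ (c * functional (Ph (p - 1) G) m).re := by
        rw [div_le_iff₀ hp0]; linarith
      linarith
    linarith
  -- the limit
  have lim : ∀ ω : ℂ, (ω * functional k m).re ≤ M * (ω * functional (Ph (p - 1) F) m).re := by
    intro ω
    set τ : ℕ → ℝ := fun n => 1 / ((n:ℝ) + 1) with hτ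
    have hτ0 : ∀ n, 0 < τ n := fun n => by simp only [hτ]; positivity
    have hτ1 : ∀ n, τ n ≤ 1 := fun n => by
      simp only [hτ]
      rw [div_le_one (by positivity)]; linarith [Nat.cast_nonneg (α := ℝ) n]
    have h1 : ∀ n, (ω * functional k m).re ≤
        M * (ω * functional (Ph (p - 1) (fun z => F z + (τ n * ω) * m z)) m).re := by
      intro n
      have h2 := step (τ n * ω)
      rw [mul_assoc, mul_assoc, Complex.re_ofReal_mul, Complex.re_ofReal_mul] at h2
      have h3 : τ n * (ω * functional k m).re ≤ τ n * (M * (ω * functional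
          (Ph (p - 1) (fun z => F z + (τ n * ω) * m z)) m).re) := by
        calc _ ≤ _ := h2
          _ = _ := by ring
      exact le_of_mul_le_mul_left h3 (hτ0 n)
    have hlim : Tendsto (fun n => functional (Ph (p - 1) (fun z => F z + (τ n * ω) * m z)) m) atTop
        (𝓝 (functional (Ph (p - 1) F) m)) := by
      unfold functional
      refine Tendsto.const_mul _ ?_
      apply tendsto_integral_of_dominated_convergence
        (fun z => C * (2 ^ (p - 1) * (‖F z‖ ^ (p - 1) + (‖ω‖ * C) ^ (p - 1))))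
      · intro n
        refine (hm.continuousOn.aestronglyMeasurable measurableSet_ball).mul ?_
        exact Complex.continuous_conj.comp_aestronglyMeasurable
          (ph_aesm (by linarith) (hF.1.add hp hmB (τ n * ω)))
      · exact (((hF.1.int_rpow (a := p - 1) (by linarith) (by linarith)).add
          (integrable_const _)).const_mul _).const_mul _
      · intro n
        refine (ae_restrict_iff' measurableSet_ball).2 (ae_of_all _ fun z hz => ?_)
        rw [norm_mul, RCLike.norm_conj, Ph_norm (by linarith)]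
        refine mul_le_mul (hC z hz) ?_ (by positivity) hC0
        have h4 : ‖F z + (τ n * ω) * m z‖ ≤ ‖F z‖ + ‖ω‖ * C := by
          refine (norm_add_le _ _).trans (add_le_add le_rfl ?_)
          rw [norm_mul, norm_mul, Complex.norm_real, Real.norm_eq_abs, abs_of_pos (hτ0 n)]
          have h5 : τ n * ‖ω‖ ≤ ‖ω‖ := by nlinarith [norm_nonneg ω, hτ1 n]
          exact mul_le_mul h5 (hC z hz) (norm_nonneg _) (norm_nonneg _)
        calc _ ≤ (‖F z‖ + ‖ω‖ * C) ^ (p - 1) := Real.rpow_le_rpow (norm_nonneg _) h4 (by linarith)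
          _ ≤ _ := add_rpow_le2 (norm_nonneg _) (by positivity) (by linarith)
      · refine ae_of_all _ fun z => ?_
        refine Tendsto.const_mul _ ((Complex.continuous_conj.tendsto _).comp ?_)
        have h6 : Tendsto (fun n : ℕ => F z + (τ n * ω) * m z) atTop (𝓝 (F z + (((0:ℝ):ℂ) * ω) * m z)) := by
          refine tendsto_const_nhds.add (Tendsto.mul_const _ (Tendsto.mul_const _ ?_))
          exact (Complex.continuous_ofReal.tendsto 0).comp tendsto_one_div_add_atTop_nhds_zero_nat
        have e : F z + (((0:ℝ):ℂ) * ω) * m z = F z := by simp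
        rw [e] at h6
        exact ((cont_ph (by linarith : 0 < p - 1)).tendsto (F z)).comp h6
    have h7 : Tendsto (fun n => M * (ω * functional (Ph (p - 1) (fun z => F z + (τ n * ω) * m z)) m).re) atTop
        (𝓝 (M * (ω * functional (Ph (p - 1) F) m).re)) :=
      Tendsto.const_mul _ ((Complex.continuous_re.tendsto _).comp (Tendsto.const_mul _ hlim))
    exact ge_of_tendsto' h7 h1
  -- conclusion
  set X := functional k m - (M : ℂ) * functional (Ph (p - 1) F) m with hX
  have h1 := lim ((starRingEnd ℂ) X)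
  have h2 : ((starRingEnd ℂ) X * X).re ≤ 0 := by
    have e : (starRingEnd ℂ) X * X = (starRingEnd ℂ) X * functional k m -
        (M : ℂ) * ((starRingEnd ℂ) X * functional (Ph (p - 1) F) m) := by
      conv_lhs => rw [hX]
      ring
    rw [e, Complex.sub_re, Complex.re_ofReal_mul]
    linarith
  rw [Complex.conj_mul'] at h2
  norm_cast at h2
  have h3 : X = 0 := by
    rw [← norm_eq_zero]
    nlinarith [norm_nonneg X]
  rw [hX, sub_eq_zero] at h3
  unfold functional at h3
  have hpic : (Real.pi : ℂ)⁻¹ ≠ 0 := inv_ne_zero (by exact_mod_cast hpi.ne')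
  apply mul_left_cancel₀ hpic
  rw [h3]
  ring

end Pool.Agent.Q76.BK
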